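import Mathlib

/-!
# Basic consequences of (SD)

The statements `interval_ideal` and `semi_primary` and their proofs are taken from the library
of earlier runs (hand-ins `IntervalIdeal` and `SemiPrimary` on this problem).
-/

namespace Pool.Agent.Helper20.SD

/-- Property (SD): every interval is self-dual. -/
def SD (L : Type*) [Lattice L] : Prop :=
  ∀ x y : L, x ≤ y → Nonempty (Set.Icc x y ≃o (Set.Icc x y)ᵒᵈ)

section
variable {L : Type*} [Lattice L]

/-- If `[b, y]` is self-dual and `b ≤ x ≤ y` then `[x, y]` is anti-isomorphic to some `[b, u]`,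
`u ≤ y`. -/
theorem upper_anti_lower {b x y : L} (hbx : b ≤ x) (hxy : x ≤ y)
    (e : Set.Icc b y ≃o (Set.Icc b y)ᵒᵈ) :
    ∃ u, b ≤ u ∧ u ≤ y ∧ Nonempty (Set.Icc x y ≃o (Set.Icc b u)ᵒᵈ) := by
  let X : Set.Icc b y := ⟨x, hbx, hxy⟩
  let U : Set.Icc b y := OrderDual.ofDual (e X)
  have heX : e X = OrderDual.toDual U := rfl
  refine ⟨(U : L), U.2.1, U.2.2, ⟨?_⟩⟩
  refine
    { toFun := fun z => OrderDual.toDual
        ⟨((OrderDual.ofDual (e ⟨(z : L), hbx.trans z.2.1, z.2.2⟩) : Set.Icc b y) : L), ?_, ?_⟩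
      invFun := fun w =>
        ⟨((e.symm (OrderDual.toDual ⟨((OrderDual.ofDual w : Set.Icc b (U : L)) : L),
            (OrderDual.ofDual w).2.1, (OrderDual.ofDual w).2.2.trans U.2.2⟩) :
              Set.Icc b y) : L), ?_, ?_⟩
      left_inv := ?_
      right_inv := ?_
      map_rel_iff' := ?_ }
  · exact (OrderDual.ofDual (e ⟨(z : L), hbx.trans z.2.1, z.2.2⟩)).2.1
  · have h : X ≤ ⟨(z : L), hbx.trans z.2.1, z.2.2⟩ := z.2.1
    have h2 := e.monotone h
    exact h2
  · have h : OrderDual.toDual U ≤ OrderDual.toDual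
        (⟨((OrderDual.ofDual w : Set.Icc b (U : L)) : L),
            (OrderDual.ofDual w).2.1, (OrderDual.ofDual w).2.2.trans U.2.2⟩ : Set.Icc b y) := by
      rw [OrderDual.toDual_le_toDual]
      exact (OrderDual.ofDual w).2.2
    have h2 := e.symm.monotone h
    rw [← heX, OrderIso.symm_apply_apply] at h2
    exact h2
  · exact (e.symm _).2.2
  · intro z
    apply Subtype.ext
    simp
  · intro w
    apply OrderDual.ofDual.injective
    apply Subtype.ext
    have h := e.apply_symm_apply (OrderDual.toDual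
      (⟨((OrderDual.ofDual w : Set.Icc b (U : L)) : L),
            (OrderDual.ofDual w).2.1, (OrderDual.ofDual w).2.2.trans U.2.2⟩ : Set.Icc b y))
    exact congrArg (fun s => ((OrderDual.ofDual s : Set.Icc b y) : L)) h
  · intro z1 z2
    change ((OrderDual.ofDual (e ⟨(z2 : L), hbx.trans z2.2.1, z2.2.2⟩) : Set.Icc b y) : L) ≤
      ((OrderDual.ofDual (e ⟨(z1 : L), hbx.trans z1.2.1, z1.2.2⟩) : Set.Icc b y) : L) ↔ _
    have h := e.le_iff_le (x := (⟨(z1 : L), hbx.trans z1.2.1, z1.2.2⟩ : Set.Icc b y))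
      (y := ⟨(z2 : L), hbx.trans z2.2.1, z2.2.2⟩)
    exact h

end

theorem interval_ideal (L : Type*) [Lattice L] (hSD : SD L) (b x y : L) (hbx : b ≤ x) (hxy : x ≤ y) :
    ∃ u, b ≤ u ∧ u ≤ y ∧ Nonempty (Set.Icc x y ≃o Set.Icc b u) := by
  obtain ⟨e⟩ := hSD b y (hbx.trans hxy)
  obtain ⟨u, hbu, huy, ⟨f⟩⟩ := upper_anti_lower hbx hxy e
  obtain ⟨g⟩ := hSD b u hbu
  exact ⟨u, hbu, huy, ⟨f.trans g.symm⟩⟩



/-- the interval `[x, y]` is a chain -/
def IntervalChain {L : Type*} [Lattice L] (x y : L) : Prop :=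
  ∀ u v : L, u ∈ Set.Icc x y → v ∈ Set.Icc x y → u ≤ v ∨ v ≤ u

/-- `y` is join-irreducible in `[x, y]`: it is not the join of two smaller elements of `[x, y]`. -/
def JoinIrredAbove {L : Type*} [Lattice L] (x y : L) : Prop :=
  x < y ∧ ∀ u v : L, x ≤ u → x ≤ v → u ⊔ v = y → u = y ∨ v = y

/-- `x` is meet-irreducible in `[x, y]`. -/
def MeetIrredBelow {L : Type*} [Lattice L] (x y : L) : Prop :=
  x < y ∧ ∀ u v : L, u ≤ y → v ≤ y → u ⊓ v = x → u = x ∨ v = x

section
variable {L : Type*} [Lattice L]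

/-- in a self-dual interval, join-irreducibility of the top gives meet-irreducibility of
the bottom -/
theorem meet_of_join {x y : L} (hxy : x ≤ y) (e : Set.Icc x y ≃o (Set.Icc x y)ᵒᵈ)
    (h : JoinIrredAbove x y) : MeetIrredBelow x y := by
  refine ⟨h.1, ?_⟩
  intro u v hu hv huv
  have hxu : x ≤ u := huv ▸ inf_le_left
  have hxv : x ≤ v := huv ▸ inf_le_right
  let f : Set.Icc x y → Set.Icc x y := fun z => e.symm (OrderDual.toDual z)
  have hf : ∀ a b : Set.Icc x y, f a ≤ f b ↔ b ≤ a := by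
    intro a b
    simp only [f, OrderIso.le_iff_le, OrderDual.toDual_le_toDual]
  have hfsurj : Function.Surjective f := by
    intro z
    exact ⟨OrderDual.ofDual (e z), by simp [f]⟩
  have hfinj : Function.Injective f := by
    intro a b hab
    exact le_antisymm ((hf b a).1 hab.ge) ((hf a b).1 hab.le)
  let U : Set.Icc x y := ⟨u, hxu, hu⟩
  let V : Set.Icc x y := ⟨v, hxv, hv⟩
  let X : Set.Icc x y := ⟨x, le_rfl, hxy⟩
  let Y : Set.Icc x y := ⟨y, hxy, le_rfl⟩
  have hX : ∀ a : Set.Icc x y, X ≤ a := fun a => a.2.1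
  have hfX : f X = Y := by
    apply le_antisymm
    · exact (f X).2.2
    · obtain ⟨w, hw⟩ := hfsurj Y
      rw [← hw, hf]
      exact hX w
  have hjoin : ((f U : Set.Icc x y) : L) ⊔ (f V : Set.Icc x y) = y := by
    apply le_antisymm
    · exact sup_le (f U).2.2 (f V).2.2
    · -- the join corresponds to a lower bound of `U`, `V`
      let J : Set.Icc x y := ⟨(f U : L) ⊔ (f V : L), le_sup_of_le_left (f U).2.1,
        sup_le (f U).2.2 (f V).2.2⟩
      obtain ⟨w, hw⟩ := hfsurj J
      have h1 : f U ≤ f w := by rw [hw]; exact (le_sup_left : (f U : L) ≤ _)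
      have h2 : f V ≤ f w := by rw [hw]; exact (le_sup_right : (f V : L) ≤ _)
      have h3 : w ≤ U := (hf U w).1 h1
      have h4 : w ≤ V := (hf V w).1 h2
      have h5 : (w : L) ≤ x := le_trans (le_inf h3 h4) huv.le
      have h6 : w = X := le_antisymm h5 (hX w)
      rw [h6, hfX] at hw
      have : (Y : L) = J := congrArg Subtype.val hw
      exact this.le
  rcases h.2 _ _ (f U).2.1 (f V).2.1 hjoin with h7 | h7
  · left
    have : f U = f X := by rw [hfX]; exact Subtype.ext h7
    exact congrArg Subtype.val (hfinj this)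
  · right
    have : f V = f X := by rw [hfX]; exact Subtype.ext h7
    exact congrArg Subtype.val (hfinj this)

theorem join_of_meet {x y : L} (hxy : x ≤ y) (e : Set.Icc x y ≃o (Set.Icc x y)ᵒᵈ)
    (h : MeetIrredBelow x y) : JoinIrredAbove x y := by
  refine ⟨h.1, ?_⟩
  intro u v hu hv huv
  have hxu : u ≤ y := huv ▸ le_sup_left
  have hxv : v ≤ y := huv ▸ le_sup_right
  let f : Set.Icc x y → Set.Icc x y := fun z => e.symm (OrderDual.toDual z)
  have hf : ∀ a b : Set.Icc x y, f a ≤ f b ↔ b ≤ a := by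
    intro a b
    simp only [f, OrderIso.le_iff_le, OrderDual.toDual_le_toDual]
  have hfsurj : Function.Surjective f := by
    intro z
    exact ⟨OrderDual.ofDual (e z), by simp [f]⟩
  have hfinj : Function.Injective f := by
    intro a b hab
    exact le_antisymm ((hf b a).1 hab.ge) ((hf a b).1 hab.le)
  let U : Set.Icc x y := ⟨u, hu, hxu⟩
  let V : Set.Icc x y := ⟨v, hv, hxv⟩
  let X : Set.Icc x y := ⟨x, le_rfl, hxy⟩
  let Y : Set.Icc x y := ⟨y, hxy, le_rfl⟩
  have hY : ∀ a : Set.Icc x y, a ≤ Y := fun a => a.2.2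
  have hfY : f Y = X := by
    apply le_antisymm
    · obtain ⟨w, hw⟩ := hfsurj X
      rw [← hw, hf]
      exact hY w
    · exact (f Y).2.1
  have hmeet : ((f U : Set.Icc x y) : L) ⊓ (f V : Set.Icc x y) = x := by
    apply le_antisymm
    · let J : Set.Icc x y := ⟨(f U : L) ⊓ (f V : L), le_inf (f U).2.1 (f V).2.1,
        inf_le_of_left_le (f U).2.2⟩
      obtain ⟨w, hw⟩ := hfsurj J
      have h1 : f w ≤ f U := by rw [hw]; exact (inf_le_left : _ ≤ (f U : L))
      have h2 : f w ≤ f V := by rw [hw]; exact (inf_le_right : _ ≤ (f V : L))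
      have h3 : U ≤ w := (hf w U).1 h1
      have h4 : V ≤ w := (hf w V).1 h2
      have h5 : y ≤ (w : L) := le_trans huv.ge (sup_le h3 h4)
      have h6 : w = Y := le_antisymm (hY w) h5
      rw [h6, hfY] at hw
      have : (X : L) = J := congrArg Subtype.val hw
      exact this.ge
    · exact le_inf (f U).2.1 (f V).2.1
  rcases h.2 _ _ (f U).2.2 (f V).2.2 hmeet with h7 | h7
  · left
    have : f U = f Y := by rw [hfY]; exact Subtype.ext h7
    exact congrArg Subtype.val (hfinj this)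
  · right
    have : f V = f Y := by rw [hfY]; exact Subtype.ext h7
    exact congrArg Subtype.val (hfinj this)

/-- a finite interval whose bottom is meet-irreducible has a least element above it -/
theorem exists_atom' {x y : L} (hfin : (Set.Icc x y).Finite) (h : MeetIrredBelow x y) :
    ∃ a, x < a ∧ a ≤ y ∧ ∀ z, x < z → z ≤ y → a ≤ z := by
  have hne : (Set.Ioc x y).Nonempty := ⟨y, h.1, le_rfl⟩
  have hfin' : (Set.Ioc x y).Finite := hfin.subset Set.Ioc_subset_Icc_self
  obtain ⟨a, ha⟩ := hfin'.exists_minimal hne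
  refine ⟨a, ha.1.1, ha.1.2, ?_⟩
  intro z hz hzy
  have h1 : x ≤ a ⊓ z := le_inf ha.1.1.le hz.le
  rcases h1.eq_or_lt with h2 | h2
  · rcases h.2 a z ha.1.2 hzy h2.symm with h3 | h3
    · exact absurd h3 ha.1.1.ne'
    · exact absurd h3 hz.ne'
  · have h3 : a ≤ a ⊓ z := ha.2 ⟨h2, inf_le_of_left_le ha.1.2⟩ inf_le_left
    exact h3.trans inf_le_right

theorem chain_of_join (hSD : SD L) (hfin : ∀ x y : L, (Set.Icc x y).Finite) :
    ∀ (n : ℕ) (x y : L), (Set.Icc x y).ncard ≤ n → JoinIrredAbove x y → IntervalChain x y := by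
  intro n
  induction n with
  | zero =>
    intro x y hn h
    have : (Set.Icc x y) = ∅ := by
      rwa [Nat.le_zero, Set.ncard_eq_zero (hfin x y)] at hn
    exact absurd (show x ∈ Set.Icc x y from ⟨le_rfl, h.1.le⟩) (by rw [this]; simp)
  | succ n ih =>
    intro x y hn h
    obtain ⟨e⟩ := hSD x y h.1.le
    have hm := meet_of_join h.1.le e h
    obtain ⟨a, hxa, hay, ha⟩ := exists_atom' (hfin x y) hm
    have hsub : IntervalChain a y := by
      rcases hay.eq_or_lt with h1 | h1
      · subst h1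
        intro u v hu hv
        left
        exact hu.2.trans hv.1
      · apply ih a y _ ⟨h1, fun u v hu hv huv => h.2 u v (hxa.le.trans hu) (hxa.le.trans hv) huv⟩
        have hlt : (Set.Icc a y).ncard < (Set.Icc x y).ncard := by
          apply Set.ncard_lt_ncard _ (hfin x y)
          refine ⟨Set.Icc_subset_Icc_left hxa.le, ?_⟩
          intro hcon
          exact absurd (hcon ⟨le_rfl, h.1.le⟩ : x ∈ Set.Icc a y).1 hxa.not_ge
        omega
    intro u v hu hv
    rcases hu.1.eq_or_lt with h1 | h1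
    · left; rw [← h1]; exact hv.1
    rcases hv.1.eq_or_lt with h2 | h2
    · right; rw [← h2]; exact hu.1
    exact hsub u v ⟨ha u h1 hu.2, hu.2⟩ ⟨ha v h2 hv.2, hv.2⟩

end

theorem semi_primary (L : Type*) [Lattice L] (hfin : ∀ x y : L, (Set.Icc x y).Finite)
    (hSD : SD L) (x y : L) :
    (JoinIrredAbove x y ↔ (x < y ∧ IntervalChain x y)) ∧
    (MeetIrredBelow x y ↔ (x < y ∧ IntervalChain x y)) := by
  have key : JoinIrredAbove x y → IntervalChain x y := fun h =>
    chain_of_join hSD hfin _ x y le_rfl h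
  refine ⟨⟨fun h => ⟨h.1, key h⟩, ?_⟩, ⟨fun h => ?_, ?_⟩⟩
  · rintro ⟨hlt, hc⟩
    refine ⟨hlt, fun u v hu hv huv => ?_⟩
    have hu' : u ≤ y := huv ▸ le_sup_left
    have hv' : v ≤ y := huv ▸ le_sup_right
    rcases hc u v ⟨hu, hu'⟩ ⟨hv, hv'⟩ with h | h
    · right; rw [← huv]; exact (sup_eq_right.2 h).symm
    · left; rw [← huv]; exact (sup_eq_left.2 h).symm
  · obtain ⟨e⟩ := hSD x y h.1.le
    exact ⟨h.1, key (join_of_meet h.1.le e h)⟩
  · rintro ⟨hlt, hc⟩
    refine ⟨hlt, fun u v hu hv huv => ?_⟩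
    have hu' : x ≤ u := huv ▸ inf_le_left
    have hv' : x ≤ v := huv ▸ inf_le_right
    rcases hc u v ⟨hu', hu⟩ ⟨hv', hv⟩ with h | h
    · left; rw [← huv]; exact (inf_eq_left.2 h).symm
    · right; rw [← huv]; exact (inf_eq_right.2 h).symm



end Pool.Agent.Helper20.SD
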