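import Pool.Agent.Helper20.SD.Transfer

/-!
# The classification without planes
-/

namespace Pool.Agent.Helper20.SD

universe u

variable {L : Type u} [Lattice L] [OrderBot L] [IsModularLattice L]

/-- the classes of linked atoms -/
theorem exists_classes (hfc : {a : L | ⊥ ⋖ a}.Finite) : ∃ (n : ℕ) (A : Fin n → Set L),
    (∀ i, Sat (A i)) ∧ (∀ i j a, a ∈ A i → a ∈ A j → i = j) ∧ (∀ a, ⊥ ⋖ a → ∃ i, a ∈ A i) ∧
    (∀ i, ∃ a ∈ A i, ⊥ ⋖ a) ∧ ∀ i a b, a ∈ A i → b ∈ A i → Persp a b := by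
  classical
  let s : Setoid {a : L // ⊥ ⋖ a} :=
    { r := fun a b => Persp (a : L) (b : L)
      iseqv := ⟨fun _ => Or.inl rfl, fun h => h.symm,
        fun {a b c} h1 h2 => h1.trans a.2 b.2 c.2 h2⟩ }
  have : Finite {a : L // ⊥ ⋖ a} := hfc.to_subtype
  have hQ : Finite (Quotient s) := Quotient.finite s
  obtain ⟨n, ⟨e⟩⟩ := Finite.exists_equiv_fin (Quotient s)
  refine ⟨n, fun i => {a | ∃ h : ⊥ ⋖ a, e (Quotient.mk s ⟨a, h⟩) = i}, ?_, ?_, ?_, ?_, ?_⟩
  · rintro i a b ha hb ⟨_, h1⟩ hab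
    refine ⟨hb, ?_⟩
    rw [← h1]
    congr 1
    exact Quotient.sound (s := s) hab.symm
  · rintro i j a ⟨_, h1⟩ ⟨_, h2⟩
    rw [← h1, ← h2]
  · intro a ha
    exact ⟨_, ha, rfl⟩
  · intro i
    obtain ⟨⟨a, ha⟩, h1⟩ := Quotient.exists_rep (e.symm i)
    refine ⟨a, ⟨ha, ?_⟩, ha⟩
    rw [h1, e.apply_symm_apply]
  · rintro i a b ⟨ha, h1⟩ ⟨hb, h2⟩
    have h3 := e.injective (h1.trans h2.symm)
    exact Quotient.exact (s := s) h3

theorem part_lower {hf : Finitary L} {hSD : SD L} {A : Set L} (hA : Sat A) :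
    IsLowerSet ((part hf hSD hA : Sublattice L) : Set L) := fun _ _ hxy hx => In.mono hx hxy

/-- the parts inherit the hypotheses -/
theorem sub_props {S : Sublattice L} (hS : IsLowerSet (S : Set L)) (hf : Finitary L)
    (hfc : FiniteCovers L) (hSD : SD L) :
    IsModularLattice S ∧ Finitary S ∧ FiniteCovers S ∧ SD S := by
  refine ⟨⟨@fun a b c hac => (IsModularLattice.sup_inf_le_assoc_of_le (b : L) hac :
      ((a : L) ⊔ b) ⊓ c ≤ (a : L) ⊔ b ⊓ c)⟩, ?_, ?_, ?_⟩
  · exact hf.comap (OrderEmbedding.subtype fun z => z ∈ S)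
  · exact hfc.comap (OrderEmbedding.subtype fun z => z ∈ S) (range_subtype_ordConnected S hS)
  · exact hSD.comap (OrderEmbedding.subtype fun z => z ∈ S) (range_subtype_ordConnected S hS)

/-- `T p a b` with `b ≠ 0` has two atoms -/
theorem T_two_atoms {p : ℕ} {a b : ℕ∞} (hb : b ≠ 0) (hba : b ≤ a) :
    ∃ x y : T p a b, ⊥ ⋖ x ∧ ⊥ ⋖ y ∧ x ≠ y := by
  obtain ⟨y, y', hy, hy', hyy⟩ := Tree.exists_two_up (⊥ : Tree p)
  have h1 : (1 : ℕ∞) ≤ b := ENat.one_le_iff_ne_zero.2 hb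
  have hmem : ∀ z : Tree p, ⊥ ⋖ z → z ∈ T p a b := by
    intro z hz
    refine ⟨1, 1, le_rfl, by exact_mod_cast h1, by exact_mod_cast h1.trans hba, ?_⟩
    exact (Tree.le_above_of_covBy hz)
  have hcov : ∀ (z : Tree p) (hz : ⊥ ⋖ z), (⊥ : T p a b) ⋖ ⟨z, hmem z hz⟩ := by
    intro z hz
    exact ((T_ordConnected p a b).apply_covBy_apply_iff
      (OrderEmbedding.subtype fun z => z ∈ T p a b)).1 hz
  exact ⟨⟨y, hmem y hy⟩, ⟨y', hmem y' hy'⟩, hcov y hy, hcov y' hy',
    fun h => hyy (congrArg Subtype.val h)⟩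

/-- `T p a 0` is a chain -/
theorem T_chain {p : ℕ} {a : ℕ∞} (x y : T p a 0) : x ≤ y ∨ y ≤ x := by
  obtain ⟨x, mx, nx, h1, h2, h3, h4⟩ := x
  obtain ⟨y, my, ny, k1, k2, k3, k4⟩ := y
  have hmx : mx = 0 := by
    have : (mx : ℕ∞) = 0 := le_antisymm h2 bot_le
    exact_mod_cast this
  have hmy : my = 0 := by
    have : (my : ℕ∞) = 0 := le_antisymm k2 bot_le
    exact_mod_cast this
  subst hmx hmy
  obtain ⟨i, _, rfl⟩ := Tree.eq_base_of_le h4
  obtain ⟨j, _, rfl⟩ := Tree.eq_base_of_le k4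
  rcases le_total i j with h | h
  · left
    change Tree.base p i 0 ≤ Tree.base p j 0
    rw [Tree.base_le_base]
    omega
  · right
    change Tree.base p j 0 ≤ Tree.base p i 0
    rw [Tree.base_le_base]
    omega

/-- `T p 0 b` is trivial -/
theorem T_trivial {p : ℕ} {b : ℕ∞} (x : T p 0 b) : x = ⊥ := by
  obtain ⟨x, m, n, h1, h2, h3, h4⟩ := x
  have hn : n = 0 := by
    have : (n : ℕ∞) = 0 := le_antisymm h3 bot_le
    exact_mod_cast this
  subst hn
  have hm : m = 0 := by omega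
  subst hm
  apply Subtype.ext
  exact le_bot_iff.1 h4

/-- normalised parameters -/
structure Params (p : ℕ) (a b : ℕ∞) : Prop where
  le : b ≤ a
  pos : a ≠ 0
  iff : p = 0 ↔ b = 0

/-- a connected part without planes is some `T p a b` -/
theorem connected_iso (hf : Finitary L) (hfc : FiniteCovers L) (hSD : SD L) (hpf : PlaneFree L)
    (hne : ∃ a : L, ⊥ ⋖ a) (hlink : ∀ a b : L, ⊥ ⋖ a → ⊥ ⋖ b → Persp a b) :
    ∃ (p : ℕ) (a b : ℕ∞), Params p a b ∧ Nonempty (L ≃o T p a b) := by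
  have hpl : ∀ a b c : L, ⊥ ⋖ a → ⊥ ⋖ b → ⊥ ⋖ c → a ≠ b → c ≤ a ⊔ b := by
    intro a b c ha hb hc hab
    by_cases hcb : c = b
    · rw [hcb]; exact le_sup_right
    rcases hlink a b ha hb with h | ⟨u, hu, hua, hub, hu'⟩
    · exact absurd h hab
    rcases hlink b c hb hc with h | ⟨v, hv, hvb, hvc, hv'⟩
    · exact absurd h.symm hcb
    exact hpf ⊥ a b c u v ha hb hc hu hv hab hu' hua hub hv' hvb hvc
  have hpq := pq_of_atoms hf hSD (hfc ⊥) hpl
  obtain ⟨a, b, hba, ⟨e⟩⟩ := exists_iso hf hpq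
  have hebot : e ⊥ = ⊥ := e.map_bot
  have hcov : ∀ x y : L, x ⋖ y ↔ e x ⋖ e y := fun x y => (apply_covBy_apply_iff e).symm
  refine ⟨_, a, b, ⟨hba, ?_, ?_⟩, ⟨e⟩⟩
  · rintro rfl
    obtain ⟨c, hc⟩ := hne
    rw [hcov, hebot] at hc
    exact hc.ne (T_trivial (e c)).symm
  · constructor
    · intro hp
      by_contra hb
      obtain ⟨x, y, hx, hy, hxy⟩ := T_two_atoms (p := {a : L | ⊥ ⋖ a}.ncard - 2) hb hba
      have hx' : ⊥ ⋖ e.symm x := by rw [hcov, hebot, e.apply_symm_apply]; exact hx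
      have hy' : ⊥ ⋖ e.symm y := by rw [hcov, hebot, e.apply_symm_apply]; exact hy
      have hxy' : e.symm x ≠ e.symm y := fun h => hxy (e.symm.injective h)
      rcases hlink _ _ hx' hy' with h | ⟨c, hc, hcx, hcy, _⟩
      · exact hxy' h
      · have h3 : ({e.symm x, e.symm y, c} : Set L) ⊆ {a : L | ⊥ ⋖ a} := by
          intro z hz
          rcases hz with rfl | rfl | rfl
          · exact hx'
          · exact hy'
          · exact hc
        have h4 := Set.ncard_le_ncard h3 (hfc ⊥)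
        have h5 : ({e.symm x, e.symm y, c} : Set L).ncard = 3 := by
          rw [Set.ncard_eq_three]
          exact ⟨_, _, _, hxy', hcx.symm, hcy.symm, rfl⟩
        omega
    · rintro rfl
      have h3 : {a : L | ⊥ ⋖ a}.ncard ≤ 1 := by
        rw [Set.ncard_le_one (hfc ⊥)]
        intro x hx y hy
        rcases T_chain (e x) (e y) with h | h
        · exact atom_le_atom hx hy (e.le_iff_le.1 h)
        · exact (atom_le_atom hy hx (e.le_iff_le.1 h)).symm
      omega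

/-- the classification -/
theorem exists_prod (hf : Finitary L) (hfc : FiniteCovers L) (hSD : SD L) (hpf : PlaneFree L) :
    ∃ (n : ℕ) (p : Fin n → ℕ) (a b : Fin n → ℕ∞), (∀ i, Params (p i) (a i) (b i)) ∧
      Nonempty (L ≃o ∀ i, T (p i) (a i) (b i)) := by
  obtain ⟨n, A, hA, hdisj, hcover, hne, hlink⟩ := exists_classes (hfc ⊥)
  obtain ⟨E⟩ := decomp hf hSD A hA hdisj hcover
  have h1 : ∀ i, ∃ (p : ℕ) (a b : ℕ∞), Params p a b ∧
      Nonempty (part hf hSD (hA i) ≃o T p a b) := by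
    intro i
    obtain ⟨h1, h2, h3, h4⟩ := sub_props (part_lower (hf := hf) (hSD := hSD) (hA i)) hf hfc hSD
    have h5 : PlaneFree (part hf hSD (hA i)) :=
      hpf.comap (OrderEmbedding.subtype fun z => z ∈ part hf hSD (hA i))
        (range_subtype_ordConnected _ (part_lower (hA i))) (fun _ _ => rfl)
    let _ : OrderBot (part hf hSD (hA i)) :=
      { bot := ⟨⊥, In.bot _⟩
        bot_le := fun x => (bot_le : ⊥ ≤ (x : L)) }
    have hcov : ∀ x y : part hf hSD (hA i), x ⋖ y ↔ (x : L) ⋖ y := fun x y =>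
      ((range_subtype_ordConnected _ (part_lower (hA i))).apply_covBy_apply_iff
      (OrderEmbedding.subtype fun z => z ∈ part hf hSD (hA i))).symm
    refine connected_iso h2 h3 h4 h5 ?_ ?_
    · obtain ⟨a, ha, ha'⟩ := hne i
      refine ⟨⟨a, ?_⟩, (hcov _ _).2 ha'⟩
      intro b hb hba
      rwa [atom_le_atom hb ha' hba]
    · intro a b ha hb
      have ha' : ⊥ ⋖ (a : L) := (hcov _ _).1 ha
      have hb' : ⊥ ⋖ (b : L) := (hcov _ _).1 hb
      rcases hlink i a b (a.2 a ha' le_rfl) (b.2 b hb' le_rfl) with h | ⟨c, hc, hca, hcb, hcle⟩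
      · exact Or.inl (Subtype.ext h)
      · have hcm : c ∈ part hf hSD (hA i) := In.mono (a.2.sup hf hSD (hA i) b.2) hcle
        refine Or.inr ⟨⟨c, hcm⟩, (hcov _ _).2 hc, fun h => hca (congrArg Subtype.val h),
          fun h => hcb (congrArg Subtype.val h), hcle⟩
  choose p a b hP e using h1
  refine ⟨n, p, a, b, hP, ⟨E.symm.trans ?_⟩⟩
  exact
    { toFun := fun x i => (e i).some (x i)
      invFun := fun y i => (e i).some.symm (y i)
      left_inv := fun x => by funext i; exact (e i).some.symm_apply_apply (x i)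
      right_inv := fun y => by funext i; exact (e i).some.apply_symm_apply (y i)
      map_rel_iff' := by
        intro x y
        exact forall_congr' fun i => (e i).some.le_iff_le }

end Pool.Agent.Helper20.SD
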