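import Pool.Agent.Helper20.SD.Finite

/-!
# Finite lattices with the covering conditions are self-dual
-/

namespace Pool.Agent.Helper20.SD

universe u

variable {p : ℕ} {M : Type u} [Lattice M] [IsModularLattice M] [BoundedOrder M] [Finite M]
  {c m c' m' : ℕ}

omit [IsModularLattice M] [BoundedOrder M] [Finite M] in
theorem iso_covBy (e : M ≃o Set.Iic (Tree.base p c m)) {x y : M} (h : x ⋖ y) :
    (e x : Tree p) ⋖ (e y : Tree p) := by
  have h1 : e x ⋖ e y := (apply_covBy_apply_iff e).2 h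
  have h2 : (Set.range (OrderEmbedding.subtype fun z => z ∈ Set.Iic (Tree.base p c m))).OrdConnected := by
    have : Set.range (OrderEmbedding.subtype fun z => z ∈ Set.Iic (Tree.base p c m)) =
        Set.Iic (Tree.base p c m) := Subtype.range_coe
    rw [this]; exact Set.ordConnected_Iic
  exact (h2.apply_covBy_apply_iff _).2 h1

omit [IsModularLattice M] [Finite M] in
theorem iso_bot (e : M ≃o Set.Iic (Tree.base p c m)) : (e ⊥ : Tree p) = ⊥ := by
  rw [e.map_bot]; rfl

omit [IsModularLattice M] [Finite M] in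
theorem iso_top (e : M ≃o Set.Iic (Tree.base p c m)) : (e ⊤ : Tree p) = Tree.base p c m := by
  rw [e.map_top]; rfl

omit [IsModularLattice M] in
theorem ht_add_ht (e : M ≃o Set.Iic (Tree.base p c m)) (e' : Mᵒᵈ ≃o Set.Iic (Tree.base p c' m'))
    (x : M) : (e x : Tree p).ht + (e' (OrderDual.toDual x) : Tree p).ht = c' + 2 * m' := by
  induction x using WellFoundedLT.induction with
  | _ x ih =>
    rcases eq_or_ne x ⊥ with rfl | hx
    · rw [iso_bot e]
      have : (OrderDual.toDual (⊥ : M)) = (⊤ : Mᵒᵈ) := rfl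
      rw [this, iso_top e']
      simp [Tree.ht, Tree.base]
    · obtain ⟨z, _, hz⟩ := exists_le_covBy_of_lt (bot_lt_iff_ne_bot.2 hx)
      have h1 := ih z hz.lt
      have h2 := (Tree.covBy_iff.1 (iso_covBy e hz)).2
      have h3 := (Tree.covBy_iff.1 (iso_covBy e' hz.toDual)).2
      omega

omit [IsModularLattice M] [BoundedOrder M] [Finite M] in
theorem ht_sup (e : M ≃o Set.Iic (Tree.base p c m)) (x y : M) :
    (e (x ⊓ y) : Tree p).ht + (e (x ⊔ y) : Tree p).ht = (e x : Tree p).ht + (e y : Tree p).ht := by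
  have h1 : (e (x ⊓ y) : Tree p) = (e x : Tree p) ⊓ (e y : Tree p) := by rw [e.map_inf]; rfl
  have h2 : (e (x ⊔ y) : Tree p) = (e x : Tree p) ⊔ (e y : Tree p) := by rw [e.map_sup]; rfl
  rw [h1, h2]
  exact Tree.ht_inf_add_ht_sup _ _

omit [IsModularLattice M] [BoundedOrder M] [Finite M] in
theorem iso_lev (e : M ≃o Set.Iic (Tree.base p c m)) (x : M) :
    (e x : Tree p).lev = 0 ↔ ∀ u v : M, u ≤ x → v ≤ x → u ≤ v ∨ v ≤ u := by
  rw [Tree.lev_eq_zero_iff]
  constructor
  · intro h u v hu hv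
    have := h (e u) (e v) (e.le_iff_le.2 hu) (e.le_iff_le.2 hv)
    rcases this with h1 | h1
    · left; exact e.le_iff_le.1 h1
    · right; exact e.le_iff_le.1 h1
  · intro h u v hu hv
    have hu' : u ≤ Tree.base p c m := hu.trans (e x).2
    have hv' : v ≤ Tree.base p c m := hv.trans (e x).2
    have := h (e.symm ⟨u, hu'⟩) (e.symm ⟨v, hv'⟩) (e.symm_apply_le.2 hu) (e.symm_apply_le.2 hv)
    rcases this with h1 | h1
    · left; exact e.symm.le_iff_le.1 h1
    · right; exact e.symm.le_iff_le.1 h1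

theorem le_of_isos (h : PQ p M) (e : M ≃o Set.Iic (Tree.base p c m))
    (e' : Mᵒᵈ ≃o Set.Iic (Tree.base p c' m')) : c + m ≤ c' + m' := by
  -- a cycle of length `c + m`
  have hb : Tree.base p (c + m) 0 ≤ Tree.base p c m := by rw [Tree.base_le_base]; omega
  set z : M := e.symm ⟨_, hb⟩ with hz
  have hez : (e z : Tree p) = Tree.base p (c + m) 0 := by rw [hz, e.apply_symm_apply]
  have hzc : ∀ u v : M, u ≤ z → v ≤ z → u ≤ v ∨ v ≤ u := by
    rw [← iso_lev e z, hez]; rfl
  obtain ⟨d, hd⟩ := (Set.toFinite {d : M | z ⊓ d = ⊥}).exists_maximal ⟨⊥, inf_bot_eq _⟩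
  have hd1 : z ⊓ d = ⊥ := hd.1
  have hd2 : ∀ u : M, d < u → ∃ a, ⊥ ⋖ a ∧ a ≤ z ∧ a ≤ u := by
    intro u hu
    have h1 : z ⊓ u ≠ ⊥ := by
      intro h2
      exact hu.not_ge (hd.2 (show u ∈ {d : M | z ⊓ d = ⊥} from h2) hu.le)
    obtain ⟨a, ha, ha'⟩ := exists_covBy_le_of_lt (bot_lt_iff_ne_bot.2 h1)
    exact ⟨a, ha, ha'.trans inf_le_left, ha'.trans inf_le_right⟩
  have hch : ∀ u v : M, d ≤ u → d ≤ v → u ≤ v ∨ v ≤ u := by
    intro u v hu hv
    refine h.up_chain d ⊤ ?_ u v hu le_top hv le_top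
    intro x y hx _ hy _
    by_contra hxy
    obtain ⟨a, ha, haz, hax⟩ := hd2 x hx.lt
    obtain ⟨b, hb, hbz, hby⟩ := hd2 y hy.lt
    have hab : a = b := by
      rcases hzc a b haz hbz with h1 | h1
      · rcases hb.eq_or_eq bot_le h1 with h2 | h2
        · exact absurd h2 ha.ne'
        · exact h2
      · rcases ha.eq_or_eq bot_le h1 with h2 | h2
        · exact absurd h2 hb.ne'
        · exact h2.symm
    subst hab
    have h1 : x ⊓ y = d := WCovBy.inf_eq hx.wcovBy hy.wcovBy hxy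
    have h2 : a ≤ z ⊓ d := le_inf haz (h1 ▸ le_inf hax hby)
    rw [hd1] at h2
    exact ha.ne' (le_bot_iff.1 h2)
  have h1 := ht_add_ht e e' d
  have h2 := ht_add_ht e e' (z ⊔ d)
  have h3 := ht_sup e z d
  rw [hd1, iso_bot e, hez] at h3
  have h4 : (e' (OrderDual.toDual d) : Tree p).lev = 0 := by
    rw [iso_lev e']
    intro u v hu hv
    exact (hch _ _ hv hu)
  have h5 : (e' (OrderDual.toDual d) : Tree p) ≤ Tree.base p c' m' := (e' _).2
  rw [Tree.le_def] at h5
  have h6 := lcp_le_right (e' (OrderDual.toDual d) : Tree p).word (Tree.base p c' m').word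
  simp only [Tree.base, List.length_replicate, Tree.ht, Tree.bot_word, Tree.bot_lev,
    List.length_nil] at h1 h2 h3 h5 h6
  omega

/-- a finite modular lattice with the covering conditions is self-dual -/
theorem PQ.selfDual (h : PQ p M) : Nonempty (M ≃o Mᵒᵈ) := by
  obtain ⟨c, m, ⟨e⟩⟩ := exists_iso_of_finite h
  obtain ⟨c', m', ⟨e'⟩⟩ := exists_iso_of_finite (M := Mᵒᵈ) h.dual
  have h1 := le_of_isos h e e'
  have h2 := le_of_isos (M := Mᵒᵈ) h.dual e' ((OrderIso.dualDual M).symm.trans e)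
  have h3 := ht_add_ht e e' ⊤
  have h4 : (OrderDual.toDual (⊤ : M)) = (⊥ : Mᵒᵈ) := rfl
  rw [iso_top e, h4, iso_bot e'] at h3
  simp only [Tree.ht, Tree.base, List.length_replicate, Tree.bot_word, Tree.bot_lev,
    List.length_nil] at h3
  have h5 : c = c' := by omega
  have h6 : m = m' := by omega
  subst h5 h6
  exact ⟨e.trans e'.symm⟩

end Pool.Agent.Helper20.SD
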