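import Pool.Agent.Helper20.SD.TDef
import Pool.Agent.Helper20.SD.SelfDual

/-!
# Finitary lattices with the covering conditions
-/

namespace Pool.Agent.Helper20.SD

universe u

/-- finitary: principal ideals are finite -/
def Finitary (L : Type*) [Lattice L] : Prop := ∀ x : L, (Set.Iic x).Finite

theorem Finitary.wf {L : Type*} [Lattice L] (hf : Finitary L) : WellFoundedLT L := by
  have h : StrictMono fun x : L => (Set.Iic x).ncard := by
    intro x y hxy
    exact Set.ncard_lt_ncard (Set.Iic_ssubset_Iic.2 hxy) (hf y)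
  exact h.wellFoundedLT

theorem Finitary.exists_le_covBy {L : Type*} [Lattice L] (hf : Finitary L) {x y : L}
    (h : x < y) : ∃ z, x ≤ z ∧ z ⋖ y := by
  have h1 : (Set.Ico x y).Finite := (hf y).subset fun z hz => hz.2.le
  obtain ⟨z, hz⟩ := h1.exists_maximal ⟨x, le_rfl, h⟩
  refine ⟨z, hz.1.1, hz.1.2, ?_⟩
  intro w hw hw'
  exact hw.not_ge (hz.2 ⟨hz.1.1.trans hw.le, hw'⟩ hw.le)

theorem Finitary.exists_covBy_le {L : Type*} [Lattice L] (hf : Finitary L) {x y : L}
    (h : x < y) : ∃ z, x ⋖ z ∧ z ≤ y := by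
  have h1 : (Set.Ioc x y).Finite := (hf y).subset fun z hz => hz.2
  obtain ⟨z, hz⟩ := h1.exists_minimal ⟨y, h, le_rfl⟩
  refine ⟨z, ⟨hz.1.1, ?_⟩, hz.1.2⟩
  intro w hw hw'
  exact hw'.not_ge (hz.2 ⟨hw, hw'.le.trans hz.1.2⟩ hw'.le)

theorem PQ.finite_covers {p : ℕ} {L : Type*} [Lattice L] (h : PQ p L) (x : L) :
    {w | x ⋖ w}.Finite := by
  by_cases h1 : ∃ y z : L, x ⋖ y ∧ x ⋖ z ∧ y ≠ z
  · obtain ⟨y, z, hy, hz, hyz⟩ := h1
    apply Set.finite_of_ncard_pos
    rw [h.up_card x y z hy hz hyz]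
    omega
  · push Not at h1
    apply Set.Subsingleton.finite
    intro y hy z hz
    exact h1 y z hy hz

namespace Tree

variable {p : ℕ}

theorem exists_ht {t : Tree p} {j : ℕ} (hj : j ≤ t.ht) : ∃ x ≤ t, x.ht = j := by
  induction j with
  | zero => exact ⟨⊥, bot_le, rfl⟩
  | succ j ih =>
    obtain ⟨x, hx, hxj⟩ := ih (by omega)
    have h1 : x < t := lt_of_le_of_ne hx (fun e => by rw [e] at hxj; omega)
    obtain ⟨z, _, hz, hz'⟩ := exists_step h1
    exact ⟨z, hz, by omega⟩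

theorem ht_lt_ncard (t : Tree p) : t.ht + 1 ≤ (Set.Iic t).ncard := by
  have h1 : ((Finset.range (t.ht + 1) : Finset ℕ) : Set ℕ) ⊆ Tree.ht '' Set.Iic t := by
    intro j hj
    rw [Finset.mem_coe, Finset.mem_range] at hj
    obtain ⟨x, hx, hxj⟩ := exists_ht (t := t) (j := j) (by omega)
    exact ⟨x, hx, hxj⟩
  have h2 := Set.ncard_le_ncard h1 ((finite_Iic t).image _)
  rw [Set.ncard_coe_finset, Finset.card_range] at h2
  exact h2.trans (Set.ncard_image_le (finite_Iic t))

theorem base_of_isLeast {c m c₀ m₀ : ℕ} {z : Tree p} (hx : base p c₀ m₀ ≤ base p c m)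
    (hz : z ≤ base p c m) (h1 : base p c₀ m₀ ≤ z)
    (h2 : ∀ w ≤ base p c m, base p c₀ m₀ ⋖ w → w ≤ z)
    (h3 : ∀ z', z' ≤ base p c m → base p c₀ m₀ ≤ z' →
      (∀ w ≤ base p c m, base p c₀ m₀ ⋖ w → w ≤ z') → z ≤ z') :
    ∃ c' m', z = base p c' m' := by
  by_cases ha : (base p c₀ m₀).above ≤ base p c m
  · refine ⟨c₀, m₀ + 1, ?_⟩
    have h4 : z ≤ (base p c₀ m₀).above := by
      refine h3 _ ha ?_ fun w _ hw => le_above_of_covBy hw
      rw [le_def]
      simp only [above, lcp_self]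
      omega
    obtain ⟨y, y', hy, hy', hyy⟩ := exists_two_up (base p c₀ m₀)
    have h5 : (base p c₀ m₀).above ≤ z := by
      rw [← covBy_sup_eq hy hy' hyy]
      exact sup_le (h2 _ ((le_above_of_covBy hy).trans ha) hy)
        (h2 _ ((le_above_of_covBy hy').trans ha) hy')
    exact le_antisymm h4 h5
  · rcases hx.eq_or_lt with h4 | h4
    · exact ⟨c, m, le_antisymm hz (h4 ▸ h1)⟩
    · obtain ⟨w, hw1, hw2, hw3⟩ := exists_step h4
      have hw : base p c₀ m₀ ⋖ w := covBy_iff.2 ⟨hw1, hw3⟩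
      have heq : (base p c₀ m₀).word.length + (base p c₀ m₀).lev =
          (base p c m).lev + lcp (base p c₀ m₀).word (base p c m).word := by
        rw [le_def] at hx ha
        simp only [above] at ha
        omega
      have huniq : ∀ w' ≤ base p c m, base p c₀ m₀ ⋖ w' → w' = w := by
        intro w' hw' hw''
        have h5 := chain_of_eq heq hw''.le hw' hw.le hw2
        have h6 : w'.ht = w.ht := by rw [(covBy_iff.1 hw'').2, hw3]
        rcases h5 with h5 | h5
        · exact eq_of_ht h5 h6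
        · exact (eq_of_ht h5 h6.symm).symm
      have hzw : z = w := by
        apply le_antisymm
        · exact h3 w hw2 hw1 fun w' hw' hw'' => (huniq w' hw' hw'').le
        · exact h2 w hw2 hw
      rw [hzw]
      rcases covBy_cases hw with ⟨a, e1, e2⟩ | ⟨_, e1, e2⟩
      · refine ⟨c₀ + 1, m₀, ?_⟩
        simp only [base, List.length_replicate, lcp_zeros] at heq
        rw [le_def] at hw2
        simp only [base] at e1 e2 hw2
        rw [e1] at hw2
        simp only [List.length_append, List.length_replicate, List.length_singleton] at hw2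
        have h7 := lcp_append_singleton (List.replicate c₀ 0) (List.replicate c 0) a
        simp only [lcp_zeros, List.length_replicate] at h7
        have h8 : lcp (List.replicate c₀ 0 ++ [a]) (List.replicate c 0) =
            (List.replicate c₀ 0 ++ [a]).length := by
          simp only [List.length_append, List.length_replicate, List.length_singleton]
          omega
        have h9 := eq_take_of_lcp h8
        have h10 := lcp_le_right (List.replicate c₀ 0 ++ [a]) (List.replicate c 0)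
        rw [h8] at h10
        simp only [List.length_append, List.length_replicate, List.length_singleton] at h9 h10
        ext1
        · rw [e1, h9, List.take_replicate, Nat.min_eq_left h10]
          rfl
        · exact e2
      · refine ⟨c₀ - 1, m₀ + 1, ?_⟩
        ext1
        · rw [e1]
          simp only [base, List.length_replicate, List.take_replicate]
          congr 1
          omega
        · exact e2

end Tree

section

variable {p : ℕ} {L : Type u} [Lattice L] [IsModularLattice L] [OrderBot L]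

/-- local coordinates -/
theorem local_coords (hf : Finitary L) (h : PQ p L) (y : L) :
    ∃ (c m : ℕ) (g : L → Tree p), (∀ x x', x ≤ y → x' ≤ y → (x ≤ x' ↔ g x ≤ g x')) ∧
      (∀ x ≤ y, g x ≤ Tree.base p c m) ∧ ∀ t ≤ Tree.base p c m, ∃ x ≤ y, g x = t := by
  classical
  have : Finite (Set.Iic y) := (hf y).to_subtype
  obtain ⟨c, m, ⟨e⟩⟩ := exists_iso_of_finite (h.iic y)
  refine ⟨c, m, fun x => if hx : x ≤ y then (e ⟨x, hx⟩ : Tree p) else ⊥, ?_, ?_, ?_⟩
  · intro x x' hx hx'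
    simp only [dif_pos hx, dif_pos hx']
    exact (e.le_iff_le (x := ⟨x, hx⟩) (y := ⟨x', hx'⟩)).symm
  · intro x hx
    simp only [dif_pos hx]
    exact (e ⟨x, hx⟩).2
  · intro t ht
    refine ⟨e.symm ⟨t, ht⟩, (e.symm ⟨t, ht⟩).2, ?_⟩
    have h1 : ((e.symm ⟨t, ht⟩ : Set.Iic y) : L) ≤ y := (e.symm ⟨t, ht⟩).2
    simp only [dif_pos h1]
    have : (⟨(e.symm ⟨t, ht⟩ : L), h1⟩ : Set.Iic y) = e.symm ⟨t, ht⟩ := rfl
    rw [this, e.apply_symm_apply]

omit [IsModularLattice L] in
/-- the join of the covers -/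
theorem exists_sig (h : PQ p L) : ∃ σ : L → L, (∀ x, x ≤ σ x) ∧ (∀ x w, x ⋖ w → w ≤ σ x) ∧
    ∀ x y, x ≤ y → (∀ w, x ⋖ w → w ≤ y) → σ x ≤ y := by
  classical
  refine ⟨fun x => x ⊔ (h.finite_covers x).toFinset.sup id, fun x => le_sup_left, ?_, ?_⟩
  · intro x w hw
    refine le_trans ?_ le_sup_right
    exact Finset.le_sup (f := id) (by simpa using hw)
  · intro x y hxy hw
    refine sup_le hxy (Finset.sup_le ?_)
    intro w hw'
    exact hw w (by simpa using hw')

theorem exists_iso (hf : Finitary L) (h : PQ p L) :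
    ∃ a b : ℕ∞, b ≤ a ∧ Nonempty (L ≃o T p a b) := by
  classical
  have := hf.wf
  obtain ⟨σ, σ1, σ2, σ3⟩ := exists_sig h
  let u : ℕ → L := fun n => Nat.rec ⊥ (fun _ x => σ x) n
  have u0 : u 0 = ⊥ := rfl
  have us : ∀ n, u (n + 1) = σ (u n) := fun n => rfl
  have umono : Monotone u := monotone_nat_of_le_succ fun n => by rw [us]; exact σ1 _
  have ucof : ∀ x : L, ∃ n, x ≤ u n := by
    intro x
    induction x using WellFoundedLT.induction with
    | _ x ih =>
      rcases eq_or_ne x ⊥ with rfl | hx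
      · exact ⟨0, bot_le⟩
      · obtain ⟨z, _, hz⟩ := hf.exists_le_covBy (bot_lt_iff_ne_bot.2 hx)
        obtain ⟨n, hn⟩ := ih z hz.lt
        refine ⟨n + 1, ?_⟩
        rcases Classical.em (x ≤ u n) with h1 | h1
        · exact h1.trans (umono (Nat.le_succ n))
        · have h2 : x ⊓ u n = z := by
            rcases hz.eq_or_eq (le_inf hz.le hn) inf_le_left with h3 | h3
            · exact h3
            · exact absurd (inf_eq_left.1 h3) h1
          have h3 : u n ⋖ x ⊔ u n := covBy_sup_of_inf_covBy_left (h2.symm ▸ hz)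
          rw [us]
          exact le_sup_left.trans (σ2 _ _ h3)
  choose c m g g1 g2 g3 using fun n => local_coords hf h (u n)
  -- strictness and covers
  have glt : ∀ n x x', x ≤ u n → x' ≤ u n → (x < x' ↔ g n x < g n x') := by
    intro n x x' hx hx'
    rw [lt_iff_le_not_ge, lt_iff_le_not_ge, g1 n x x' hx hx', g1 n x' x hx' hx]
  have gcov : ∀ n x x', x ≤ u n → x' ≤ u n → (x ⋖ x' ↔ g n x ⋖ g n x') := by
    intro n x x' hx hx'
    constructor
    · intro h1
      refine ⟨(glt n x x' hx hx').1 h1.lt, ?_⟩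
      intro t ht ht'
      obtain ⟨y, hy, rfl⟩ := g3 n t (ht'.le.trans (g2 n x' hx'))
      exact h1.2 ((glt n x y hx hy).2 ht) ((glt n y x' hy hx').2 ht')
    · intro h1
      refine ⟨(glt n x x' hx hx').2 h1.lt, ?_⟩
      intro y hy hy'
      exact h1.2 ((glt n x y hx (hy'.le.trans hx')).1 hy)
        ((glt n y x' (hy'.le.trans hx') hx').1 hy')
  -- base form
  have gbase : ∀ n j, j ≤ n → ∃ c' m', g n (u j) = Tree.base p c' m' := by
    intro n j
    induction j with
    | zero =>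
      intro _
      refine ⟨0, 0, ?_⟩
      obtain ⟨x, hx, hx'⟩ := g3 n ⊥ bot_le
      have h1 : g n ⊥ ≤ g n x := (g1 n ⊥ x bot_le hx).1 bot_le
      rw [hx'] at h1
      exact le_bot_iff.1 h1
    | succ j ih =>
      intro hj
      obtain ⟨c', m', hcm⟩ := ih (by omega)
      have hle : u j ≤ u n := umono (by omega)
      have hle' : u (j + 1) ≤ u n := umono hj
      refine Tree.base_of_isLeast (c := c n) (m := m n) (c₀ := c') (m₀ := m') ?_ ?_ ?_ ?_ ?_
      · rw [← hcm]; exact g2 n _ hle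
      · exact g2 n _ hle'
      · rw [← hcm, ← g1 n _ _ hle hle']
        exact umono (Nat.le_succ j)
      · intro w hw hw'
        obtain ⟨x, hx, rfl⟩ := g3 n w hw
        rw [← hcm, ← gcov n _ _ hle hx] at hw'
        rw [← g1 n _ _ hx hle', us]
        exact σ2 _ _ hw'
      · intro z hz hz' hz''
        obtain ⟨x, hx, rfl⟩ := g3 n z hz
        rw [← g1 n _ _ hle' hx, us]
        apply σ3
        · rw [← hcm, ← g1 n _ _ hle hx] at hz'
          exact hz'
        · intro w hw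
          have hw' : w ≤ u n := (σ2 _ _ hw).trans hle'
          rw [g1 n _ _ hw' hx]
          apply hz'' _ (g2 n w hw')
          rw [← hcm, ← gcov n _ _ hle hw']
          exact hw
  -- bounded heights
  have ght : ∀ n x, x ≤ u n → (g n x).ht + 1 ≤ (Set.Iic x).ncard := by
    intro n x hx
    refine (Tree.ht_lt_ncard (g n x)).trans ?_
    have h1 : Set.Iic (g n x) ⊆ g n '' Set.Iic x := by
      intro t ht
      obtain ⟨y, hy, rfl⟩ := g3 n t (le_trans ht (g2 n x hx))
      exact ⟨y, (g1 n y x hy hx).2 ht, rfl⟩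
    exact (Set.ncard_le_ncard h1 ((hf x).image _)).trans (Set.ncard_image_le (hf x))
  let 𝒰 : Ultrafilter ℕ := Filter.hyperfilter ℕ
  have hev : ∀ x : L, ∀ᶠ n in (𝒰 : Filter ℕ), x ≤ u n := by
    intro x
    obtain ⟨n₀, hn₀⟩ := ucof x
    have h1 : ∀ᶠ n in Filter.atTop, x ≤ u n :=
      Filter.eventually_atTop.2 ⟨n₀, fun n hn => hn₀.trans (umono hn)⟩
    exact Nat.hyperfilter_le_atTop h1
  have hΦ : ∀ x : L, ∃ t : Tree p, ∀ᶠ n in (𝒰 : Filter ℕ), g n x = t := by
    intro x
    have hfin : (Set.Iic (⟨[], Ok.nil p, (Set.Iic x).ncard⟩ : Tree p)).Finite :=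
      Tree.finite_Iic _
    have h1 : ∀ᶠ n in (𝒰 : Filter ℕ), ∃ t ∈ Set.Iic (⟨[], Ok.nil p, (Set.Iic x).ncard⟩ : Tree p),
        g n x = t := by
      filter_upwards [hev x] with n hn
      refine ⟨g n x, ?_, rfl⟩
      have h2 := ght n x hn
      rw [Set.mem_Iic, Tree.le_def]
      simp only [Tree.ht] at h2
      simp only [lcp_nil_right]
      omega
    obtain ⟨t, _, ht⟩ := (Ultrafilter.eventually_exists_mem_iff hfin).1 h1
    exact ⟨t, ht⟩
  choose Φ hΦ using hΦ
  have hord : ∀ x y, Φ x ≤ Φ y ↔ x ≤ y := by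
    intro x y
    obtain ⟨n, ⟨⟨hx, hy⟩, hx'⟩, hy'⟩ := ((((hev x).and (hev y)).and (hΦ x)).and (hΦ y)).exists
    rw [← hx', ← hy']
    exact (g1 n x y hx hy).symm
  have hbase : ∀ j, ∃ c' m', Φ (u j) = Tree.base p c' m' := by
    intro j
    have h1 : ∀ᶠ n in (𝒰 : Filter ℕ), j ≤ n :=
      Nat.hyperfilter_le_atTop (Filter.eventually_ge_atTop j)
    obtain ⟨n, hn, hn'⟩ := (h1.and (hΦ (u j))).exists
    rw [← hn']
    exact gbase n j hn
  have hrange : ∀ x t, t ≤ Φ x → ∃ y ≤ x, Φ y = t := by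
    intro x t ht
    have h1 : ∀ᶠ n in (𝒰 : Filter ℕ), ∃ y ∈ Set.Iic x, g n y = t := by
      filter_upwards [hev x, hΦ x] with n hn hn'
      rw [← hn'] at ht
      obtain ⟨y, hy, rfl⟩ := g3 n t (ht.trans (g2 n x hn))
      exact ⟨y, (g1 n y x hy hn).2 ht, rfl⟩
    obtain ⟨y, hy, hy'⟩ := (Ultrafilter.eventually_exists_mem_iff (hf x)).1 h1
    refine ⟨y, hy, ?_⟩
    obtain ⟨n, hn, hn'⟩ := (hy'.and (hΦ y)).exists
    rw [← hn', hn]
  choose c' m' hcm using hbase
  have hmono : ∀ i j, i ≤ j → m' i ≤ m' j ∧ c' i + m' i ≤ c' j + m' j := by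
    intro i j hij
    have h1 := (hord (u i) (u j)).2 (umono hij)
    rw [hcm, hcm] at h1
    have h2 := Tree.lev_le h1
    rw [Tree.base_le_base] at h1
    simp only [Tree.base] at h2
    omega
  have hsup : ∀ (f : ℕ → ℕ) (k : ℕ), (k : ℕ∞) ≤ ⨆ j, ((f j : ℕ) : ℕ∞) → ∃ j, k ≤ f j := by
    intro f k hk
    by_contra hcon
    push Not at hcon
    have h0 := hcon 0
    have h1 : (⨆ j, ((f j : ℕ) : ℕ∞)) ≤ ((k - 1 : ℕ) : ℕ∞) := by
      apply iSup_le
      intro j
      have := hcon j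
      exact_mod_cast (by omega : f j ≤ k - 1)
    have h2 : ((k : ℕ) : ℕ∞) ≤ ((k - 1 : ℕ) : ℕ∞) := hk.trans h1
    have h3 : k ≤ k - 1 := by exact_mod_cast h2
    omega
  refine ⟨⨆ j, ((c' j + m' j : ℕ) : ℕ∞), ⨆ j, ((m' j : ℕ) : ℕ∞), ?_, ?_⟩
  · apply iSup_le
    intro j
    refine le_trans ?_ (le_iSup (fun j => ((c' j + m' j : ℕ) : ℕ∞)) j)
    exact_mod_cast (by omega : m' j ≤ c' j + m' j)
  have hmem : ∀ x, Φ x ∈ T p (⨆ j, ((c' j + m' j : ℕ) : ℕ∞)) (⨆ j, ((m' j : ℕ) : ℕ∞)) := by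
    intro x
    obtain ⟨j, hj⟩ := ucof x
    refine ⟨m' j, c' j + m' j, by omega, le_iSup (fun j => ((m' j : ℕ) : ℕ∞)) j,
      le_iSup (fun j => ((c' j + m' j : ℕ) : ℕ∞)) j, ?_⟩
    rw [Nat.add_sub_cancel, ← hcm]
    exact (hord _ _).2 hj
  refine ⟨RelIso.ofSurjective (OrderEmbedding.ofMapLEIff
    (fun x => (⟨Φ x, hmem x⟩ : T p (⨆ j, ((c' j + m' j : ℕ) : ℕ∞)) (⨆ j, ((m' j : ℕ) : ℕ∞)))) ?_)
    ?_⟩
  · intro x y
    exact hord x y
  · rintro ⟨t, k, n, h1, h2, h3, h4⟩
    obtain ⟨i, hi⟩ := hsup m' k h2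
    obtain ⟨j, hj⟩ := hsup (fun j => c' j + m' j) n h3
    have h5 : t ≤ Φ (u (max i j)) := by
      refine h4.trans ?_
      rw [hcm, Tree.base_le_base]
      have h6 := hmono i (max i j) (le_max_left _ _)
      have h7 := hmono j (max i j) (le_max_right _ _)
      omega
    obtain ⟨y, _, hy⟩ := hrange _ t h5
    exact ⟨y, Subtype.ext hy⟩

end

end Pool.Agent.Helper20.SD
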