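import Pool.Agent.Helper20.SD.Basic
import Pool.Agent.Helper20.SD.Infinite

/-!
# Perspective atoms and the separation lemma
-/

namespace Pool.Agent.Helper20.SD

variable {L : Type*} [Lattice L] [OrderBot L]

/-- two atoms are linked: they are equal or there is a third atom below their join -/
def Persp (a b : L) : Prop := a = b ∨ ∃ c, ⊥ ⋖ c ∧ c ≠ a ∧ c ≠ b ∧ c ≤ a ⊔ b

theorem Persp.symm {a b : L} (h : Persp a b) : Persp b a := by
  rcases h with h | ⟨c, h1, h2, h3, h4⟩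
  · exact Or.inl h.symm
  · exact Or.inr ⟨c, h1, h3, h2, by rwa [sup_comm]⟩

/-- a set of atoms closed under links -/
def Sat (A : Set L) : Prop := ∀ a b : L, ⊥ ⋖ a → ⊥ ⋖ b → a ∈ A → Persp a b → b ∈ A

theorem Sat.compl {A : Set L} (h : Sat A) : Sat Aᶜ := fun a b ha hb haA hab hbA =>
  haA (h b a hb ha hbA hab.symm)

/-- all atoms below `x` are in `A` -/
def In (A : Set L) (x : L) : Prop := ∀ a : L, ⊥ ⋖ a → a ≤ x → a ∈ A

theorem In.mono {A : Set L} {x y : L} (h : In A y) (hxy : x ≤ y) : In A x :=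
  fun a ha hax => h a ha (hax.trans hxy)

theorem In.bot (A : Set L) : In A (⊥ : L) := fun _ ha hab => absurd (le_bot_iff.1 hab) ha.ne'

theorem exists_atom (hf : Finitary L) {x : L} (hx : x ≠ ⊥) : ∃ a, ⊥ ⋖ a ∧ a ≤ x :=
  hf.exists_covBy_le (bot_lt_iff_ne_bot.2 hx)

theorem In.disj (hf : Finitary L) {A : Set L} {x y : L} (hx : In A x) (hy : In Aᶜ y) :
    x ⊓ y = ⊥ := by
  by_contra h
  obtain ⟨a, ha, hax⟩ := exists_atom hf h
  exact hy a ha (hax.trans inf_le_right) (hx a ha (hax.trans inf_le_left))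

theorem atom_le_atom {a b : L} (ha : ⊥ ⋖ a) (hb : ⊥ ⋖ b) (h : a ≤ b) : a = b := by
  rcases hb.eq_or_eq bot_le h with h1 | h1
  · exact absurd h1 ha.ne'
  · exact h1

theorem atom_inf {a x : L} (ha : ⊥ ⋖ a) (h : ¬ a ≤ x) : a ⊓ x = ⊥ := by
  rcases ha.eq_or_eq bot_le inf_le_left with h1 | h1
  · exact h1
  · exact absurd (inf_eq_left.1 h1) h

/-- minimal elements below `x` and not below `z` are join-irreducible -/
theorem exists_irred (hf : Finitary L) {x z : L} (h : ¬ x ≤ z) :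
    ∃ j ≤ x, ¬ j ≤ z ∧ (∀ k < j, k ≤ z) ∧ JoinIrredAbove ⊥ j := by
  have h1 : {j | j ≤ x ∧ ¬ j ≤ z}.Finite := (hf x).subset fun j hj => hj.1
  obtain ⟨j, hj⟩ := h1.exists_minimal ⟨x, le_rfl, h⟩
  have h2 : ∀ k < j, k ≤ z := by
    intro k hk
    by_contra hcon
    exact hk.not_ge (hj.2 ⟨hk.le.trans hj.1.1, hcon⟩ hk.le)
  refine ⟨j, hj.1.1, hj.1.2, h2, ?_, ?_⟩
  · rw [bot_lt_iff_ne_bot]
    rintro rfl
    exact hj.1.2 bot_le
  · intro u v _ _ huv
    by_contra hcon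
    push Not at hcon
    have hu : u < j := lt_of_le_of_ne (huv ▸ le_sup_left) hcon.1
    have hv : v < j := lt_of_le_of_ne (huv ▸ le_sup_right) hcon.2
    exact hj.1.2 (huv ▸ sup_le (h2 u hu) (h2 v hv))

theorem irred_chain (hf : Finitary L) (hSD : SD L) {j : L} (hj : JoinIrredAbove ⊥ j) :
    ∀ u v : L, u ≤ j → v ≤ j → u ≤ v ∨ v ≤ u := by
  have h := ((semi_primary L (fun x y => (hf y).subset fun z hz => hz.2) hSD ⊥ j).1.1 hj).2
  intro u v hu hv
  exact h u v ⟨bot_le, hu⟩ ⟨bot_le, hv⟩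

section modular

variable [IsModularLattice L]

/-- an atom below `x ⊔ y` and not below `y` projects to an atom below `x` -/
theorem proj_atom {p x y : L} (hp : ⊥ ⋖ p) (hxy : x ⊓ y = ⊥) (hpxy : p ≤ x ⊔ y) (hpy : ¬ p ≤ y) :
    ⊥ ⋖ x ⊓ (y ⊔ p) ∧ y ⊔ x ⊓ (y ⊔ p) = y ⊔ p := by
  have h1 : y ⋖ y ⊔ p := by
    rw [sup_comm]
    apply covBy_sup_of_inf_covBy_left
    rwa [atom_inf hp hpy]
  have h2 : y ⊔ x ⊓ (y ⊔ p) = y ⊔ p := by
    rw [← sup_inf_assoc_of_le x (le_sup_left : y ≤ y ⊔ p), inf_eq_right]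
    exact sup_le le_sup_left (hpxy.trans (sup_comm x y).le)
  refine ⟨?_, h2⟩
  have h3 : y ⊓ (x ⊓ (y ⊔ p)) = ⊥ := by
    rw [← le_bot_iff, ← hxy]
    exact le_inf (inf_le_right.trans inf_le_left) inf_le_left
  rw [← h3]
  apply inf_covBy_of_covBy_sup_left
  rwa [h2]

/-- an atom below the join of two disjoint elements links an atom of each -/
theorem link_of_le_sup {p x y : L} (hp : ⊥ ⋖ p) (hxy : x ⊓ y = ⊥) (hpxy : p ≤ x ⊔ y)
    (hpx : ¬ p ≤ x) (hpy : ¬ p ≤ y) :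
    ∃ a b, ⊥ ⋖ a ∧ ⊥ ⋖ b ∧ a ≤ x ∧ b ≤ y ∧ Persp a b := by
  obtain ⟨h1, h2⟩ := proj_atom hp hxy hpxy hpy
  set a := x ⊓ (y ⊔ p) with ha
  have hax : a ≤ x := inf_le_left
  have hay : y ⊓ a = ⊥ := by
    rw [← le_bot_iff, ← hxy]
    exact le_inf (inf_le_right.trans inf_le_left) inf_le_left
  have hpa : ¬ p ≤ a := fun h => hpx (h.trans hax)
  obtain ⟨h3, h4⟩ := proj_atom hp hay (h2 ▸ le_sup_right) hpa
  refine ⟨a, y ⊓ (a ⊔ p), h1, h3, hax, inf_le_left, Or.inr ⟨p, hp, ?_, ?_, ?_⟩⟩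
  · intro h; exact hpa h.le
  · intro h; exact hpy (h.le.trans inf_le_left)
  · rw [h4]; exact le_sup_right

omit [IsModularLattice L] in
theorem coatom_map (hSD : SD L) (t : L) : ∃ f : L → L, (∀ w, w ⋖ t → ⊥ ⋖ f w ∧ f w ≤ t) ∧
    ∀ w w', w ⋖ t → w' ⋖ t → f w = f w' → w = w' := by
  classical
  obtain ⟨e⟩ := hSD ⊥ t bot_le
  have he : ∀ a b : Set.Icc ⊥ t, OrderDual.ofDual (e a) ≤ OrderDual.ofDual (e b) ↔ b ≤ a := by
    intro a b
    exact e.le_iff_le (x := b) (y := a)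
  have hbot : ∀ a : Set.Icc ⊥ t, ((OrderDual.ofDual (e a) : Set.Icc ⊥ t) : L) = ⊥ → (a : L) = t := by
    intro a ha
    have h1 : OrderDual.ofDual (e a) ≤ OrderDual.ofDual (e ⟨t, bot_le, le_rfl⟩) := by
      rw [← Subtype.coe_le_coe, ha]; exact bot_le
    rw [he] at h1
    exact le_antisymm a.2.2 h1
  have htop : ((OrderDual.ofDual (e ⟨t, bot_le, le_rfl⟩) : Set.Icc ⊥ t) : L) = ⊥ := by
    rw [← le_bot_iff]
    have h1 : OrderDual.ofDual (e ⟨t, bot_le, le_rfl⟩) ≤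
        OrderDual.ofDual (e (e.symm (OrderDual.toDual ⟨⊥, le_rfl, bot_le⟩))) := by
      rw [he]
      exact (e.symm (OrderDual.toDual ⟨⊥, le_rfl, bot_le⟩)).2.2
    rw [OrderIso.apply_symm_apply] at h1
    exact h1
  refine ⟨fun w => if h : w ≤ t then ((OrderDual.ofDual (e ⟨w, bot_le, h⟩) : Set.Icc ⊥ t) : L)
    else w, ?_, ?_⟩
  · intro w hw
    simp only [dif_pos hw.le]
    refine ⟨⟨?_, ?_⟩, (OrderDual.ofDual (e ⟨w, bot_le, hw.le⟩)).2.2⟩
    · rw [bot_lt_iff_ne_bot]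
      intro h
      exact hw.ne (hbot _ h)
    · intro c hc hc'
      have hct : c ≤ t := hc'.le.trans (OrderDual.ofDual (e ⟨w, bot_le, hw.le⟩)).2.2
      have hcc : (⟨c, bot_le, hct⟩ : Set.Icc ⊥ t) =
          OrderDual.ofDual (e (e.symm (OrderDual.toDual ⟨c, bot_le, hct⟩))) := by
        rw [OrderIso.apply_symm_apply]; rfl
      set d := e.symm (OrderDual.toDual ⟨c, bot_le, hct⟩) with hd
      have h1 : OrderDual.ofDual (e d) ≤ OrderDual.ofDual (e ⟨w, bot_le, hw.le⟩) := by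
        rw [← hcc]; exact hc'.le
      rw [he] at h1
      rcases hw.eq_or_eq h1 d.2.2 with h2 | h2
      · have h3 : d = ⟨w, bot_le, hw.le⟩ := Subtype.ext h2
        rw [h3] at hcc
        exact hc'.ne (congrArg Subtype.val hcc)
      · have h3 : d = ⟨t, bot_le, le_rfl⟩ := Subtype.ext h2
        rw [h3] at hcc
        exact hc.ne' ((congrArg Subtype.val hcc).trans htop)
  · intro w w' hw hw' h
    simp only [dif_pos hw.le, dif_pos hw'.le] at h
    have h1 := e.injective (OrderDual.ofDual.injective (Subtype.ext h))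
    exact congrArg Subtype.val h1

/-- a chain element joined with an unlinked atom has exactly the two obvious coatoms -/
theorem coatoms_of_sup (hSD : SD L) {j k p r w : L}
    (hj : ∀ u v : L, u ≤ j → v ≤ j → u ≤ v ∨ v ≤ u) (hk : k ⋖ j) (hp : ⊥ ⋖ p) (hpj : p ≤ j)
    (hr : ⊥ ⋖ r) (hpr : ¬ Persp p r) (hw : w ⋖ j ⊔ r) : w = j ∨ w = k ⊔ r := by
  have hatom : ∀ a, ⊥ ⋖ a → a ≤ j → a = p := by
    intro a ha haj
    rcases hj a p haj hpj with h | h
    · exact atom_le_atom ha hp h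
    · exact (atom_le_atom hp ha h).symm
  have hrj : ¬ r ≤ j := by
    intro h
    exact hpr (Or.inl (hatom r hr h).symm)
  have hjr : j ⊓ r = ⊥ := by rw [inf_comm]; exact atom_inf hr hrj
  have hatoms : ∀ a, ⊥ ⋖ a → a ≤ j ⊔ r → a = p ∨ a = r := by
    intro a ha haj
    by_cases h1 : a ≤ j
    · exact Or.inl (hatom a ha h1)
    by_cases h2 : a ≤ r
    · exact Or.inr (atom_le_atom ha hr h2)
    obtain ⟨u, v, hu, hv, huj, hvr, huv⟩ := link_of_le_sup ha hjr haj h1 h2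
    rw [hatom u hu huj, atom_le_atom hv hr hvr] at huv
    exact absurd huv hpr
  have h1 : j ⋖ j ⊔ r := by
    rw [sup_comm]
    apply covBy_sup_of_inf_covBy_left
    rwa [atom_inf hr hrj]
  have h2 : k ⊔ r ⋖ j ⊔ r := by
    have h3 : (k ⊔ r) ⊔ j = j ⊔ r := by
      apply le_antisymm
      · exact sup_le (sup_le (hk.le.trans le_sup_left) le_sup_right) le_sup_left
      · exact sup_le le_sup_right (le_sup_right.trans le_sup_left)
    have h4 : j ⊓ (k ⊔ r) = k := by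
      rw [inf_comm, sup_inf_assoc_of_le r hk.le, inf_comm r j, hjr, sup_bot_eq]
    rw [← h3, sup_comm (k ⊔ r) j]
    apply covBy_sup_of_inf_covBy_left
    rwa [h4]
  have hne : j ≠ k ⊔ r := by
    intro h
    exact hrj (h ▸ le_sup_right)
  obtain ⟨f, hf1, hf2⟩ := coatom_map hSD (j ⊔ r)
  by_contra hcon
  push Not at hcon
  have e1 : f w ≠ f j := fun h => hcon.1 (hf2 _ _ hw h1 h)
  have e2 : f w ≠ f (k ⊔ r) := fun h => hcon.2 (hf2 _ _ hw h2 h)
  have e3 : f j ≠ f (k ⊔ r) := fun h => hne (hf2 _ _ h1 h2 h)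
  have a1 := hatoms _ (hf1 w hw).1 (hf1 w hw).2
  have a2 := hatoms _ (hf1 j h1).1 (hf1 j h1).2
  have a3 := hatoms _ (hf1 _ h2).1 (hf1 _ h2).2
  rcases a1 with a1 | a1
  · rcases a2 with a2 | a2
    · exact e1 (a1.trans a2.symm)
    · rcases a3 with a3 | a3
      · exact e2 (a1.trans a3.symm)
      · exact e3 (a2.trans a3.symm)
  · rcases a2 with a2 | a2
    · rcases a3 with a3 | a3
      · exact e3 (a2.trans a3.symm)
      · exact e2 (a1.trans a3.symm)
    · exact e1 (a1.trans a2.symm)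

/-- separation, one side -/
theorem sep_aux (hf : Finitary L) (hSD : SD L) {A : Set L} (hA : Sat A) {x y j p : L}
    (hx : In A x) (hy : In Aᶜ y) (hj : ∀ u v : L, u ≤ j → v ≤ j → u ≤ v ∨ v ≤ u)
    (hp : ⊥ ⋖ p) (hpj : p ≤ j) (hpx : p ≤ x) (hjxy : j ≤ x ⊔ y) : j ≤ x := by
  by_contra hcon
  have hxy := hx.disj hf hy
  obtain ⟨j₀, hj₀, hj₀x, hmin, hirr⟩ := exists_irred hf hcon
  have hj₀c : ∀ u v : L, u ≤ j₀ → v ≤ j₀ → u ≤ v ∨ v ≤ u := fun u v hu hv =>
    hj u v (hu.trans hj₀) (hv.trans hj₀)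
  have hpj₀ : p ≤ j₀ := by
    rcases hj p j₀ hpj hj₀ with h | h
    · exact h
    · exact absurd (h.trans hpx) hj₀x
  obtain ⟨k, _, hk⟩ := hf.exists_le_covBy hirr.1
  have hkx : k ≤ x := hmin k hk.lt
  have hkk : j₀ ⊓ x = k := by
    rcases hk.eq_or_eq (le_inf hk.le hkx) inf_le_left with h | h
    · exact h
    · exact absurd (inf_eq_left.1 h) hj₀x
  have hcov : x ⋖ x ⊔ j₀ := by
    rw [sup_comm]
    apply covBy_sup_of_inf_covBy_left
    rwa [hkk]
  set r := y ⊓ (x ⊔ j₀) with hr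
  have hxr : x ⊔ r = x ⊔ j₀ := by
    rw [hr, ← sup_inf_assoc_of_le y (le_sup_left : x ≤ x ⊔ j₀), inf_eq_right]
    exact sup_le le_sup_left (hj₀.trans hjxy)
  have hxr' : x ⊓ r = ⊥ := by
    rw [← le_bot_iff, ← hxy]
    exact le_inf inf_le_left (inf_le_right.trans inf_le_left)
  have hratom : ⊥ ⋖ r := by
    rw [← hxr']
    apply inf_covBy_of_covBy_sup_left
    rwa [hxr]
  have hrA : r ∉ A := hy r hratom inf_le_left
  have hpA : p ∈ A := hx p hp hpx
  have hpr : ¬ Persp p r := fun h => hrA (hA p r hp hratom hpA h)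
  have hjr : j₀ ⊔ r ≤ x ⊔ j₀ := sup_le le_sup_right inf_le_right
  have hw : (j₀ ⊔ r) ⊓ x ⋖ j₀ ⊔ r := by
    rw [inf_comm]
    apply inf_covBy_of_covBy_sup_left
    have h1 : x ⊔ (j₀ ⊔ r) = x ⊔ j₀ := le_antisymm (sup_le le_sup_left hjr)
      (sup_le le_sup_left (le_sup_left.trans le_sup_right))
    rwa [h1]
  rcases coatoms_of_sup hSD hj₀c hk hp hpj₀ hratom hpr hw with h | h
  · exact hj₀x (h ▸ inf_le_right)
  · have h1 : r ≤ x := (le_sup_right.trans h.ge).trans inf_le_right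
    have h2 : x ⊓ r = r := inf_eq_right.2 h1
    rw [hxr'] at h2
    exact hratom.ne h2

/-- separation: a cycle below `x ⊔ y`, `x` and `y` belonging to complementary saturated sets of
atoms, lies below `x` or below `y` -/
theorem sep (hf : Finitary L) (hSD : SD L) {A : Set L} (hA : Sat A) {x y j : L}
    (hx : In A x) (hy : In Aᶜ y) (hj : ∀ u v : L, u ≤ j → v ≤ j → u ≤ v ∨ v ≤ u)
    (hjxy : j ≤ x ⊔ y) : j ≤ x ∨ j ≤ y := by
  by_cases hj0 : j = ⊥
  · exact Or.inl (hj0 ▸ bot_le)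
  obtain ⟨p, hp, hpj⟩ := exists_atom hf hj0
  by_cases hpx : p ≤ x
  · exact Or.inl (sep_aux hf hSD hA hx hy hj hp hpj hpx hjxy)
  by_cases hpy : p ≤ y
  · refine Or.inr (sep_aux hf hSD hA.compl hy ?_ hj hp hpj hpy (sup_comm x y ▸ hjxy))
    rwa [compl_compl]
  obtain ⟨a, b, ha, hb, hax, hby, hab⟩ :=
    link_of_le_sup hp (hx.disj hf hy) (hpj.trans hjxy) hpx hpy
  exact absurd (hA a b ha hb (hx a ha hax) hab) (hy b hb hby)

/-- elements all of whose atoms are in a saturated set are closed under joins -/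
theorem In.sup (hf : Finitary L) (hSD : SD L) {A : Set L} (hA : Sat A) {x y : L}
    (hx : In A x) (hy : In A y) : In A (x ⊔ y) := by
  have := hf.wf
  induction x using WellFoundedLT.induction with
  | ind x ih =>
    by_cases h0 : x = ⊥
    · rw [h0, bot_sup_eq]; exact hy
    obtain ⟨x', _, hx'⟩ := hf.exists_le_covBy (bot_lt_iff_ne_bot.2 h0)
    have hz : In A (x' ⊔ y) := ih x' hx'.lt (hx.mono hx'.le)
    intro p hp hpxy
    by_contra hpA
    have hpz : ¬ p ≤ x' ⊔ y := fun h => hpA (hz p hp h)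
    have h1 : x' ⊔ y ≤ x ⊔ y := sup_le_sup_right hx'.le y
    have h2 : x' ⊔ y ⋖ x ⊔ y := by
      have h3 : x ⊔ (x' ⊔ y) = x ⊔ y := by
        rw [← sup_assoc, sup_eq_left.2 hx'.le]
      rw [← h3]
      apply covBy_sup_of_inf_covBy_left
      have h4 : x' ≤ x ⊓ (x' ⊔ y) := le_inf hx'.le le_sup_left
      rcases hx'.eq_or_eq h4 inf_le_left with h5 | h5
      · rwa [h5]
      · exfalso
        apply hpz
        exact hpxy.trans (sup_le (inf_eq_left.1 h5) le_sup_right)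
    have h3 : (x' ⊔ y) ⊔ p = x ⊔ y := by
      rcases h2.eq_or_eq (le_sup_left : x' ⊔ y ≤ (x' ⊔ y) ⊔ p) (sup_le h1 hpxy) with h | h
      · exact absurd (h ▸ le_sup_right) hpz
      · exact h
    have hpin : In Aᶜ p := by
      intro a ha hap
      rw [atom_le_atom ha hp hap]
      exact hpA
    have h4 : x ≤ x' ⊔ y := by
      by_contra hcon
      obtain ⟨j, hjx, hjz, _, hirr⟩ := exists_irred hf hcon
      rcases sep hf hSD hA hz hpin (irred_chain hf hSD hirr)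
        (h3 ▸ hjx.trans le_sup_left) with h | h
      · exact hjz h
      · rcases hp.eq_or_eq bot_le h with h5 | h5
        · exact hirr.1.ne' h5
        · exact hpA (hx p hp (h5 ▸ hjx))
    exact hpz (hpxy.trans (sup_le h4 le_sup_right))

end modular

end Pool.Agent.Helper20.SD
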