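import Pool.Agent.Helper20.SD.Decomp

/-!
# The decomposition of a lattice with (SD) into its connected parts
-/

namespace Pool.Agent.Helper20.SD

variable {L : Type*} [Lattice L] [OrderBot L]

/-- finite covers -/
def FiniteCovers (L : Type*) [Lattice L] : Prop := ∀ x : L, {y | x ⋖ y}.Finite

section modular

variable [IsModularLattice L]

theorem atom_exch {a b c : L} (ha : ⊥ ⋖ a) (hb : ⊥ ⋖ b) (hc : ⊥ ⋖ c) (hca : c ≠ a)
    (h : c ≤ a ⊔ b) : a ⊔ c = a ⊔ b := by
  have hba : ¬ b ≤ a := by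
    intro h1
    rw [sup_eq_left.2 h1] at h
    exact hca (atom_le_atom hc ha h)
  have h1 : a ⋖ a ⊔ b := by
    rw [sup_comm]
    apply covBy_sup_of_inf_covBy_left
    rwa [atom_inf hb hba]
  rcases h1.eq_or_eq (le_sup_left : a ≤ a ⊔ c) (sup_le le_sup_left h) with h2 | h2
  · exact absurd (atom_le_atom hc ha (sup_eq_left.1 h2)) hca
  · exact h2

/-- being linked is transitive -/
theorem Persp.trans {a b c : L} (ha : ⊥ ⋖ a) (hb : ⊥ ⋖ b) (hc : ⊥ ⋖ c) (hab : Persp a b)
    (hbc : Persp b c) : Persp a c := by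
  rcases hab with rfl | ⟨x, hx, hxa, hxb, hxab⟩
  · exact hbc
  rcases hbc with rfl | ⟨y, hy, hyb, hyc, hybc⟩
  · exact Or.inr ⟨x, hx, hxa, hxb, hxab⟩
  by_cases hac : a = c
  · exact Or.inl hac
  right
  have e1 : a ⊔ x = a ⊔ b := atom_exch ha hb hx hxa hxab
  have e2 : b ⊔ x = b ⊔ a := atom_exch hb ha hx hxb (by rwa [sup_comm])
  have e3 : b ⊔ y = b ⊔ c := atom_exch hb hc hy hyb hybc
  have e4 : c ⊔ y = c ⊔ b := atom_exch hc hb hy hyc (by rwa [sup_comm])
  by_cases h : c ≤ a ⊔ b
  · have h1 : a ⊔ c = a ⊔ b := atom_exch ha hb hc (Ne.symm hac) h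
    by_cases hba : b = a
    · subst hba
      rw [sup_idem] at h
      exact absurd (atom_le_atom hc ha h).symm hac
    by_cases hbc : b = c
    · subst hbc
      exact ⟨x, hx, hxa, hxb, hxab⟩
    exact ⟨b, hb, hba, hbc, h1 ▸ le_sup_right⟩
  have hxy : x ≠ y := by
    rintro rfl
    apply h
    calc c ≤ b ⊔ c := le_sup_right
      _ = b ⊔ x := e3.symm
      _ ≤ a ⊔ b := sup_le le_sup_right hxab
  have hbac : ¬ b ≤ a ⊔ c := by
    intro h1
    by_cases hba : b = a
    · rw [hba, sup_idem] at hxab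
      exact hxa (atom_le_atom hx ha hxab)
    · have := atom_exch ha hc hb hba h1
      exact h (this ▸ le_sup_right)
  have hcov : a ⊔ c ⋖ (a ⊔ c) ⊔ b := by
    rw [sup_comm (a ⊔ c) b]
    apply covBy_sup_of_inf_covBy_left
    rwa [atom_inf hb hbac]
  have hxac : ¬ x ≤ a ⊔ c := by
    intro h1
    apply hbac
    calc b ≤ a ⊔ b := le_sup_right
      _ = a ⊔ x := e1.symm
      _ ≤ a ⊔ c := sup_le le_sup_left h1
  have hxt : x ≤ (a ⊔ c) ⊔ b := hxab.trans (sup_le (le_sup_left.trans le_sup_left) le_sup_right)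
  have hyt : y ≤ (a ⊔ c) ⊔ b := hybc.trans (sup_le le_sup_right (le_sup_right.trans le_sup_left))
  have h1 : (a ⊔ c) ⊔ (x ⊔ y) = (a ⊔ c) ⊔ b := by
    rcases hcov.eq_or_eq (le_sup_left : a ⊔ c ≤ (a ⊔ c) ⊔ (x ⊔ y))
      (sup_le le_sup_left (sup_le hxt hyt)) with h2 | h2
    · exact absurd (le_sup_left.trans (sup_eq_left.1 h2)) hxac
    · exact h2
  have h2 : (a ⊔ c) ⊓ (x ⊔ y) ⋖ x ⊔ y := by
    apply inf_covBy_of_covBy_sup_left
    rwa [h1]
  set z := (a ⊔ c) ⊓ (x ⊔ y) with hz
  have hxz : ¬ x ≤ z := fun h3 => hxac (h3.trans inf_le_left)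
  have h3 : x ⊔ z = x ⊔ y := by
    rcases h2.eq_or_eq (le_sup_right : z ≤ x ⊔ z) (sup_le le_sup_left h2.le) with h4 | h4
    · exact absurd (h4 ▸ le_sup_left) hxz
    · exact h4
  have h4 : x ⋖ x ⊔ y := by
    rw [sup_comm]
    apply covBy_sup_of_inf_covBy_left
    rwa [atom_inf hy fun h => hxy (atom_le_atom hy hx h).symm]
  have h5 : ⊥ ⋖ z := by
    rw [← atom_inf hx hxz]
    apply inf_covBy_of_covBy_sup_left
    rwa [h3]
  refine ⟨z, h5, ?_, ?_, inf_le_left⟩
  · intro h6
    have h7 : a ≤ x ⊔ y := h6 ▸ inf_le_right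
    have h8 : b ≤ x ⊔ y := by
      calc b ≤ a ⊔ b := le_sup_right
        _ = a ⊔ x := e1.symm
        _ ≤ x ⊔ y := sup_le h7 le_sup_left
    have h9 : c ≤ x ⊔ y := by
      calc c ≤ b ⊔ c := le_sup_right
        _ = b ⊔ y := e3.symm
        _ ≤ x ⊔ y := sup_le h8 le_sup_right
    have h10 : c ≤ z := le_inf le_sup_right h9
    exact hac (atom_le_atom hc ha (h6 ▸ h10)).symm
  · intro h6
    have h7 : c ≤ x ⊔ y := h6 ▸ inf_le_right
    have h8 : b ≤ x ⊔ y := by
      calc b ≤ c ⊔ b := le_sup_right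
        _ = c ⊔ y := e4.symm
        _ ≤ x ⊔ y := sup_le h7 le_sup_right
    have h9 : a ≤ x ⊔ y := by
      calc a ≤ b ⊔ a := le_sup_right
        _ = b ⊔ x := e2.symm
        _ ≤ x ⊔ y := sup_le h8 le_sup_left
    have h10 : a ≤ z := le_inf le_sup_left h9
    exact hac (atom_le_atom ha hc (h6 ▸ h10))

/-- the elements all of whose atoms are in `A` -/
def part (hf : Finitary L) (hSD : SD L) {A : Set L} (hA : Sat A) : Sublattice L where
  carrier := {x | In A x}
  supClosed' := fun _ hx _ hy => hx.sup hf hSD hA hy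
  infClosed' := fun _ hx _ _ => hx.mono inf_le_left

theorem mem_part {hf : Finitary L} {hSD : SD L} {A : Set L} {hA : Sat A} {x : L} :
    x ∈ part hf hSD hA ↔ In A x := Iff.rfl

theorem in_finset_sup (hf : Finitary L) (hSD : SD L) {A : Set L} (hA : Sat A) {ι : Type*}
    (s : Finset ι) (f : ι → L) (h : ∀ i ∈ s, In A (f i)) : In A (s.sup f) := by
  classical
  induction s using Finset.induction_on with
  | empty => rw [Finset.sup_empty]; exact In.bot A
  | insert i s his ih =>
    rw [Finset.sup_insert]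
    exact (h i (Finset.mem_insert_self i s)).sup hf hSD hA
      (ih fun j hj => h j (Finset.mem_insert_of_mem hj))

/-- a partition of the atoms into finitely many saturated sets decomposes the lattice -/
theorem decomp (hf : Finitary L) (hSD : SD L) {n : ℕ} (A : Fin n → Set L) (hA : ∀ i, Sat (A i))
    (hdisj : ∀ i j a, a ∈ A i → a ∈ A j → i = j) (hcov : ∀ a, ⊥ ⋖ a → ∃ i, a ∈ A i) :
    Nonempty ((∀ i, part hf hSD (hA i)) ≃o L) := by
  classical
  have key : ∀ y y' : ∀ i, part hf hSD (hA i),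
      Finset.univ.sup (fun i => (y i : L)) ≤ Finset.univ.sup (fun i => (y' i : L)) → y ≤ y' := by
    intro y y' h i
    rw [← Subtype.coe_le_coe]
    by_contra hcon
    obtain ⟨j, hjy, hjy', _, hirr⟩ := exists_irred hf hcon
    have h1 : j ≤ (y' i : L) ⊔ (Finset.univ.erase i).sup (fun k => (y' k : L)) := by
      have h2 : j ≤ Finset.univ.sup (fun i => (y' i : L)) :=
        (hjy.trans (Finset.le_sup (f := fun i => (y i : L)) (Finset.mem_univ i))).trans h
      rwa [← Finset.insert_erase (Finset.mem_univ i), Finset.sup_insert] at h2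
    have h2 : In (A i)ᶜ ((Finset.univ.erase i).sup (fun k => (y' k : L))) := by
      apply in_finset_sup hf hSD (hA i).compl
      intro k hk a ha hak hai
      exact (Finset.mem_erase.1 hk).1 (hdisj k i a ((y' k).2 a ha hak) hai)
    rcases sep hf hSD (hA i) (y' i).2 h2 (irred_chain hf hSD hirr) h1 with h3 | h3
    · exact hjy' h3
    · obtain ⟨a, ha, haj⟩ := exists_atom hf hirr.1.ne'
      exact h2 a ha (haj.trans h3) ((y i).2 a ha (haj.trans hjy))
  have hsurj : ∀ x : L, ∃ y : ∀ i, part hf hSD (hA i),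
      Finset.univ.sup (fun i => (y i : L)) = x := by
    intro x
    have hfin : ∀ i, {z : L | z ≤ x ∧ In (A i) z}.Finite := fun i =>
      (hf x).subset fun z hz => hz.1
    refine ⟨fun i => ⟨(hfin i).toFinset.sup id, ?_⟩, ?_⟩
    · apply in_finset_sup hf hSD (hA i)
      intro z hz
      exact ((hfin i).mem_toFinset.1 hz).2
    · apply le_antisymm
      · apply Finset.sup_le
        intro i _
        apply Finset.sup_le
        intro z hz
        exact ((hfin i).mem_toFinset.1 hz).1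
      · by_contra hcon
        obtain ⟨j, hjx, hj, _, hirr⟩ := exists_irred hf hcon
        obtain ⟨a, ha, haj⟩ := exists_atom hf hirr.1.ne'
        obtain ⟨i, hi⟩ := hcov a ha
        apply hj
        have h1 : In (A i) j := by
          intro b hb hbj
          rcases irred_chain hf hSD hirr a b haj hbj with h | h
          · rwa [← atom_le_atom ha hb h]
          · rwa [atom_le_atom hb ha h]
        have h2 : j ≤ (hfin i).toFinset.sup id :=
          Finset.le_sup (f := id) ((hfin i).mem_toFinset.2 ⟨hjx, h1⟩)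
        exact h2.trans (Finset.le_sup
          (f := fun i => (((⟨(hfin i).toFinset.sup id, _⟩ : part hf hSD (hA i)) : L)))
          (Finset.mem_univ i))
  refine ⟨RelIso.ofSurjective (OrderEmbedding.ofMapLEIff
    (fun y : ∀ i, part hf hSD (hA i) => Finset.univ.sup (fun i => (y i : L))) ?_) ?_⟩
  · intro y y'
    refine ⟨key y y', fun h => ?_⟩
    apply Finset.sup_mono_fun
    intro i _
    exact h i
  · intro x
    exact hsurj x

end modular

end Pool.Agent.Helper20.SD
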