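import Pool.Agent.Helper20.SD.TreePQ

/-!
# Extending the coordinates from above the socle to the whole lattice
-/

namespace Pool.Agent.Helper20.SD

universe u

section

variable {p : ℕ} {M : Type u} [Lattice M] [IsModularLattice M] [BoundedOrder M] [Finite M]

/-- `s` is the join of the (at least two) atoms -/
structure Soc (s : M) : Prop where
  two : ∃ a b : M, ⊥ ⋖ a ∧ ⊥ ⋖ b ∧ a ≠ b
  le : ∀ a : M, ⊥ ⋖ a → a ≤ s
  eq : ∀ a b : M, ⊥ ⋖ a → ⊥ ⋖ b → a ≠ b → a ⊔ b = s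

omit [IsModularLattice M] [Finite M] in
theorem PQ.soc (h : PQ p M) {a b : M} (ha : ⊥ ⋖ a) (hb : ⊥ ⋖ b) (hab : a ≠ b) : Soc (a ⊔ b) where
  two := ⟨a, b, ha, hb, hab⟩
  le _ hc := h.up_le _ _ _ _ ha hb hab hc
  eq _ _ hc hd hcd := le_antisymm
    (sup_le (h.up_le _ _ _ _ ha hb hab hc) (h.up_le _ _ _ _ ha hb hab hd))
    (sup_le (h.up_le _ _ _ _ hc hd hcd ha) (h.up_le _ _ _ _ hc hd hcd hb))

variable {s : M}

omit [Finite M] in
theorem Soc.covBy (hs : Soc s) {a : M} (ha : ⊥ ⋖ a) : a ⋖ s := by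
  obtain ⟨b, c, hb, hc, hbc⟩ := hs.two
  have : ∃ d : M, ⊥ ⋖ d ∧ a ≠ d := by
    by_cases h : a = b
    · exact ⟨c, hc, fun h' => hbc (h.symm.trans h')⟩
    · exact ⟨b, hb, h⟩
  obtain ⟨d, hd, had⟩ := this
  have h1 : a ⊓ d = ⊥ := by
    rcases ha.eq_or_eq bot_le (inf_le_left : a ⊓ d ≤ a) with h | h
    · exact h
    · exfalso
      have h2 : a ≤ d := inf_eq_left.1 h
      rcases hd.eq_or_eq bot_le h2 with h3 | h3
      · exact ha.ne' h3
      · exact had h3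
  have h2 : a ⋖ a ⊔ d := covBy_sup_of_inf_covBy_right (h1.symm ▸ hd)
  rwa [hs.eq a d ha hd had] at h2

/-- the elements not above the socle, except the bottom -/
def Cyc (s x : M) : Prop := x ≠ ⊥ ∧ ¬ s ≤ x

omit [IsModularLattice M] [Finite M] in
theorem Cyc.chain (hs : Soc s) (h : PQ p M) {x : M} (hx : Cyc s x) {u v : M} (hu : u ≤ x)
    (hv : v ≤ x) : u ≤ v ∨ v ≤ u := by
  refine h.up_chain ⊥ x ?_ u v bot_le hu bot_le hv
  intro a b ha hax hb hbx
  by_contra hab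
  exact hx.2 ((hs.eq a b ha hb hab) ▸ sup_le hax hbx)

omit [IsModularLattice M] in
theorem Cyc.exists_atom {x : M} (hx : Cyc s x) : ∃ a : M, ⊥ ⋖ a ∧ a ≤ x :=
  exists_covBy_le_of_lt (bot_lt_iff_ne_bot.2 hx.1)

theorem Cyc.inf_covBy (hs : Soc s) {x : M} (hx : Cyc s x) : ⊥ ⋖ x ⊓ s ∧ x ⊓ s ⋖ s := by
  obtain ⟨a, ha, hax⟩ := hx.exists_atom
  have h1 : a ≤ x ⊓ s := le_inf hax (hs.le a ha)
  rcases (hs.covBy ha).eq_or_eq h1 inf_le_right with h2 | h2
  · rw [h2]; exact ⟨ha, hs.covBy ha⟩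
  · exact absurd (inf_eq_right.1 h2) hx.2

theorem Cyc.covBy_sup (hs : Soc s) {x : M} (hx : Cyc s x) : x ⋖ x ⊔ s :=
  covBy_sup_of_inf_covBy_right (hx.inf_covBy hs).2

theorem Cyc.inf_le (hs : Soc s) {x y : M} (hx : Cyc s x) (hy : Cyc s y) (hxy : x ≤ y) :
    y ⊓ s ≤ x := by
  have h1 := (hx.inf_covBy hs).1
  have h2 := (hy.inf_covBy hs).1
  rcases h2.eq_or_eq bot_le (inf_le_inf_right s hxy) with h3 | h3
  · exact absurd h3 h1.ne'
  · rw [← h3]; exact inf_le_left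

theorem Cyc.sup_covBy (hs : Soc s) {x y : M} (hx : Cyc s x) (hy : Cyc s y) (hxy : x ⋖ y) :
    x ⊔ s ⋖ y ⊔ s := by
  have h1 : y ⊓ (x ⊔ s) = x := by
    rw [inf_comm, sup_inf_assoc_of_le s hxy.le, sup_eq_left, inf_comm]
    exact hx.inf_le hs hy hxy.le
  have h2 : y ⊓ (x ⊔ s) ⋖ y := by rw [h1]; exact hxy
  have h3 := covBy_sup_of_inf_covBy_left h2
  rwa [← sup_assoc, sup_eq_left.2 hxy.le] at h3

theorem Cyc.sup_eq_of_child (hs : Soc s) (h : PQ p M) {x y z : M} (hx : Cyc s x) (hy : Cyc s y)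
    (hz : Cyc s z) (hxy : x ⋖ y) (hxz : x ⋖ z) : y ⊔ s = z ⊔ s := by
  by_cases hyz : y = z
  · rw [hyz]
  have h1 : x ⊔ s ≤ y ⊔ z := h.up_le _ _ _ _ hxy hxz hyz (hx.covBy_sup hs)
  have h2 : y ⊓ z = x := WCovBy.inf_eq hxy.wcovBy hxz.wcovBy hyz
  have h3 : y ⋖ y ⊔ z := covBy_sup_of_inf_covBy_right (h2.symm ▸ hxz)
  have h4 : z ⋖ y ⊔ z := covBy_sup_of_inf_covBy_left (h2.symm ▸ hxy)
  have h5 : s ≤ y ⊔ z := le_sup_right.trans h1
  rcases h3.eq_or_eq le_sup_left (sup_le le_sup_left h5) with h6 | h6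
  · exact absurd h6 (hy.covBy_sup hs).ne'
  rcases h4.eq_or_eq le_sup_left (sup_le le_sup_right h5) with h7 | h7
  · exact absurd h7 (hz.covBy_sup hs).ne'
  rw [h6, h7]

omit [IsModularLattice M] [Finite M] in
theorem Cyc.coatom_unique (hs : Soc s) (h : PQ p M) {x y z : M} (hx : Cyc s x) (hy : y ⋖ x)
    (hz : z ⋖ x) : y = z := by
  rcases hx.chain hs h hy.le hz.le with h1 | h1
  · rcases hy.eq_or_eq h1 hz.le with h2 | h2
    · exact h2.symm
    · exact absurd h2 hz.ne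
  · rcases hz.eq_or_eq h1 hy.le with h2 | h2
    · exact h2
    · exact absurd h2 hy.ne

theorem Cyc.covBy_of_sup_eq (hs : Soc s) (h : PQ p M) {x y z : M} (hy : Cyc s y)
    (hz : Cyc s z) (hxy : x ⋖ y) (hyz : y ⊔ s = z ⊔ s) : x ⋖ z := by
  by_cases hne : y = z
  · rwa [← hne]
  have c1 := hy.covBy_sup hs
  have c2 := hz.covBy_sup hs
  rw [← hyz] at c2
  have h1 : y ⊔ z = y ⊔ s := WCovBy.sup_eq c1.wcovBy c2.wcovBy hne
  have h2 : y ⊓ z ⋖ y := inf_covBy_of_covBy_sup_right (h1.symm ▸ c2)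
  have h3 : y ⊓ z ⋖ z := inf_covBy_of_covBy_sup_left (h1.symm ▸ c1)
  rwa [hy.coatom_unique hs h hxy h2]

omit [IsModularLattice M] in
theorem Cyc.exists_parent {y : M} (hy : Cyc s y) (hna : ¬ ⊥ ⋖ y) : ∃ x, Cyc s x ∧ x ⋖ y := by
  obtain ⟨x, _, hx⟩ := exists_le_covBy_of_lt (bot_lt_iff_ne_bot.2 hy.1)
  refine ⟨x, ⟨?_, fun h => hy.2 (h.trans hx.le)⟩, hx⟩
  rintro rfl
  exact hna hx

/-- the elements outside the filter of the socle which generate `y` with the socle -/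
def Fib (s y : M) : Set M := {x | Cyc s x ∧ x ⊔ s = y}

theorem ncard_fib_soc (hs : Soc s) (h : PQ p M) : (Fib s s).ncard = p + 2 := by
  have e : Fib s s = {x | ⊥ ⋖ x} := by
    ext x
    constructor
    · rintro ⟨h1, h2⟩
      have h3 := (h1.inf_covBy hs).1
      rwa [inf_eq_left.2 (sup_eq_right.1 h2)] at h3
    · intro hx
      have hx' : ⊥ ⋖ x := hx
      have h1 := hs.covBy hx'
      exact ⟨⟨hx'.ne', fun h2 => absurd (h2.antisymm h1.le) h1.ne'⟩, sup_eq_right.2 h1.le⟩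
  rw [e]
  obtain ⟨a, b, ha, hb, hab⟩ := hs.two
  exact h.up_card _ _ _ ha hb hab

theorem ncard_fib (hs : Soc s) (h : PQ p M) {y : M} (hy : s < y)
    (hch : ∀ u v : M, s ≤ u → u ≤ y → s ≤ v → v ≤ y → u ≤ v ∨ v ≤ u) :
    (Fib s y).ncard = p + 1 := by
  obtain ⟨a, b, ha, hb, hab⟩ := hs.two
  obtain ⟨y0, hy0, hy0'⟩ := exists_le_covBy_of_lt hy
  have e : Fib s y = {w | w ⋖ y} \ {y0} := by
    ext x
    constructor
    · rintro ⟨h1, h2⟩
      refine ⟨?_, ?_⟩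
      · have := h1.covBy_sup hs
        rw [h2] at this
        exact this
      · rintro rfl
        exact h1.2 hy0
    · rintro ⟨hx, hx'⟩
      have hx1 : x ⋖ y := hx
      have hx2 : ¬ s ≤ x := by
        intro h3
        apply hx'
        rw [Set.mem_singleton_iff]
        rcases hch _ _ h3 hx1.le hy0 hy0'.le with h4 | h4
        · rcases hx1.eq_or_eq h4 hy0'.le with h5 | h5
          · exact h5.symm
          · exact absurd h5 hy0'.ne
        · rcases hy0'.eq_or_eq h4 hx1.le with h5 | h5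
          · exact h5
          · exact absurd h5 hx1.ne
      refine ⟨⟨?_, hx2⟩, ?_⟩
      · rintro rfl
        exact hx1.2 (ha.lt.trans_le (hs.le a ha)) hy
      · rcases hx1.eq_or_eq le_sup_left (sup_le hx1.le hy.le) with h5 | h5
        · exact absurd (sup_eq_left.1 h5) hx2
        · exact h5
  have h2 : ∃ z1 z2 : M, z1 ⋖ y ∧ z2 ⋖ y ∧ z1 ≠ z2 := by
    by_contra hcon
    push Not at hcon
    have h3 := h.down_chain ⊥ y (fun u v hu _ hv _ => hcon u v hu hv) a b bot_le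
      ((hs.le a ha).trans hy.le) bot_le ((hs.le b hb).trans hy.le)
    rcases h3 with h3 | h3
    · rcases hb.eq_or_eq bot_le h3 with h4 | h4
      · exact ha.ne' h4
      · exact hab h4
    · rcases ha.eq_or_eq bot_le h3 with h4 | h4
      · exact hb.ne' h4
      · exact hab h4.symm
  obtain ⟨z1, z2, hz1, hz2, hz⟩ := h2
  have h3 := h.down_card y z1 z2 hz1 hz2 hz
  have hy0m : y0 ∈ {w | w ⋖ y} := hy0'
  rw [e, Set.ncard_sdiff_singleton_of_mem hy0m, h3]
  omega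

/-- in the tree lattice an element has level zero iff it is a cycle -/
theorem Tree.lev_eq_zero_iff {t : Tree p} :
    t.lev = 0 ↔ ∀ u v : Tree p, u ≤ t → v ≤ t → u ≤ v ∨ v ≤ u := by
  constructor
  · intro h u v hu hv
    exact Tree.chain_of_eq (x := ⊥) (y := t) (by simp [h]) bot_le hu bot_le hv
  · intro h
    by_contra h1
    obtain ⟨y, z, hy, hz, hyz⟩ := Tree.exists_two_down t (by omega)
    rcases h y z hy.le hz.le with h2 | h2
    · rcases hy.eq_or_eq h2 hz.le with h3 | h3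
      · exact hyz h3.symm
      · exact hz.ne h3
    · rcases hz.eq_or_eq h2 hy.le with h3 | h3
      · exact hyz h3
      · exact hy.ne h3

/-- coordinates on the filter of the socle -/
structure Coord (s : M) (c m : ℕ) (φ : M → Tree p) : Prop where
  le : ∀ y, s ≤ y → φ y ≤ Tree.base p c m
  iff : ∀ y z, s ≤ y → s ≤ z → (y ≤ z ↔ φ y ≤ φ z)
  surj : ∀ t, t ≤ Tree.base p c m → ∃ y, s ≤ y ∧ φ y = t

variable {c m : ℕ} {φ : M → Tree p}

omit [IsModularLattice M] [BoundedOrder M] [Finite M] in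
theorem Coord.inj (hφ : Coord s c m φ) {y z : M} (hy : s ≤ y) (hz : s ≤ z) (h : φ y = φ z) :
    y = z :=
  le_antisymm ((hφ.iff y z hy hz).2 h.le) ((hφ.iff z y hz hy).2 h.ge)

omit [IsModularLattice M] [BoundedOrder M] [Finite M] in
theorem Coord.map_soc (hφ : Coord s c m φ) : φ s = ⊥ := by
  obtain ⟨y, hy, hy'⟩ := hφ.surj ⊥ bot_le
  apply le_antisymm _ bot_le
  rw [← hy', ← hφ.iff s y le_rfl hy]
  exact hy

omit [IsModularLattice M] [BoundedOrder M] [Finite M] in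
theorem Coord.lt_iff (hφ : Coord s c m φ) {y z : M} (hy : s ≤ y) (hz : s ≤ z) :
    y < z ↔ φ y < φ z := by
  rw [lt_iff_le_not_ge, lt_iff_le_not_ge, hφ.iff y z hy hz, hφ.iff z y hz hy]

omit [IsModularLattice M] [BoundedOrder M] [Finite M] in
theorem Coord.covBy (hφ : Coord s c m φ) {y z : M} (hy : s ≤ y) (hyz : y ⋖ z) : φ y ⋖ φ z := by
  have hz : s ≤ z := hy.trans hyz.le
  refine ⟨(hφ.lt_iff hy hz).1 hyz.lt, ?_⟩
  intro t h1 h2
  obtain ⟨x, hx, rfl⟩ := hφ.surj t (h2.le.trans (hφ.le z hz))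
  exact hyz.2 ((hφ.lt_iff hy hx).2 h1) ((hφ.lt_iff hx hz).2 h2)

omit [IsModularLattice M] [BoundedOrder M] [Finite M] in
theorem Coord.lev_eq_zero_iff (hφ : Coord s c m φ) {y : M} (hy : s ≤ y) :
    (φ y).lev = 0 ↔ ∀ u v : M, s ≤ u → u ≤ y → s ≤ v → v ≤ y → u ≤ v ∨ v ≤ u := by
  rw [Tree.lev_eq_zero_iff]
  constructor
  · intro h u v hu hu' hv hv'
    rw [hφ.iff u v hu hv, hφ.iff v u hv hu]
    exact h _ _ ((hφ.iff _ _ hu hy).1 hu') ((hφ.iff _ _ hv hy).1 hv')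
  · intro h u v hu hv
    obtain ⟨a, ha, rfl⟩ := hφ.surj u (hu.trans (hφ.le y hy))
    obtain ⟨b, hb, rfl⟩ := hφ.surj v (hv.trans (hφ.le y hy))
    rw [← hφ.iff a b ha hb, ← hφ.iff b a hb ha]
    exact h a b ha ((hφ.iff _ _ ha hy).2 hu) hb ((hφ.iff _ _ hb hy).2 hv)

theorem Cyc.lev_eq_zero (hs : Soc s) (h : PQ p M) (hφ : Coord s c m φ) {x : M} (hx : Cyc s x) :
    (φ (x ⊔ s)).lev = 0 := by
  rw [hφ.lev_eq_zero_iff le_sup_right]
  have key : ∀ u, s ≤ u → u ≤ x ⊔ s → u = s ⊔ x ⊓ u := by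
    intro u h1 h2
    rw [← sup_inf_assoc_of_le x h1, sup_comm s x]
    exact (inf_eq_right.2 h2).symm
  intro u v hu hu' hv hv'
  rw [key u hu hu', key v hv hv']
  rcases hx.chain hs h (inf_le_left : x ⊓ u ≤ x) (inf_le_left : x ⊓ v ≤ x) with h1 | h1
  · left; exact sup_le_sup_left h1 s
  · right; exact sup_le_sup_left h1 s

/-- number of labels available below an element with given coordinates -/
def bound (p : ℕ) (v : List ℕ) : ℕ := if v = [] then p + 2 else p + 1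

theorem lt_bound_iff {v : List ℕ} (hv : Ok p v) (a : ℕ) : a < bound p v ↔ Ok p (v ++ [a]) := by
  unfold bound
  constructor
  · intro h
    apply hv.append
    split_ifs at h with h1
    · right; exact ⟨h1, by omega⟩
    · left; omega
  · intro h
    have := h.last
    split_ifs with h1
    · omega
    · rcases this with h2 | h2
      · omega
      · exact absurd h2.1 h1

theorem ncard_fib_eq (hs : Soc s) (h : PQ p M) (hφ : Coord s c m φ) {y : M} (hy : s ≤ y)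
    (hl : (φ y).lev = 0) : (Fib s y).ncard = bound p (φ y).word := by
  unfold bound
  by_cases h1 : s = y
  · subst h1
    rw [hφ.map_soc, if_pos (Tree.bot_word (p := p))]
    exact ncard_fib_soc hs h
  · have h2 : s < y := lt_of_le_of_ne hy h1
    rw [if_neg]
    · exact ncard_fib hs h h2 ((hφ.lev_eq_zero_iff hy).1 hl)
    · intro h3
      apply h1
      apply hφ.inj le_rfl hy
      rw [hφ.map_soc]
      ext1
      · rw [h3]; rfl
      · rw [hl]; rfl

theorem Cyc.exists_letter (hs : Soc s) (h : PQ p M) (hφ : Coord s c m φ) {x y : M}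
    (hx : Cyc s x) (hy : Cyc s y) (hxy : x ⋖ y) :
    ∃ a, (φ (y ⊔ s)).word = (φ (x ⊔ s)).word ++ [a] := by
  have h1 := hφ.covBy le_sup_right (hx.sup_covBy hs hy hxy)
  have h2 := hx.lev_eq_zero hs h hφ
  have h3 := hy.lev_eq_zero hs h hφ
  rcases Tree.covBy_cases h1 with ⟨a, h4, _⟩ | ⟨_, _, h5⟩
  · exact ⟨a, h4⟩
  · omega

theorem exists_label (hs : Soc s) (h : PQ p M) (hφ : Coord s c m φ) {y : M} (hy : s ≤ y)
    (hl : (φ y).lev = 0) :
    ∃ g : M → ℕ, (∀ x ∈ Fib s y, g x < bound p (φ y).word) ∧ Set.InjOn g (Fib s y) ∧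
      (∀ a < bound p (φ y).word, ∃ x ∈ Fib s y, g x = a) ∧
      ∀ x ∈ Fib s y, ∀ z, Cyc s z → x ⋖ z → (φ (z ⊔ s)).word = (φ y).word ++ [g x] := by
  classical
  have hfin : (Fib s y).Finite := Set.toFinite _
  let _ : Fintype (Fib s y) := hfin.fintype
  have hcard : Fintype.card (Fib s y) = (Finset.range (bound p (φ y).word)).card := by
    rw [Finset.card_range, ← ncard_fib_eq hs h hφ hy hl, Set.ncard_eq_toFinset_card',
      Set.toFinset_card]
  have hex : ∀ x : Fib s y, (∃ z, Cyc s z ∧ (x : M) ⋖ z) →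
      ∃ a, ∀ z, Cyc s z → (x : M) ⋖ z → (φ (z ⊔ s)).word = (φ y).word ++ [a] := by
    rintro ⟨x, hx, hxy⟩ ⟨z, hz, hxz⟩
    obtain ⟨a, ha⟩ := hx.exists_letter hs h hφ hz hxz
    refine ⟨a, fun z' hz' hxz' => ?_⟩
    rw [hx.sup_eq_of_child hs h hz' hz hxz' hxz, ha, hxy]
  choose f hf using hex
  let f' : Fib s y → ℕ := fun x => if hx : ∃ z, Cyc s z ∧ (x : M) ⋖ z then f x hx else 0
  let S : Finset (Fib s y) := Finset.univ.filter fun x => ∃ z, Cyc s z ∧ (x : M) ⋖ z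
  have hS : ∀ x : Fib s y, x ∈ S ↔ ∃ z, Cyc s z ∧ (x : M) ⋖ z := by
    intro x; simp [S]
  have hf' : ∀ x : Fib s y, x ∈ S → ∀ z, Cyc s z → (x : M) ⋖ z →
      (φ (z ⊔ s)).word = (φ y).word ++ [f' x] := by
    intro x hx z hz hxz
    have hx' := (hS x).1 hx
    simp only [f', dif_pos hx']
    exact hf x hx' z hz hxz
  have h1 : Finset.image f' S ⊆ Finset.range (bound p (φ y).word) := by
    intro a ha
    obtain ⟨x, hx, rfl⟩ := Finset.mem_image.1 ha
    obtain ⟨z, hz, hxz⟩ := (hS x).1 hx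
    rw [Finset.mem_range, lt_bound_iff (φ y).ok, ← hf' x hx z hz hxz]
    exact (φ (z ⊔ s)).ok
  have h2 : Set.InjOn f' (S : Set (Fib s y)) := by
    intro x hx x' hx' hxx
    rw [Finset.mem_coe] at hx hx'
    obtain ⟨z, hz, hxz⟩ := (hS x).1 hx
    obtain ⟨z', hz', hxz'⟩ := (hS x').1 hx'
    have e1 := hf' x hx z hz hxz
    have e2 := hf' x' hx' z' hz' hxz'
    rw [← hxx, ← e1] at e2
    have e3 : z ⊔ s = z' ⊔ s := by
      apply hφ.inj le_sup_right le_sup_right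
      ext1
      · exact e2.symm
      · rw [hz.lev_eq_zero hs h hφ, hz'.lev_eq_zero hs h hφ]
    have e4 := hz.covBy_of_sup_eq hs h hz' hxz e3
    exact Subtype.ext (hz'.coatom_unique hs h e4 hxz')
  obtain ⟨g, hg⟩ := Finset.exists_equiv_extend_of_card_eq hcard h1 h2
  refine ⟨fun x => if hx : x ∈ Fib s y then (g ⟨x, hx⟩ : ℕ) else 0, ?_, ?_, ?_, ?_⟩
  · intro x hx
    simp only [dif_pos hx]
    exact Finset.mem_range.1 (g ⟨x, hx⟩).2
  · intro x hx x' hx' hxx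
    simp only [dif_pos hx, dif_pos hx'] at hxx
    have := g.injective (Subtype.ext hxx)
    exact congrArg Subtype.val this
  · intro a ha
    let a' : Finset.range (bound p (φ y).word) := ⟨a, Finset.mem_range.2 ha⟩
    refine ⟨(g.symm a' : M), (g.symm a').2, ?_⟩
    simp only [dif_pos (g.symm a').2]
    have : (⟨(g.symm a' : M), (g.symm a').2⟩ : Fib s y) = g.symm a' := rfl
    rw [this, g.apply_symm_apply]
  · intro x hx z hz hxz
    simp only [dif_pos hx]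
    have hxS : (⟨x, hx⟩ : Fib s y) ∈ S := (hS _).2 ⟨z, hz, hxz⟩
    rw [hg _ hxS]
    exact hf' _ hxS z hz hxz

end

end Pool.Agent.Helper20.SD
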