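import Pool.Agent.Helper20.SD.Extend

/-!
# Extending the coordinates: the isomorphism
-/

namespace Pool.Agent.Helper20.SD

universe u

variable {p : ℕ} {M : Type u} [Lattice M] [IsModularLattice M] [BoundedOrder M] [Finite M]
  {s : M} {c m : ℕ} {φ : M → Tree p}

theorem extend (hs : Soc s) (h : PQ p M) (hφ : Coord s c m φ) :
    Nonempty (M ≃o Set.Iic (Tree.base p c (m + 1))) := by
  classical
  have H : ∀ y : M, ∃ g : M → ℕ, s ≤ y → (φ y).lev = 0 →
      (∀ x ∈ Fib s y, g x < bound p (φ y).word) ∧ Set.InjOn g (Fib s y) ∧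
      (∀ a < bound p (φ y).word, ∃ x ∈ Fib s y, g x = a) ∧
      ∀ x ∈ Fib s y, ∀ z, Cyc s z → x ⋖ z → (φ (z ⊔ s)).word = (φ y).word ++ [g x] := by
    intro y
    by_cases hy : s ≤ y ∧ (φ y).lev = 0
    · obtain ⟨g, hg⟩ := exists_label hs h hφ hy.1 hy.2
      exact ⟨g, fun _ _ => hg⟩
    · exact ⟨fun _ => 0, fun h1 h2 => absurd ⟨h1, h2⟩ hy⟩
  choose g hg using H
  let ℓ : M → ℕ := fun x => g (x ⊔ s) x
  have fibm : ∀ x, Cyc s x → x ∈ Fib s (x ⊔ s) := fun x hx => ⟨hx, rfl⟩
  have P1 : ∀ x, Cyc s x → ℓ x < bound p (φ (x ⊔ s)).word := fun x hx =>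
    (hg (x ⊔ s) le_sup_right (hx.lev_eq_zero hs h hφ)).1 x (fibm x hx)
  have P2 : ∀ x y, Cyc s x → Cyc s y → x ⊔ s = y ⊔ s → ℓ x = ℓ y → x = y := by
    intro x y hx hy hxy hl
    have h1 := (hg (x ⊔ s) le_sup_right (hx.lev_eq_zero hs h hφ)).2.1
    refine h1 (fibm x hx) (hxy ▸ fibm y hy) ?_
    change g (x ⊔ s) x = g (y ⊔ s) y at hl
    rw [← hxy] at hl
    exact hl
  have P3 : ∀ y, s ≤ y → (φ y).lev = 0 → ∀ a < bound p (φ y).word,
      ∃ x, Cyc s x ∧ x ⊔ s = y ∧ ℓ x = a := by
    intro y hy hl a ha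
    obtain ⟨x, hx, hxa⟩ := (hg y hy hl).2.2.1 a ha
    refine ⟨x, hx.1, hx.2, ?_⟩
    change g (x ⊔ s) x = a
    rw [hx.2, hxa]
  have P4 : ∀ x z, Cyc s x → Cyc s z → x ⋖ z →
      (φ (z ⊔ s)).word = (φ (x ⊔ s)).word ++ [ℓ x] := fun x z hx hz hxz =>
    (hg (x ⊔ s) le_sup_right (hx.lev_eq_zero hs h hφ)).2.2.2 x (fibm x hx) z hz hxz
  have okW : ∀ x, Cyc s x → Ok p ((φ (x ⊔ s)).word ++ [ℓ x]) := fun x hx =>
    (lt_bound_iff (φ (x ⊔ s)).ok _).1 (P1 x hx)
  have lev0 : ∀ x, Cyc s x → (φ (x ⊔ s)).lev = 0 := fun x hx => hx.lev_eq_zero hs h hφ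
  -- the order on the cycles
  have ordC1 : ∀ y, Cyc s y → ∀ x, (hx : Cyc s x) → (hy : Cyc s y) → x ≤ y →
      (⟨_, okW x hx, 0⟩ : Tree p) ≤ ⟨_, okW y hy, 0⟩ := by
    intro y
    induction y using WellFoundedLT.induction with
    | _ y ih =>
      intro _ x hx hy hxy
      rcases hxy.eq_or_lt with rfl | hlt
      · exact le_rfl
      · have hna : ¬ ⊥ ⋖ y := fun h1 => h1.2 (bot_lt_iff_ne_bot.2 hx.1) hlt
        obtain ⟨z, hz, hzy⟩ := hy.exists_parent hna
        obtain ⟨z', hz', hz'y⟩ := exists_le_covBy_of_lt hlt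
        have e : z' = z := hy.coatom_unique hs h hz'y hzy
        subst e
        refine (ih z' hzy.lt hz x hx hz hz').trans ?_
        have h1 := P4 z' y hz hy hzy
        rw [Tree.le_def]
        simp only [h1, List.length_append, List.length_singleton]
        have h2 := lcp_append_singleton ((φ (z' ⊔ s)).word ++ [ℓ z'])
          ((φ (z' ⊔ s)).word ++ [ℓ z']) (ℓ y)
        rw [lcp_self] at h2
        rw [lcp_comm]
        simp only [List.length_append, List.length_singleton] at h2
        omega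
  have ordC2 : ∀ y, Cyc s y → ∀ x, (hx : Cyc s x) → (hy : Cyc s y) →
      (⟨_, okW x hx, 0⟩ : Tree p) ≤ ⟨_, okW y hy, 0⟩ → x ≤ y := by
    intro y
    induction y using WellFoundedLT.induction with
    | _ y ih =>
      intro _ x hx hy hxy
      rcases (Tree.ht_le hxy).eq_or_lt with h1 | h1
      · have h2 := congrArg Tree.word (Tree.eq_of_ht hxy h1)
        simp only at h2
        have h3 := List.append_inj_left' h2 rfl
        have h4 := List.append_inj_right' h2 rfl
        have h5 : x ⊔ s = y ⊔ s := by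
          apply hφ.inj le_sup_right le_sup_right
          ext1
          · exact h3
          · rw [lev0 x hx, lev0 y hy]
        exact (P2 x y hx hy h5 (by simpa using h4)).le
      · have hna : ¬ ⊥ ⋖ y := by
          intro h2
          have h3 : y ⊔ s = s := sup_eq_right.2 (hs.le y h2)
          simp only [Tree.ht, List.length_append, List.length_singleton, h3, hφ.map_soc,
            Tree.bot_word, List.length_nil] at h1
          omega
        obtain ⟨z, hz, hzy⟩ := hy.exists_parent hna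
        refine (ih z hzy.lt hz x hx hz ?_).trans hzy.le
        have h2 := P4 z y hz hy hzy
        rw [Tree.le_def] at hxy ⊢
        simp only [h2, List.length_append, List.length_singleton, Tree.ht] at hxy h1 ⊢
        have h3 := lcp_append_singleton ((φ (z ⊔ s)).word ++ [ℓ z])
          ((φ (x ⊔ s)).word ++ [ℓ x]) (ℓ y)
        have h4 := lcp_le_left ((φ (x ⊔ s)).word ++ [ℓ x]) ((φ (z ⊔ s)).word ++ [ℓ z])
        rw [lcp_comm ((φ (z ⊔ s)).word ++ [ℓ z]), lcp_comm _ ((φ (x ⊔ s)).word ++ [ℓ x])] at h3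
        simp only [List.length_append, List.length_singleton] at h3 h4
        omega
  have hsb : ¬ s ≤ ⊥ := by
    intro h1
    obtain ⟨a, b, ha, _, _⟩ := hs.two
    exact absurd ((hs.le a ha).trans h1) ha.lt.not_ge
  let Φ : M → Tree p := fun x =>
    if s ≤ x then ⟨(φ x).word, (φ x).ok, (φ x).lev + 1⟩
    else if hx : Cyc s x then ⟨_, okW x hx, 0⟩ else ⊥
  have Φ1 : ∀ x, s ≤ x → Φ x = ⟨(φ x).word, (φ x).ok, (φ x).lev + 1⟩ := fun x hx => if_pos hx
  have Φ2 : ∀ x, (hx : Cyc s x) → Φ x = ⟨_, okW x hx, 0⟩ := fun x hx => by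
    simp only [Φ, if_neg hx.2, dif_pos hx]
  have Φ3 : Φ ⊥ = ⊥ := by
    have : ¬ Cyc s (⊥ : M) := fun h1 => h1.1 rfl
    simp only [Φ, if_neg hsb, dif_neg this]
  have cases3 : ∀ x, s ≤ x ∨ Cyc s x ∨ x = ⊥ := by
    intro x
    by_cases h1 : s ≤ x
    · exact Or.inl h1
    · by_cases h2 : x = ⊥
      · exact Or.inr (Or.inr h2)
      · exact Or.inr (Or.inl ⟨h2, h1⟩)
  have key : ∀ x y, Φ x ≤ Φ y ↔ x ≤ y := by
    intro x y
    rcases cases3 x with hx | hx | hx
    · rcases cases3 y with hy | hy | hy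
      · rw [Φ1 x hx, Φ1 y hy, hφ.iff x y hx hy, Tree.le_def, Tree.le_def]
        simp only
        omega
      · rw [Φ1 x hx, Φ2 y hy]
        constructor
        · intro h1
          have := Tree.lev_le h1
          simp at this
        · intro h1
          exact absurd (hx.trans h1) hy.2
      · subst hy
        rw [Φ1 x hx, Φ3]
        constructor
        · intro h1
          have := Tree.lev_le h1
          simp at this
        · intro h1
          exact absurd (hx.trans h1) hsb
    · rcases cases3 y with hy | hy | hy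
      · rw [Φ1 y hy, Φ2 x hx]
        have h1 : x ≤ y ↔ x ⊔ s ≤ y := by
          rw [sup_le_iff]
          exact ⟨fun h2 => ⟨h2, hy⟩, fun h2 => h2.1⟩
        rw [h1, hφ.iff _ _ le_sup_right hy, Tree.le_def, Tree.le_def, lev0 x hx]
        simp only [List.length_append, List.length_singleton]
        have h2 := lcp_append_singleton (φ (x ⊔ s)).word (φ y).word (ℓ x)
        omega
      · rw [Φ2 x hx, Φ2 y hy]
        exact ⟨fun h1 => ordC2 y hy x hx hy h1, fun h1 => ordC1 y hy x hx hy h1⟩
      · subst hy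
        rw [Φ2 x hx, Φ3]
        constructor
        · intro h1
          have := Tree.ht_le h1
          simp [Tree.ht] at this
        · intro h1
          exact absurd (le_bot_iff.1 h1) hx.1
    · subst hx
      rw [Φ3]
      simp
  have hle : ∀ x, Φ x ≤ Tree.base p c (m + 1) := by
    intro x
    rcases cases3 x with hx | hx | hx
    · rw [Φ1 x hx]
      have h1 := hφ.le x hx
      rw [Tree.le_def] at h1 ⊢
      simp only [Tree.base] at h1 ⊢
      omega
    · rw [Φ2 x hx]
      have h1 := hφ.le (x ⊔ s) le_sup_right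
      rw [Tree.le_def] at h1 ⊢
      simp only [Tree.base, List.length_append, List.length_singleton] at h1 ⊢
      have h2 := lcp_append_singleton (φ (x ⊔ s)).word (List.replicate c 0) (ℓ x)
      have h3 := lev0 x hx
      omega
    · subst hx
      rw [Φ3]
      exact bot_le
  have hsurj : ∀ t, t ≤ Tree.base p c (m + 1) → ∃ x, Φ x = t := by
    intro t ht
    have ht' := ht
    rw [Tree.le_def] at ht'
    simp only [Tree.base] at ht'
    rcases Nat.eq_zero_or_pos t.lev with h1 | h1
    · rcases List.eq_nil_or_concat' t.word with h2 | ⟨v, a, h2⟩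
      · refine ⟨⊥, ?_⟩
        rw [Φ3]
        ext1
        · exact h2.symm
        · exact h1.symm
      · have hok : Ok p (v ++ [a]) := h2 ▸ t.ok
        have h3 : (⟨v, hok.init, 0⟩ : Tree p) ≤ Tree.base p c m := by
          rw [Tree.le_def]
          simp only [Tree.base]
          rw [h2] at ht'
          have h4 := lcp_append_singleton v (List.replicate c 0) a
          simp only [List.length_append, List.length_singleton] at ht'
          omega
        obtain ⟨y, hy, hy'⟩ := hφ.surj _ h3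
        have h4 : (φ y).lev = 0 := by rw [hy']
        have h5 : a < bound p (φ y).word := by
          rw [lt_bound_iff (φ y).ok, hy']
          exact hok
        obtain ⟨x, hx, hxy, hxa⟩ := P3 y hy h4 a h5
        refine ⟨x, ?_⟩
        rw [Φ2 x hx]
        ext1
        · simp only
          rw [hxy, hxa, hy', h2]
        · exact h1.symm
    · have h3 : (⟨t.word, t.ok, t.lev - 1⟩ : Tree p) ≤ Tree.base p c m := by
        rw [Tree.le_def]
        simp only [Tree.base]
        omega
      obtain ⟨y, hy, hy'⟩ := hφ.surj _ h3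
      refine ⟨y, ?_⟩
      rw [Φ1 y hy]
      ext1
      · simp only; rw [hy']
      · simp only; rw [hy']; simp only; omega
  refine ⟨RelIso.ofSurjective (OrderEmbedding.ofMapLEIff
    (fun x => (⟨Φ x, hle x⟩ : Set.Iic (Tree.base p c (m + 1)))) ?_) ?_⟩
  · intro x y
    exact key x y
  · rintro ⟨t, ht⟩
    obtain ⟨x, hx⟩ := hsurj t ht
    exact ⟨x, Subtype.ext hx⟩

end Pool.Agent.Helper20.SD
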