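import Pool.Agent.Helper20.SD.Extend2

/-!
# Finite lattices with the covering conditions
-/

namespace Pool.Agent.Helper20.SD

universe u

variable {p : ℕ}

theorem Tree.eq_base_of_le {c : ℕ} {t : Tree p} (h : t ≤ Tree.base p c 0) :
    ∃ i ≤ c, t = Tree.base p i 0 := by
  have h' := h
  rw [Tree.le_def] at h
  simp only [Tree.base, zero_add] at h
  have h1 := lcp_le_left t.word (List.replicate c 0)
  have h2 := lcp_le_right t.word (List.replicate c 0)
  have h3 : t.word = (List.replicate c 0).take t.word.length := eq_take_of_lcp (by omega)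
  rw [List.length_replicate] at h2
  refine ⟨t.word.length, by omega, ?_⟩
  ext1
  · rw [h3, List.take_replicate, Nat.min_eq_left (by omega)]
    simp [Tree.base]
  · simp only [Tree.base]
    omega

theorem chain_iso (p : ℕ) {M : Type u} [Lattice M] [Nonempty M] [Finite M]
    (h : ∀ x y : M, x ≤ y ∨ y ≤ x) : ∃ c, Nonempty (M ≃o Set.Iic (Tree.base p c 0)) := by
  classical
  let _ : Fintype M := Fintype.ofFinite M
  let _ : LinearOrder M :=
    { (inferInstance : Lattice M) with
      le_total := h
      toDecidableLE := Classical.decRel _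
      toDecidableEq := Classical.decRel _
      toDecidableLT := Classical.decRel _
      min := (· ⊓ ·)
      max := (· ⊔ ·)
      min_def := fun a b => by
        split_ifs with h1
        · exact inf_eq_left.2 h1
        · exact inf_eq_right.2 ((h a b).resolve_left h1)
      max_def := fun a b => by
        split_ifs with h1
        · exact sup_eq_right.2 h1
        · exact sup_eq_left.2 ((h a b).resolve_left h1)
      compare_eq_compareOfLessAndEq := fun _ _ => rfl }
  obtain ⟨c, hc⟩ : ∃ c, Fintype.card M = c + 1 :=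
    ⟨Fintype.card M - 1, by have := Fintype.card_pos (α := M); omega⟩
  let e : Fin (c + 1) ≃o M := Fintype.orderIsoFinOfCardEq M hc
  refine ⟨c, ⟨e.symm.trans ?_⟩⟩
  refine StrictMono.orderIsoOfSurjective
    (fun i => (⟨Tree.base p i 0, Tree.base_le_base.2 (by omega)⟩ : Set.Iic (Tree.base p c 0)))
    ?_ ?_
  · intro i j hij
    have hij' : (i : ℕ) < j := hij
    rw [lt_iff_le_not_ge]
    constructor
    · change Tree.base p i 0 ≤ Tree.base p j 0
      rw [Tree.base_le_base]; omega
    · change ¬ Tree.base p j 0 ≤ Tree.base p i 0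
      rw [Tree.base_le_base]; omega
  · rintro ⟨t, ht⟩
    obtain ⟨i, hi, rfl⟩ := Tree.eq_base_of_le ht
    exact ⟨⟨i, by omega⟩, rfl⟩

theorem exists_iso_of_finite_aux (p : ℕ) : ∀ (n : ℕ) (M : Type u) [Lattice M]
    [IsModularLattice M] [BoundedOrder M] [Finite M], Nat.card M ≤ n → PQ p M →
    ∃ c m, Nonempty (M ≃o Set.Iic (Tree.base p c m)) := by
  intro n
  induction n with
  | zero =>
    intro M _ _ _ _ hn _
    have : 0 < Nat.card M := Nat.card_pos
    omega
  | succ n ih =>
    intro M _ _ _ _ hn h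
    by_cases hch : ∀ x y : M, x ≤ y ∨ y ≤ x
    · obtain ⟨c, hc⟩ := chain_iso p hch
      exact ⟨c, 0, hc⟩
    · have h2 : ∃ a b : M, ⊥ ⋖ a ∧ ⊥ ⋖ b ∧ a ≠ b := by
        by_contra hcon
        push Not at hcon
        exact hch fun x y => h.up_chain ⊥ ⊤ (fun u v hu _ hv _ => hcon u v hu hv) x y
          bot_le le_top bot_le le_top
      obtain ⟨a, b, ha, hb, hab⟩ := h2
      have hs := h.soc ha hb hab
      set s := a ⊔ b
      have hcard : Nat.card (Set.Ici s) < Nat.card M := by
        rw [Nat.card_coe_set_eq, ← Set.ncard_univ]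
        apply Set.ncard_lt_ncard _ Set.finite_univ
        rw [Set.ssubset_univ_iff]
        intro h3
        have h4 : (⊥ : M) ∈ Set.Ici s := h3 ▸ Set.mem_univ _
        exact absurd ((hs.le a ha).trans h4) ha.lt.not_ge
      obtain ⟨c, m, ⟨e⟩⟩ := ih (Set.Ici s) (by omega) (h.ici s)
      classical
      let φ : M → Tree p := fun y => if hy : s ≤ y then (e ⟨y, hy⟩ : Tree p) else ⊥
      have hφ' : ∀ y, (hy : s ≤ y) → φ y = (e ⟨y, hy⟩ : Tree p) := fun y hy => dif_pos hy
      have hφ : Coord s c m φ := by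
        refine ⟨?_, ?_, ?_⟩
        · intro y hy
          rw [hφ' y hy]
          exact (e ⟨y, hy⟩).2
        · intro y z hy hz
          rw [hφ' y hy, hφ' z hz]
          exact (e.le_iff_le (x := ⟨y, hy⟩) (y := ⟨z, hz⟩)).symm
        · intro t ht
          refine ⟨e.symm ⟨t, ht⟩, (e.symm ⟨t, ht⟩).2, ?_⟩
          rw [hφ' _ (e.symm ⟨t, ht⟩).2]
          have : (⟨(e.symm ⟨t, ht⟩ : M), (e.symm ⟨t, ht⟩).2⟩ : Set.Ici s) = e.symm ⟨t, ht⟩ := rfl
          rw [this, e.apply_symm_apply]
      exact ⟨c, m + 1, extend hs h hφ⟩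

/-- a finite modular lattice with the covering conditions is an interval of the tree lattice -/
theorem exists_iso_of_finite {M : Type u} [Lattice M] [IsModularLattice M] [BoundedOrder M]
    [Finite M] (h : PQ p M) : ∃ c m, Nonempty (M ≃o Set.Iic (Tree.base p c m)) :=
  exists_iso_of_finite_aux p _ M le_rfl h

end Pool.Agent.Helper20.SD
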