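import Pool.Agent.Helper20.SD.Decomp2

/-!
# From (SD) to the covering conditions
-/

namespace Pool.Agent.Helper20.SD

variable {L : Type*} [Lattice L] [OrderBot L]

/-- an upper interval is mapped isomorphically onto an ideal -/
theorem interval_map (hSD : SD L) {x t : L} (hxt : x ≤ t) : ∃ u ≤ t, ∃ g : L → L,
    (∀ v, x ≤ v → v ≤ t → g v ≤ u) ∧
    (∀ v w, x ≤ v → v ≤ t → x ≤ w → w ≤ t → (g v ≤ g w ↔ v ≤ w)) ∧
    (∀ s ≤ u, ∃ v, x ≤ v ∧ v ≤ t ∧ g v = s) := by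
  classical
  obtain ⟨u, _, hut, ⟨e⟩⟩ := interval_ideal L hSD ⊥ x t bot_le hxt
  refine ⟨u, hut, fun v => if h : v ∈ Set.Icc x t then (e ⟨v, h⟩ : L) else v, ?_, ?_, ?_⟩
  · intro v h1 h2
    simp only [dif_pos (show v ∈ Set.Icc x t from ⟨h1, h2⟩)]
    exact (e _).2.2
  · intro v w h1 h2 h3 h4
    simp only [dif_pos (show v ∈ Set.Icc x t from ⟨h1, h2⟩),
      dif_pos (show w ∈ Set.Icc x t from ⟨h3, h4⟩), Subtype.coe_le_coe, e.le_iff_le]
    exact Iff.rfl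
  · intro s hs
    refine ⟨e.symm ⟨s, bot_le, hs⟩, (e.symm _).2.1, (e.symm _).2.2, ?_⟩
    simp only [dif_pos (e.symm ⟨s, bot_le, hs⟩).2]
    exact congrArg Subtype.val (e.apply_symm_apply ⟨s, bot_le, hs⟩)

/-- covers of `x` inside an interval correspond to atoms of an ideal -/
theorem cover_map (hSD : SD L) {x t : L} (hxt : x ≤ t) : ∃ u ≤ t, ∃ g : L → L,
    (∀ v, x ≤ v → v ≤ t → g v ≤ u) ∧
    (∀ v w, x ≤ v → v ≤ t → x ≤ w → w ≤ t → (g v ≤ g w ↔ v ≤ w)) ∧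
    (∀ v, x ⋖ v → v ≤ t → ⊥ ⋖ g v) ∧
    (∀ s ≤ u, ⊥ ⋖ s → ∃ v, x ⋖ v ∧ v ≤ t ∧ g v = s) ∧
    (∀ s ≤ u, ∃ v, x ≤ v ∧ v ≤ t ∧ g v = s) := by
  obtain ⟨u, hut, g, h1, h2, h3⟩ := interval_map hSD hxt
  have hbot : g x = ⊥ := by
    obtain ⟨v, hv, hvt, hv0⟩ := h3 ⊥ bot_le
    rw [← le_bot_iff, ← hv0]
    exact (h2 x v le_rfl hxt hv hvt).2 hv
  refine ⟨u, hut, g, h1, h2, ?_, ?_, h3⟩
  · intro v hv hvt
    refine ⟨?_, ?_⟩
    · rw [bot_lt_iff_ne_bot, ← hbot]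
      intro h
      exact hv.lt.not_ge ((h2 v x hv.le hvt le_rfl hxt).1 h.le)
    · intro c hc hc'
      obtain ⟨d, hd, hdt, rfl⟩ := h3 c (hc'.le.trans (h1 v hv.le hvt))
      have h4 : d ≤ v := (h2 d v hd hdt hv.le hvt).1 hc'.le
      rcases hv.eq_or_eq hd h4 with h5 | h5
      · rw [h5, hbot] at hc; exact lt_irrefl _ hc
      · rw [h5] at hc'; exact lt_irrefl _ hc'
  · intro s hs hs0
    obtain ⟨v, hv, hvt, rfl⟩ := h3 s hs
    refine ⟨v, ⟨lt_of_le_of_ne hv ?_, ?_⟩, hvt, rfl⟩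
    · rintro rfl
      exact hs0.ne hbot.symm
    · intro c hc hc'
      have hct : c ≤ t := hc'.le.trans hvt
      have h4 : ⊥ < g c := by
        rw [bot_lt_iff_ne_bot, ← hbot]
        intro h
        exact hc.not_ge ((h2 c x hc.le hct le_rfl hxt).1 h.le)
      have h5 : g c < g v := by
        refine lt_of_le_not_ge ((h2 c v hc.le hct hv hvt).2 hc'.le) ?_
        intro h
        exact hc'.not_ge ((h2 v c hv hvt hc.le hct).1 h)
      exact hs0.2 h4 h5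

/-- a principal ideal has an anti-automorphism -/
theorem dual_map (hSD : SD L) (t : L) : ∃ f : L → L,
    (∀ v ≤ t, f v ≤ t) ∧ (∀ v w, v ≤ t → w ≤ t → (f v ≤ f w ↔ w ≤ v)) ∧
    (∀ s ≤ t, ∃ v ≤ t, f v = s) := by
  classical
  obtain ⟨e⟩ := hSD ⊥ t bot_le
  refine ⟨fun v => if h : v ≤ t then
    ((OrderDual.ofDual (e ⟨v, bot_le, h⟩) : Set.Icc ⊥ t) : L) else v, ?_, ?_, ?_⟩
  · intro v hv
    simp only [dif_pos hv]
    exact (OrderDual.ofDual (e ⟨v, bot_le, hv⟩)).2.2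
  · intro v w hv hw
    simp only [dif_pos hv, dif_pos hw, Subtype.coe_le_coe]
    exact e.le_iff_le (x := ⟨w, bot_le, hw⟩) (y := ⟨v, bot_le, hv⟩)
  · intro s hs
    refine ⟨e.symm (OrderDual.toDual ⟨s, bot_le, hs⟩), (e.symm _).2.2, ?_⟩
    simp only [dif_pos (e.symm (OrderDual.toDual ⟨s, bot_le, hs⟩)).2.2]
    exact congrArg (fun z => ((OrderDual.ofDual z : Set.Icc ⊥ t) : L))
      (e.apply_symm_apply (OrderDual.toDual ⟨s, bot_le, hs⟩))

/-- coatoms of an ideal correspond to its atoms -/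
theorem cocover_map (hSD : SD L) (t : L) : ∃ f : L → L,
    (∀ v ≤ t, f v ≤ t) ∧ (∀ v w, v ≤ t → w ≤ t → (f v ≤ f w ↔ w ≤ v)) ∧
    (∀ v, v ⋖ t → ⊥ ⋖ f v) ∧ (∀ s ≤ t, ⊥ ⋖ s → ∃ v, v ⋖ t ∧ f v = s) ∧
    (∀ s ≤ t, ∃ v ≤ t, f v = s) := by
  obtain ⟨f, h1, h2, h3⟩ := dual_map hSD t
  have hbot : f t = ⊥ := by
    obtain ⟨v, hv, hv0⟩ := h3 ⊥ bot_le
    rw [← le_bot_iff, ← hv0]
    exact (h2 t v le_rfl hv).2 hv
  refine ⟨f, h1, h2, ?_, ?_, h3⟩
  · intro v hv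
    refine ⟨?_, ?_⟩
    · rw [bot_lt_iff_ne_bot, ← hbot]
      intro h
      exact hv.lt.not_ge ((h2 v t hv.le le_rfl).1 h.le)
    · intro c hc hc'
      obtain ⟨d, hd, rfl⟩ := h3 c (hc'.le.trans (h1 v hv.le))
      have h4 : v ≤ d := (h2 d v hd hv.le).1 hc'.le
      rcases hv.eq_or_eq h4 hd with h5 | h5
      · rw [h5] at hc'; exact lt_irrefl _ hc'
      · rw [h5, hbot] at hc; exact lt_irrefl _ hc
  · intro s hs hs0
    obtain ⟨v, hv, rfl⟩ := h3 s hs
    refine ⟨v, ⟨lt_of_le_of_ne hv ?_, ?_⟩, rfl⟩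
    · rintro rfl
      exact hs0.ne hbot.symm
    · intro c hc hc'
      have h4 : ⊥ < f c := by
        rw [bot_lt_iff_ne_bot, ← hbot]
        intro h
        exact hc'.not_ge ((h2 c t hc'.le le_rfl).1 h.le)
      have h5 : f c < f v := by
        refine lt_of_le_not_ge ((h2 c v hc'.le hv).2 hc.le) ?_
        intro h
        exact hc.not_ge ((h2 v c hv hc'.le).1 h)
      exact hs0.2 h4 h5

/-- if all atoms lie below the join of any two of them, the covering conditions hold -/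
theorem pq_of_atoms (hf : Finitary L) (hSD : SD L) (hfc : {a : L | ⊥ ⋖ a}.Finite)
    (hpl : ∀ a b c : L, ⊥ ⋖ a → ⊥ ⋖ b → ⊥ ⋖ c → a ≠ b → c ≤ a ⊔ b) :
    PQ ({a : L | ⊥ ⋖ a}.ncard - 2) L := by
  have two : ∀ a b : L, ⊥ ⋖ a → ⊥ ⋖ b → a ≠ b → {a : L | ⊥ ⋖ a}.ncard - 2 + 2 =
      {a : L | ⊥ ⋖ a}.ncard := by
    intro a b ha hb hab
    have h1 : ({a, b} : Set L) ⊆ {a : L | ⊥ ⋖ a} := by
      intro c hc
      rcases hc with rfl | rfl
      · exact ha
      · exact hb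
    have h2 := Set.ncard_le_ncard h1 hfc
    rw [Set.ncard_pair hab] at h2
    omega
  have uple : ∀ x y z w : L, x ⋖ y → x ⋖ z → y ≠ z → x ⋖ w → w ≤ y ⊔ z := by
    intro x y z w hy hz hyz hw
    obtain ⟨u, _, g, h1, h2, h3, h4, h5⟩ := cover_map hSD (x := x) (t := (y ⊔ z) ⊔ w)
      (hy.le.trans (le_sup_left.trans le_sup_left))
    have hyt : y ≤ (y ⊔ z) ⊔ w := le_sup_left.trans le_sup_left
    have hzt : z ≤ (y ⊔ z) ⊔ w := le_sup_right.trans le_sup_left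
    have hyzt : y ⊔ z ≤ (y ⊔ z) ⊔ w := le_sup_left
    have hxyz : x ≤ y ⊔ z := hy.le.trans le_sup_left
    have hne : g y ≠ g z := by
      intro h
      exact hyz (le_antisymm ((h2 y z hy.le hyt hz.le hzt).1 h.le)
        ((h2 z y hz.le hzt hy.le hyt).1 h.ge))
    have h6 := hpl _ _ _ (h3 y hy hyt) (h3 z hz hzt) (h3 w hw le_sup_right) hne
    have h7 : g y ⊔ g z ≤ g (y ⊔ z) := sup_le
      ((h2 _ _ hy.le hyt hxyz hyzt).2 le_sup_left) ((h2 _ _ hz.le hzt hxyz hyzt).2 le_sup_right)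
    exact (h2 w (y ⊔ z) hw.le le_sup_right hxyz hyzt).1 (h6.trans h7)
  have dnle : ∀ x y z w : L, y ⋖ x → z ⋖ x → y ≠ z → w ⋖ x → y ⊓ z ≤ w := by
    intro x y z w hy hz hyz hw
    obtain ⟨f, h1, h2, h3, h4, h5⟩ := cocover_map hSD x
    have hne : f y ≠ f z := by
      intro h
      exact hyz (le_antisymm ((h2 z y hz.le hy.le).1 h.ge) ((h2 y z hy.le hz.le).1 h.le))
    have hyz' : y ⊓ z ≤ x := inf_le_left.trans hy.le
    have h6 := hpl _ _ _ (h3 y hy) (h3 z hz) (h3 w hw) hne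
    have h7 : f y ⊔ f z ≤ f (y ⊓ z) := sup_le ((h2 _ _ hy.le hyz').2 inf_le_left)
      ((h2 _ _ hz.le hyz').2 inf_le_right)
    exact (h2 w (y ⊓ z) hw.le hyz').1 (h6.trans h7)
  have hicc : ∀ x y : L, (Set.Icc x y).Finite := fun x y => (hf y).subset fun z hz => hz.2
  refine ⟨?_, uple, ?_, dnle, ?_, ?_⟩
  · intro x y z hy hz hyz
    obtain ⟨u, _, g, h1, h2, h3, h4, h5⟩ := cover_map hSD (x := x) (t := y ⊔ z)
      (hy.le.trans le_sup_left)
    have hne : g y ≠ g z := by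
      intro h
      exact hyz (le_antisymm ((h2 y z hy.le le_sup_left hz.le le_sup_right).1 h.le)
        ((h2 z y hz.le le_sup_right hy.le le_sup_left).1 h.ge))
    have hay := h3 y hy le_sup_left
    have haz := h3 z hz le_sup_right
    rw [two _ _ hay haz hne]
    symm
    have himg : g '' {w | x ⋖ w} = {a : L | ⊥ ⋖ a} := by
      ext a
      constructor
      · rintro ⟨w, hw, rfl⟩
        exact h3 w hw (uple x y z w hy hz hyz hw)
      · intro ha
        obtain ⟨w, hw, _, hwa⟩ := h4 a ((hpl _ _ a hay haz ha hne).trans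
          (sup_le (h1 y hy.le le_sup_left) (h1 z hz.le le_sup_right))) ha
        exact ⟨w, hw, hwa⟩
    rw [← himg]
    apply Set.InjOn.ncard_image
    intro w hw w' hw' hww
    have e1 := uple x y z w hy hz hyz hw
    have e2 := uple x y z w' hy hz hyz hw'
    exact le_antisymm ((h2 w w' (CovBy.le hw) e1 (CovBy.le hw') e2).1 (le_of_eq hww))
      ((h2 w' w (CovBy.le hw') e2 (CovBy.le hw) e1).1 (le_of_eq hww.symm))
  · intro x y z hy hz hyz
    obtain ⟨f, h1, h2, h3, h4, h5⟩ := cocover_map hSD x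
    have hne : f y ≠ f z := by
      intro h
      exact hyz (le_antisymm ((h2 z y hz.le hy.le).1 h.ge) ((h2 y z hy.le hz.le).1 h.le))
    have hay := h3 y hy
    have haz := h3 z hz
    rw [two _ _ hay haz hne]
    symm
    have himg : f '' {w | w ⋖ x} = {a : L | ⊥ ⋖ a} := by
      ext a
      constructor
      · rintro ⟨w, hw, rfl⟩
        exact h3 w hw
      · intro ha
        obtain ⟨w, hw, hwa⟩ := h4 a ((hpl _ _ a hay haz ha hne).trans
          (sup_le (h1 y hy.le) (h1 z hz.le))) ha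
        exact ⟨w, hw, hwa⟩
    rw [← himg]
    apply Set.InjOn.ncard_image
    intro w hw w' hw' hww
    exact le_antisymm ((h2 w' w (CovBy.le hw') (CovBy.le hw)).1 (le_of_eq hww.symm))
      ((h2 w w' (CovBy.le hw) (CovBy.le hw')).1 (le_of_eq hww))
  · intro x y huniq u v hxu huy hxv hvy
    rcases (hxu.trans huy).eq_or_lt with h | h
    · left
      rw [← h] at huy
      exact huy.trans hxv
    have hm : MeetIrredBelow x y := by
      refine ⟨h, ?_⟩
      intro a b hay hby hab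
      by_contra hcon
      push Not at hcon
      have hxa : x < a := lt_of_le_of_ne (hab ▸ inf_le_left) hcon.1.symm
      have hxb : x < b := lt_of_le_of_ne (hab ▸ inf_le_right) hcon.2.symm
      obtain ⟨c, hc, hca⟩ := hf.exists_covBy_le hxa
      obtain ⟨d, hd, hdb⟩ := hf.exists_covBy_le hxb
      have hcd := huniq c d hc (hca.trans hay) hd (hdb.trans hby)
      have h8 : c ≤ x := hab ▸ le_inf hca (hcd ▸ hdb)
      exact hc.lt.not_ge h8
    exact ((semi_primary L hicc hSD x y).2.1 hm).2 u v ⟨hxu, huy⟩ ⟨hxv, hvy⟩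
  · intro x y huniq u v hxu huy hxv hvy
    rcases (hxu.trans huy).eq_or_lt with h | h
    · left
      rw [← h] at huy
      exact huy.trans hxv
    have hj : JoinIrredAbove x y := by
      refine ⟨h, ?_⟩
      intro a b hxa hxb hab
      by_contra hcon
      push Not at hcon
      have hay : a < y := lt_of_le_of_ne (hab ▸ le_sup_left) hcon.1
      have hby : b < y := lt_of_le_of_ne (hab ▸ le_sup_right) hcon.2
      obtain ⟨c, hc, hca⟩ := hf.exists_le_covBy hay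
      obtain ⟨d, hd, hdb⟩ := hf.exists_le_covBy hby
      have hcd := huniq c d hca (hxa.trans hc) hdb (hxb.trans hd)
      have h8 : y ≤ c := hab ▸ sup_le hc (hcd ▸ hd)
      exact hca.lt.not_ge h8
    exact ((semi_primary L hicc hSD x y).1.1 hj).2 u v ⟨hxu, huy⟩ ⟨hxv, hvy⟩

end Pool.Agent.Helper20.SD
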