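import Pool.Agent.Helper20.SD.Classify

/-!
# The order of a connected part
-/

namespace Pool.Agent.Helper20.SD

universe u

/-- every interval of length two which is not a chain has exactly `q + 1` atoms -/
def HasOrder (q : ℕ) (M : Type*) [Lattice M] : Prop :=
  ∀ x y z : M, x ⋖ y → x ⋖ z → y ≠ z → {w | x ⋖ w ∧ w ≤ y ⊔ z}.ncard = q + 1

variable {L : Type u} [Lattice L] [OrderBot L]

omit [OrderBot L] in
theorem icc_cov {a b : L} (z w : Set.Icc a b) : (z : L) ⋖ (w : L) ↔ z ⋖ w := by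
  have h : (Set.range (OrderEmbedding.subtype fun z => z ∈ Set.Icc a b)).OrdConnected := by
    have : Set.range (OrderEmbedding.subtype fun z => z ∈ Set.Icc a b) = Set.Icc a b :=
      Subtype.range_coe
    rw [this]; exact Set.ordConnected_Icc
  have h2 := h.apply_covBy_apply_iff (OrderEmbedding.subtype fun z => z ∈ Set.Icc a b)
    (a := z) (b := w)
  exact h2

omit [OrderBot L] in
/-- isomorphic intervals have the same number of atoms -/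
theorem ncard_covers_of_iso {x y x' y' : L} (hxy : x ≤ y) (hxy' : x' ≤ y')
    (e : Set.Icc x y ≃o Set.Icc x' y') :
    {w | x ⋖ w ∧ w ≤ y}.ncard = {w | x' ⋖ w ∧ w ≤ y'}.ncard := by
  have hx : e ⟨x, le_rfl, hxy⟩ = ⟨x', le_rfl, hxy'⟩ := by
    apply le_antisymm
    · rw [← e.symm_apply_apply ⟨x, le_rfl, hxy⟩, e.apply_symm_apply, ← e.symm.le_iff_le,
        e.symm_apply_apply]
      exact (e.symm _).2.1
    · exact (e _).2.1
  have hc1 : ∀ w : Set.Icc x y, x ⋖ (w : L) ↔ (⟨x, le_rfl, hxy⟩ : Set.Icc x y) ⋖ w := fun w =>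
    icc_cov ⟨x, le_rfl, hxy⟩ w
  have hc2 : ∀ w : Set.Icc x' y', x' ⋖ (w : L) ↔ (⟨x', le_rfl, hxy'⟩ : Set.Icc x' y') ⋖ w :=
    fun w => icc_cov ⟨x', le_rfl, hxy'⟩ w
  refine Set.ncard_congr (fun w hw => (e ⟨w, hw.1.le, hw.2⟩ : L)) ?_ ?_ ?_
  · intro w hw
    refine ⟨?_, (e _).2.2⟩
    rw [hc2, ← hx, apply_covBy_apply_iff e, ← hc1]
    exact hw.1
  · intro w w' hw hw' h
    have := e.injective (Subtype.ext h)
    exact congrArg Subtype.val this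
  · intro w hw
    have h1 : (⟨x', le_rfl, hxy'⟩ : Set.Icc x' y') ⋖ ⟨w, hw.1.le, hw.2⟩ := (hc2 _).1 hw.1
    rw [← hx, ← e.apply_symm_apply ⟨w, hw.1.le, hw.2⟩, apply_covBy_apply_iff e, ← hc1] at h1
    refine ⟨e.symm ⟨w, hw.1.le, hw.2⟩, ⟨h1, (e.symm _).2.2⟩, ?_⟩
    exact congrArg Subtype.val (e.apply_symm_apply ⟨w, hw.1.le, hw.2⟩)

variable [IsModularLattice L]

theorem line_aux (hlink : ∀ a b : L, ⊥ ⋖ a → ⊥ ⋖ b → Persp a b) {a b c : L} (ha : ⊥ ⋖ a)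
    (hb : ⊥ ⋖ b) (hc : ⊥ ⋖ c) (hba : b ≠ a) (hca : c ≠ a) :
    {w | ⊥ ⋖ w ∧ w ≤ a ⊔ b}.ncard = {w | ⊥ ⋖ w ∧ w ≤ a ⊔ c}.ncard := by
  by_cases h : c ≤ a ⊔ b
  · rw [atom_exch ha hb hc hca h]
  have hbc : b ≠ c := by
    rintro rfl
    exact h le_sup_right
  rcases hlink b c hb hc with h1 | ⟨z, hz, hzb, hzc, hz'⟩
  · exact absurd h1 hbc
  have e3 : b ⊔ z = b ⊔ c := atom_exch hb hc hz hzb hz'
  have e4 : c ⊔ z = c ⊔ b := atom_exch hc hb hz hzc (by rwa [sup_comm])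
  have hzab : ¬ z ≤ a ⊔ b := by
    intro h1
    apply h
    calc c ≤ b ⊔ c := le_sup_right
      _ = b ⊔ z := e3.symm
      _ ≤ a ⊔ b := sup_le le_sup_right h1
  have hbac : ¬ b ≤ a ⊔ c := by
    intro h1
    have := atom_exch ha hc hb hba h1
    exact h (this ▸ le_sup_right)
  have hzac : ¬ z ≤ a ⊔ c := by
    intro h1
    apply hbac
    calc b ≤ c ⊔ b := le_sup_right
      _ = c ⊔ z := e4.symm
      _ ≤ a ⊔ c := sup_le le_sup_right h1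
  have h1 : (a ⊔ b) ⊓ z = ⊥ := by rw [inf_comm]; exact atom_inf hz hzab
  have h2 : (a ⊔ c) ⊓ z = ⊥ := by rw [inf_comm]; exact atom_inf hz hzac
  have h3 : (a ⊔ b) ⊔ z = (a ⊔ c) ⊔ z := by
    rw [sup_assoc, e3, sup_assoc, e4, sup_comm c b]
  have i1 := infIccOrderIsoIccSup (a ⊔ b) z
  have i2 := infIccOrderIsoIccSup (a ⊔ c) z
  rw [h1] at i1
  rw [h2] at i2
  rw [h3] at i1
  exact ncard_covers_of_iso bot_le bot_le (i1.trans i2.symm)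

theorem line_card (hlink : ∀ a b : L, ⊥ ⋖ a → ⊥ ⋖ b → Persp a b) {a b c d : L} (ha : ⊥ ⋖ a)
    (hb : ⊥ ⋖ b) (hc : ⊥ ⋖ c) (hd : ⊥ ⋖ d) (hab : a ≠ b) (hcd : c ≠ d) :
    {w | ⊥ ⋖ w ∧ w ≤ a ⊔ b}.ncard = {w | ⊥ ⋖ w ∧ w ≤ c ⊔ d}.ncard := by
  by_cases hda : d = a
  · subst hda
    rw [line_aux hlink hd hb hc hab.symm hcd, sup_comm]
  · rw [line_aux hlink ha hb hd hab.symm hda, sup_comm a d,
      line_aux hlink hd ha hc (Ne.symm hda) hcd, sup_comm d c]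

/-- a connected part has an order `q ≥ 2` -/
theorem exists_order (hfc : {a : L | ⊥ ⋖ a}.Finite) (hSD : SD L)
    (hlink : ∀ a b : L, ⊥ ⋖ a → ⊥ ⋖ b → Persp a b) : ∃ q, 2 ≤ q ∧ HasOrder q L := by
  classical
  have key : ∀ x y z : L, x ⋖ y → x ⋖ z → y ≠ z → ∃ a b : L, ⊥ ⋖ a ∧ ⊥ ⋖ b ∧ a ≠ b ∧
      {w | x ⋖ w ∧ w ≤ y ⊔ z}.ncard = {w | ⊥ ⋖ w ∧ w ≤ a ⊔ b}.ncard := by
    intro x y z hy hz hyz
    have hxt : x ≤ y ⊔ z := hy.le.trans le_sup_left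
    obtain ⟨u, hu0, hut, ⟨e⟩⟩ := interval_ideal L hSD ⊥ x (y ⊔ z) bot_le hxt
    obtain ⟨a, b, hau, hbu, ha, hb, hab⟩ : ∃ a b : Set.Icc ⊥ u, e ⟨y, hy.le, le_sup_left⟩ = a ∧
        e ⟨z, hz.le, le_sup_right⟩ = b ∧ ⊥ ⋖ (a : L) ∧ ⊥ ⋖ (b : L) ∧ a ≠ b := by
      have hx : e ⟨x, le_rfl, hxt⟩ = ⟨⊥, le_rfl, hu0⟩ := by
        apply le_antisymm
        · rw [← e.symm.le_iff_le, e.symm_apply_apply]
          exact (e.symm _).2.1
        · exact (e _).2.1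
      have hcov : ∀ w (hw : w ∈ Set.Icc x (y ⊔ z)), x ⋖ w → ⊥ ⋖ (e ⟨w, hw⟩ : L) := by
        intro w hw hxw
        have h1 : (⟨x, le_rfl, hxt⟩ : Set.Icc x (y ⊔ z)) ⋖ ⟨w, hw⟩ := (icc_cov _ _).1 hxw
        rw [← apply_covBy_apply_iff e, hx] at h1
        exact (icc_cov _ _).2 h1
      refine ⟨_, _, rfl, rfl, hcov _ _ hy, hcov _ _ hz, ?_⟩
      intro h
      exact hyz (congrArg Subtype.val (e.injective h))
    refine ⟨a, b, ha, hb, fun h => hab (Subtype.ext h), ?_⟩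
    have hsup : (a : L) ⊔ b = u := by
      apply le_antisymm
      · exact sup_le a.2.2 b.2.2
      · have h1 : e ⟨y ⊔ z, hxt, le_rfl⟩ ≤ a ⊔ b := by
          rw [← hau, ← hbu, ← e.map_sup]
          exact e.monotone le_rfl
        have h2 : (⟨u, hu0, le_rfl⟩ : Set.Icc ⊥ u) ≤ e ⟨y ⊔ z, hxt, le_rfl⟩ := by
          rw [← e.symm.le_iff_le, e.symm_apply_apply]
          exact (e.symm _).2.2
        exact h2.trans h1
    rw [hsup]
    exact ncard_covers_of_iso hxt hu0 e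
  by_cases h : ∃ a b : L, ⊥ ⋖ a ∧ ⊥ ⋖ b ∧ a ≠ b
  · obtain ⟨a, b, ha, hb, hab⟩ := h
    have hfin : {w | ⊥ ⋖ w ∧ w ≤ a ⊔ b}.Finite := hfc.subset fun w hw => hw.1
    have h3 : 3 ≤ {w | ⊥ ⋖ w ∧ w ≤ a ⊔ b}.ncard := by
      rcases hlink a b ha hb with h1 | ⟨c, hc, hca, hcb, hc'⟩
      · exact absurd h1 hab
      · have h4 : ({a, b, c} : Set L) ⊆ {w | ⊥ ⋖ w ∧ w ≤ a ⊔ b} := by
          intro w hw
          rcases hw with rfl | rfl | rfl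
          · exact ⟨ha, le_sup_left⟩
          · exact ⟨hb, le_sup_right⟩
          · exact ⟨hc, hc'⟩
        have h5 := Set.ncard_le_ncard h4 hfin
        have h6 : ({a, b, c} : Set L).ncard = 3 := by
          rw [Set.ncard_eq_three]
          exact ⟨_, _, _, hab, hca.symm, hcb.symm, rfl⟩
        omega
    refine ⟨{w | ⊥ ⋖ w ∧ w ≤ a ⊔ b}.ncard - 1, by omega, ?_⟩
    intro x y z hy hz hyz
    obtain ⟨c, d, hc, hd, hcd, h4⟩ := key x y z hy hz hyz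
    rw [h4, line_card hlink hc hd ha hb hcd hab]
    omega
  · refine ⟨2, le_rfl, ?_⟩
    intro x y z hy hz hyz
    obtain ⟨c, d, hc, hd, hcd, _⟩ := key x y z hy hz hyz
    exact absurd ⟨c, d, hc, hd, hcd⟩ h

end Pool.Agent.Helper20.SD
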