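import Pool.Agent.Helper20.SD.Tree

/-!
# The covering conditions `PQ p`

`PQ p M`: an element with two covers has exactly `p + 2` covers, all below the join of any two of
them; an interval whose bottom has at most one cover inside it is a chain; and dually.
-/

namespace Pool.Agent.Helper20.SD

/-- covering conditions -/
structure PQ (p : ℕ) (M : Type*) [Lattice M] : Prop where
  up_card : ∀ x y z : M, x ⋖ y → x ⋖ z → y ≠ z → {w | x ⋖ w}.ncard = p + 2
  up_le : ∀ x y z w : M, x ⋖ y → x ⋖ z → y ≠ z → x ⋖ w → w ≤ y ⊔ z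
  down_card : ∀ x y z : M, y ⋖ x → z ⋖ x → y ≠ z → {w | w ⋖ x}.ncard = p + 2
  down_le : ∀ x y z w : M, y ⋖ x → z ⋖ x → y ≠ z → w ⋖ x → y ⊓ z ≤ w
  up_chain : ∀ x y : M, (∀ u v, x ⋖ u → u ≤ y → x ⋖ v → v ≤ y → u = v) →
    ∀ u v, x ≤ u → u ≤ y → x ≤ v → v ≤ y → u ≤ v ∨ v ≤ u
  down_chain : ∀ x y : M, (∀ u v, u ⋖ y → x ≤ u → v ⋖ y → x ≤ v → u = v) →
    ∀ u v, x ≤ u → u ≤ y → x ≤ v → v ≤ y → u ≤ v ∨ v ≤ u

theorem PQ.comap {p : ℕ} {M L : Type*} [Lattice M] [Lattice L] (h : PQ p L) (f : M ↪o L)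
    (hs : ∀ a b, f (a ⊔ b) = f a ⊔ f b) (hi : ∀ a b, f (a ⊓ b) = f a ⊓ f b)
    (hc : (Set.range f).OrdConnected) : PQ p M := by
  have hcov : ∀ a b : M, f a ⋖ f b ↔ a ⋖ b := fun a b => hc.apply_covBy_apply_iff f
  have hmem : ∀ (a b : M) (w : L), f a ≤ w → w ≤ f b → ∃ v, f v = w := fun a b w h1 h2 =>
    hc.out ⟨a, rfl⟩ ⟨b, rfl⟩ ⟨h1, h2⟩
  refine ⟨?_, ?_, ?_, ?_, ?_, ?_⟩
  · intro x y z h1 h2 h3
    have e : f '' {w | x ⋖ w} = {w | f x ⋖ w} := by
      ext w
      constructor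
      · rintro ⟨v, hv, rfl⟩
        exact (hcov _ _).2 hv
      · intro hw
        have := h.up_le _ _ _ w ((hcov _ _).2 h1) ((hcov _ _).2 h2)
          (fun h4 => h3 (f.injective h4)) hw
        rw [← hs] at this
        obtain ⟨v, rfl⟩ := hmem x _ w hw.le this
        exact ⟨v, (hcov _ _).1 hw, rfl⟩
    rw [← Set.ncard_image_of_injective _ f.injective, e]
    exact h.up_card _ _ _ ((hcov _ _).2 h1) ((hcov _ _).2 h2) (fun h4 => h3 (f.injective h4))
  · intro x y z w h1 h2 h3 h4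
    rw [← f.le_iff_le, hs]
    exact h.up_le _ _ _ _ ((hcov _ _).2 h1) ((hcov _ _).2 h2)
      (fun h4 => h3 (f.injective h4)) ((hcov _ _).2 h4)
  · intro x y z h1 h2 h3
    have e : f '' {w | w ⋖ x} = {w | w ⋖ f x} := by
      ext w
      constructor
      · rintro ⟨v, hv, rfl⟩
        exact (hcov _ _).2 hv
      · intro hw
        have := h.down_le _ _ _ w ((hcov _ _).2 h1) ((hcov _ _).2 h2)
          (fun h4 => h3 (f.injective h4)) hw
        rw [← hi] at this
        obtain ⟨v, rfl⟩ := hmem _ x w this hw.le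
        exact ⟨v, (hcov _ _).1 hw, rfl⟩
    rw [← Set.ncard_image_of_injective _ f.injective, e]
    exact h.down_card _ _ _ ((hcov _ _).2 h1) ((hcov _ _).2 h2) (fun h4 => h3 (f.injective h4))
  · intro x y z w h1 h2 h3 h4
    rw [← f.le_iff_le, hi]
    exact h.down_le _ _ _ _ ((hcov _ _).2 h1) ((hcov _ _).2 h2)
      (fun h4 => h3 (f.injective h4)) ((hcov _ _).2 h4)
  · intro x y h1 u v h2 h3 h4 h5
    rw [← f.le_iff_le, ← f.le_iff_le (a := v)]
    refine h.up_chain (f x) (f y) ?_ _ _ (f.monotone h2) (f.monotone h3) (f.monotone h4)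
      (f.monotone h5)
    intro a b ha ha' hb hb'
    obtain ⟨a, rfl⟩ := hmem x y a ha.le ha'
    obtain ⟨b, rfl⟩ := hmem x y b hb.le hb'
    rw [h1 a b ((hcov _ _).1 ha) (f.le_iff_le.1 ha') ((hcov _ _).1 hb) (f.le_iff_le.1 hb')]
  · intro x y h1 u v h2 h3 h4 h5
    rw [← f.le_iff_le, ← f.le_iff_le (a := v)]
    refine h.down_chain (f x) (f y) ?_ _ _ (f.monotone h2) (f.monotone h3) (f.monotone h4)
      (f.monotone h5)
    intro a b ha ha' hb hb'
    obtain ⟨a, rfl⟩ := hmem x y a ha' ha.le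
    obtain ⟨b, rfl⟩ := hmem x y b hb' hb.le
    rw [h1 a b ((hcov _ _).1 ha) (f.le_iff_le.1 ha') ((hcov _ _).1 hb) (f.le_iff_le.1 hb')]

theorem PQ.dual {p : ℕ} {M : Type*} [Lattice M] (h : PQ p M) : PQ p Mᵒᵈ := by
  refine ⟨?_, ?_, ?_, ?_, ?_, ?_⟩
  · intro x y z h1 h2 h3
    have := h.down_card (OrderDual.ofDual x) (OrderDual.ofDual y) (OrderDual.ofDual z)
      h1.ofDual h2.ofDual h3
    have e : {w | x ⋖ w} = OrderDual.toDual '' {w | w ⋖ OrderDual.ofDual x} := by
      ext w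
      constructor
      · intro hw
        exact ⟨OrderDual.ofDual w, hw.ofDual, rfl⟩
      · rintro ⟨v, hv, rfl⟩
        exact hv.toDual
    rw [e, Set.ncard_image_of_injective _ OrderDual.toDual.injective]
    exact this
  · intro x y z w h1 h2 h3 h4
    exact h.down_le (OrderDual.ofDual x) (OrderDual.ofDual y) (OrderDual.ofDual z)
      (OrderDual.ofDual w) h1.ofDual h2.ofDual h3 h4.ofDual
  · intro x y z h1 h2 h3
    have := h.up_card (OrderDual.ofDual x) (OrderDual.ofDual y) (OrderDual.ofDual z)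
      h1.ofDual h2.ofDual h3
    have e : {w | w ⋖ x} = OrderDual.toDual '' {w | OrderDual.ofDual x ⋖ w} := by
      ext w
      constructor
      · intro hw
        exact ⟨OrderDual.ofDual w, hw.ofDual, rfl⟩
      · rintro ⟨v, hv, rfl⟩
        exact hv.toDual
    rw [e, Set.ncard_image_of_injective _ OrderDual.toDual.injective]
    exact this
  · intro x y z w h1 h2 h3 h4
    exact h.up_le (OrderDual.ofDual x) (OrderDual.ofDual y) (OrderDual.ofDual z)
      (OrderDual.ofDual w) h1.ofDual h2.ofDual h3 h4.ofDual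
  · intro x y h1 u v h2 h3 h4 h5
    have := h.down_chain (OrderDual.ofDual y) (OrderDual.ofDual x)
      (fun a b ha ha' hb hb' => h1 a b ha.toDual ha' hb.toDual hb') (OrderDual.ofDual v)
      (OrderDual.ofDual u) h5 h4 h3 h2
    exact this
  · intro x y h1 u v h2 h3 h4 h5
    have := h.up_chain (OrderDual.ofDual y) (OrderDual.ofDual x)
      (fun a b ha ha' hb hb' => h1 a b ha.toDual ha' hb.toDual hb') (OrderDual.ofDual v)
      (OrderDual.ofDual u) h5 h4 h3 h2
    exact this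

theorem PQ.icc {p : ℕ} {M : Type*} [Lattice M] (h : PQ p M) (x y : M) :
    PQ p (Set.Icc x y) :=
  h.comap (OrderEmbedding.subtype _) (fun _ _ => rfl) (fun _ _ => rfl)
    (by
      have : Set.range (OrderEmbedding.subtype fun z => z ∈ Set.Icc x y) = Set.Icc x y :=
        Subtype.range_coe
      rw [this]; exact Set.ordConnected_Icc)

theorem PQ.iic {p : ℕ} {M : Type*} [Lattice M] (h : PQ p M) (x : M) :
    PQ p (Set.Iic x) :=
  h.comap (OrderEmbedding.subtype _) (fun _ _ => rfl) (fun _ _ => rfl)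
    (by
      have : Set.range (OrderEmbedding.subtype fun z => z ∈ Set.Iic x) = Set.Iic x :=
        Subtype.range_coe
      rw [this]; exact Set.ordConnected_Iic)

theorem PQ.ici {p : ℕ} {M : Type*} [Lattice M] (h : PQ p M) (x : M) :
    PQ p (Set.Ici x) :=
  h.comap (OrderEmbedding.subtype _) (fun _ _ => rfl) (fun _ _ => rfl)
    (by
      have : Set.range (OrderEmbedding.subtype fun z => z ∈ Set.Ici x) = Set.Ici x :=
        Subtype.range_coe
      rw [this]; exact Set.ordConnected_Ici)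

theorem PQ.of_iso {p : ℕ} {M L : Type*} [Lattice M] [Lattice L] (h : PQ p L) (f : M ≃o L) :
    PQ p M :=
  h.comap f.toOrderEmbedding (fun a b => f.map_sup a b) (fun a b => f.map_inf a b)
    (by
      have : Set.range f.toOrderEmbedding = Set.univ := f.surjective.range_eq
      rw [this]; exact Set.ordConnected_univ)

end Pool.Agent.Helper20.SD
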