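import Pool.Agent.Helper20.SD.TreePQ

/-!
# The lattices `T p a b`
-/

namespace Pool.Agent.Helper20.SD

/-- `T p a b`: the ideal of the tree lattice generated by the elements `(0^(n-m), m)`,
`m ≤ n`, `m ≤ b`, `n ≤ a`. -/
def T (p : ℕ) (a b : ℕ∞) : Sublattice (Tree p) where
  carrier := {x | ∃ m n : ℕ, m ≤ n ∧ (m : ℕ∞) ≤ b ∧ (n : ℕ∞) ≤ a ∧ x ≤ Tree.base p (n - m) m}
  supClosed' := by
    rintro x ⟨m, n, h1, h2, h3, h4⟩ y ⟨m', n', h1', h2', h3', h4'⟩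
    refine ⟨max m m', max n n', by omega, ?_, ?_, sup_le (h4.trans ?_) (h4'.trans ?_)⟩
    · rcases le_total m m' with h | h
      · rwa [max_eq_right h]
      · rwa [max_eq_left h]
    · rcases le_total n n' with h | h
      · rwa [max_eq_right h]
      · rwa [max_eq_left h]
    · rw [Tree.base_le_base]; omega
    · rw [Tree.base_le_base]; omega
  infClosed' := by
    rintro x ⟨m, n, h1, h2, h3, h4⟩ y _
    exact ⟨m, n, h1, h2, h3, inf_le_left.trans h4⟩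

theorem mem_T {p : ℕ} {a b : ℕ∞} {x : Tree p} : x ∈ T p a b ↔
    ∃ m n : ℕ, m ≤ n ∧ (m : ℕ∞) ≤ b ∧ (n : ℕ∞) ≤ a ∧ x ≤ Tree.base p (n - m) m := Iff.rfl

theorem T_lower {p : ℕ} {a b : ℕ∞} {x y : Tree p} (hxy : x ≤ y) (hy : y ∈ T p a b) :
    x ∈ T p a b := by
  obtain ⟨m, n, h1, h2, h3, h4⟩ := hy
  exact ⟨m, n, h1, h2, h3, hxy.trans h4⟩

theorem bot_mem_T (p : ℕ) (a b : ℕ∞) : ⊥ ∈ T p a b :=
  ⟨0, 0, le_rfl, by simp, by simp, bot_le⟩

instance (p : ℕ) (a b : ℕ∞) : OrderBot (T p a b) where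
  bot := ⟨⊥, bot_mem_T p a b⟩
  bot_le x := (bot_le : ⊥ ≤ (x : Tree p))

instance (p : ℕ) (a b : ℕ∞) : IsModularLattice (T p a b) where
  sup_inf_le_assoc_of_le := by
    intro x y z hxz
    exact IsModularLattice.sup_inf_le_assoc_of_le (y : Tree p) (x := (x : Tree p))
      (z := (z : Tree p)) hxz

theorem T_ordConnected (p : ℕ) (a b : ℕ∞) :
    (Set.range (OrderEmbedding.subtype fun z => z ∈ T p a b)).OrdConnected := by
  refine ⟨?_⟩
  rintro x ⟨x, rfl⟩ y ⟨y, rfl⟩ z hz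
  exact ⟨⟨z, T_lower hz.2 y.2⟩, rfl⟩

theorem T_pq (p : ℕ) (a b : ℕ∞) : PQ p (T p a b) :=
  (Tree.pq p).comap (OrderEmbedding.subtype _) (fun _ _ => rfl) (fun _ _ => rfl)
    (T_ordConnected p a b)

theorem T_finite_Iic {p : ℕ} {a b : ℕ∞} (x : T p a b) : (Set.Iic x).Finite := by
  have h := (Tree.finite_Iic (x : Tree p)).preimage
    (Subtype.val_injective (p := fun z => z ∈ T p a b)).injOn
  exact h.subset fun y hy => hy

end Pool.Agent.Helper20.SD
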