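import Pool.Agent.Helper20.SD.Maps

/-!
# Transfer of the properties along embeddings, and products
-/

namespace Pool.Agent.Helper20.SD

/-- no interval is a projective plane: there are no covers `p, q, r` of an element `x` with
`r` not below `p ⊔ q` such that there are further covers of `x` below `p ⊔ q` and `q ⊔ r` -/
def PlaneFree (L : Type*) [Lattice L] : Prop :=
  ∀ x p q r u v : L, x ⋖ p → x ⋖ q → x ⋖ r → x ⋖ u → x ⋖ v → p ≠ q → u ≤ p ⊔ q → u ≠ p → u ≠ q →
    v ≤ q ⊔ r → v ≠ q → v ≠ r → r ≤ p ⊔ q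

section embed

variable {M L : Type*} [Lattice M] [Lattice L]

/-- intervals correspond under an embedding with convex range -/
theorem icc_iso (f : M ↪o L) (hc : (Set.range f).OrdConnected) (x y : M) :
    Nonempty (Set.Icc x y ≃o Set.Icc (f x) (f y)) := by
  refine ⟨RelIso.ofSurjective (OrderEmbedding.ofMapLEIff
    (fun z : Set.Icc x y => (⟨f z, f.monotone z.2.1, f.monotone z.2.2⟩ :
      Set.Icc (f x) (f y))) ?_) ?_⟩
  · intro z w
    exact f.le_iff_le
  · rintro ⟨w, hw⟩
    obtain ⟨z, rfl⟩ := hc.out ⟨x, rfl⟩ ⟨y, rfl⟩ hw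
    exact ⟨⟨z, f.le_iff_le.1 hw.1, f.le_iff_le.1 hw.2⟩, rfl⟩

theorem SD.comap (h : SD L) (f : M ↪o L) (hc : (Set.range f).OrdConnected) : SD M := by
  intro x y hxy
  obtain ⟨e⟩ := icc_iso f hc x y
  obtain ⟨g⟩ := h (f x) (f y) (f.monotone hxy)
  exact ⟨(e.trans g).trans e.dual.symm⟩

theorem Finitary.comap (h : Finitary L) (f : M ↪o L) : Finitary M := by
  intro x
  have h1 := (h (f x)).preimage (f.injective.injOn (s := f ⁻¹' Set.Iic (f x)))
  exact h1.subset fun y hy => f.monotone hy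

theorem FiniteCovers.comap (h : FiniteCovers L) (f : M ↪o L) (hc : (Set.range f).OrdConnected) :
    FiniteCovers M := by
  intro x
  have h1 := (h (f x)).preimage (f.injective.injOn (s := f ⁻¹' {y | f x ⋖ y}))
  exact h1.subset fun y hy => (hc.apply_covBy_apply_iff f).2 hy

theorem PlaneFree.comap (h : PlaneFree L) (f : M ↪o L) (hc : (Set.range f).OrdConnected)
    (hs : ∀ a b, f (a ⊔ b) = f a ⊔ f b) : PlaneFree M := by
  intro x p q r u v hp hq hr hu hv hpq hu1 hu2 hu3 hv1 hv2 hv3
  have hcov : ∀ {a b : M}, a ⋖ b → f a ⋖ f b := fun h => (hc.apply_covBy_apply_iff f).2 h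
  rw [← f.le_iff_le, hs]
  refine h (f x) (f p) (f q) (f r) (f u) (f v) (hcov hp) (hcov hq) (hcov hr) (hcov hu) (hcov hv)
    (fun h => hpq (f.injective h)) ?_ (fun h => hu2 (f.injective h))
    (fun h => hu3 (f.injective h)) ?_ (fun h => hv2 (f.injective h))
    (fun h => hv3 (f.injective h))
  · rw [← hs]; exact f.monotone hu1
  · rw [← hs]; exact f.monotone hv1

theorem range_subtype_ordConnected (S : Sublattice L) (hS : IsLowerSet (S : Set L)) :
    (Set.range (OrderEmbedding.subtype fun z => z ∈ S)).OrdConnected := by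
  refine ⟨?_⟩
  rintro x ⟨x, rfl⟩ y ⟨y, rfl⟩ z hz
  exact ⟨⟨z, hS hz.2 y.2⟩, rfl⟩

end embed

section iso

variable {M L : Type*} [Lattice M] [Lattice L]

theorem SD.of_iso (h : SD L) (f : M ≃o L) : SD M :=
  h.comap f.toOrderEmbedding (by
    have : Set.range f.toOrderEmbedding = Set.univ := f.surjective.range_eq
    rw [this]; exact Set.ordConnected_univ)

theorem PlaneFree.of_iso (h : PlaneFree L) (f : M ≃o L) : PlaneFree M :=
  h.comap f.toOrderEmbedding (by
    have : Set.range f.toOrderEmbedding = Set.univ := f.surjective.range_eq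
    rw [this]; exact Set.ordConnected_univ) (fun a b => f.map_sup a b)

end iso

section pq

/-- a finitary modular lattice with the covering conditions has (SD) -/
theorem PQ.sd {p : ℕ} {L : Type*} [Lattice L] [IsModularLattice L] (hf : Finitary L)
    (h : PQ p L) : SD L := by
  intro x y hxy
  have : Fact (x ≤ y) := ⟨hxy⟩
  have : IsModularLattice (Set.Icc x y) :=
    ⟨@fun a b c hac => (IsModularLattice.sup_inf_le_assoc_of_le (b : L) hac :
      ((a : L) ⊔ b) ⊓ c ≤ (a : L) ⊔ b ⊓ c)⟩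
  have : Finite (Set.Icc x y) := ((hf y).subset fun z hz => hz.2).to_subtype
  exact (h.icc x y).selfDual

end pq

section pi

variable {n : ℕ} {F : Fin n → Type*} [∀ i, Lattice (F i)]

theorem SD.pi (h : ∀ i, SD (F i)) : SD (∀ i, F i) := by
  intro x y hxy
  have h1 : ∀ i, Nonempty (Set.Icc (x i) (y i) ≃o (Set.Icc (x i) (y i))ᵒᵈ) := fun i =>
    h i (x i) (y i) (hxy i)
  have e := fun i => (h1 i).some
  refine ⟨
    { toFun := fun z => OrderDual.toDual ⟨fun i => ((OrderDual.ofDual (e i ⟨(z : ∀ i, F i) i,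
        z.2.1 i, z.2.2 i⟩) : Set.Icc (x i) (y i)) : F i), fun i => (OrderDual.ofDual (e i _)).2.1,
          fun i => (OrderDual.ofDual (e i _)).2.2⟩
      invFun := fun w => ⟨fun i => (((e i).symm (OrderDual.toDual
        ⟨((OrderDual.ofDual w : Set.Icc x y) : ∀ i, F i) i, (OrderDual.ofDual w).2.1 i,
          (OrderDual.ofDual w).2.2 i⟩)) : F i), fun i => ((e i).symm _).2.1,
          fun i => ((e i).symm _).2.2⟩
      left_inv := ?_
      right_inv := ?_
      map_rel_iff' := ?_ }⟩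
  · intro z
    apply Subtype.ext
    funext i
    exact congrArg Subtype.val ((e i).symm_apply_apply ⟨(z : ∀ i, F i) i, z.2.1 i, z.2.2 i⟩)
  · intro w
    apply OrderDual.ofDual.injective
    apply Subtype.ext
    funext i
    exact congrArg (fun s => ((OrderDual.ofDual s : Set.Icc (x i) (y i)) : F i))
      ((e i).apply_symm_apply (OrderDual.toDual
        ⟨((OrderDual.ofDual w : Set.Icc x y) : ∀ i, F i) i, (OrderDual.ofDual w).2.1 i,
          (OrderDual.ofDual w).2.2 i⟩))
  · intro z w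
    change (∀ i, ((OrderDual.ofDual (e i ⟨(w : ∀ i, F i) i, w.2.1 i, w.2.2 i⟩) :
      Set.Icc (x i) (y i)) : F i) ≤ ((OrderDual.ofDual (e i ⟨(z : ∀ i, F i) i,
        z.2.1 i, z.2.2 i⟩) : Set.Icc (x i) (y i)) : F i)) ↔
        ∀ i, (z : ∀ i, F i) i ≤ (w : ∀ i, F i) i
    refine forall_congr' fun i => ?_
    exact (e i).le_iff_le (x := ⟨(z : ∀ i, F i) i, z.2.1 i, z.2.2 i⟩)
      (y := ⟨(w : ∀ i, F i) i, w.2.1 i, w.2.2 i⟩)

theorem Finitary.pi (h : ∀ i, Finitary (F i)) : Finitary (∀ i, F i) := by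
  intro x
  have h1 : (Set.univ.pi fun i => Set.Iic (x i)).Finite := Set.Finite.pi fun i => h i (x i)
  exact h1.subset fun y hy i _ => hy i

theorem FiniteCovers.pi (h : ∀ i, FiniteCovers (F i)) : FiniteCovers (∀ i, F i) := by
  classical
  intro x
  have h1 : (⋃ i, (Function.update x i) '' {y | x i ⋖ y}).Finite :=
    Set.finite_iUnion fun i => (h i (x i)).image _
  refine h1.subset ?_
  intro y hy
  obtain ⟨i, hi, hj⟩ := Pi.covBy_iff.1 hy
  rw [Set.mem_iUnion]
  refine ⟨i, y i, hi, ?_⟩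
  funext j
  by_cases hji : j = i
  · subst hji; simp
  · rw [Function.update_of_ne hji]; exact hj j hji

theorem PlaneFree.pi {p : Fin n → ℕ} (h : ∀ i, PQ (p i) (F i)) : PlaneFree (∀ i, F i) := by
  intro x p q r u v hp hq hr hu hv hpq hu1 hu2 hu3 hv1 hv2 hv3
  obtain ⟨ip, hp, hp'⟩ := Pi.covBy_iff.1 hp
  obtain ⟨iq, hq, hq'⟩ := Pi.covBy_iff.1 hq
  obtain ⟨ir, hr, hr'⟩ := Pi.covBy_iff.1 hr
  obtain ⟨iu, hu, hu'⟩ := Pi.covBy_iff.1 hu
  obtain ⟨iv, hv, hv'⟩ := Pi.covBy_iff.1 hv
  -- a cover below the join of two others, different from them, lives in their common coordinate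
  have key : ∀ (a b c : ∀ i, F i) (ia ib ic : Fin n), x ia ⋖ a ia → (∀ j ≠ ia, x j = a j) →
      x ib ⋖ b ib → (∀ j ≠ ib, x j = b j) → x ic ⋖ c ic → (∀ j ≠ ic, x j = c j) →
      c ≤ a ⊔ b → c ≠ a → c ≠ b → ia = ib := by
    intro a b c ia ib ic ha ha' hb hb' hc hc' hle h1 h2
    by_contra hne
    have h3 : c ic ≤ a ic ⊔ b ic := hle ic
    by_cases hca : ic = ia
    · subst hca
      rw [← hb' ic hne, sup_eq_left.2 ha.le] at h3
      apply h1
      funext j
      by_cases hj : j = ic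
      · subst hj
        rcases ha.eq_or_eq hc.le h3 with h4 | h4
        · exact absurd h4 hc.ne'
        · exact h4
      · rw [← hc' j hj, ← ha' j hj]
    · rw [← ha' ic hca] at h3
      by_cases hcb : ic = ib
      · subst hcb
        rw [sup_eq_right.2 hb.le] at h3
        apply h2
        funext j
        by_cases hj : j = ic
        · subst hj
          rcases hb.eq_or_eq hc.le h3 with h4 | h4
          · exact absurd h4 hc.ne'
          · exact h4
        · rw [← hc' j hj, ← hb' j hj]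
      · rw [← hb' ic hcb, sup_idem] at h3
        exact hc.lt.not_ge h3
  have e1 : ip = iq := key p q u ip iq iu hp hp' hq hq' hu hu' hu1 hu2 hu3
  have e2 : iq = ir := key q r v iq ir iv hq hq' hr hr' hv hv' hv1 hv2 hv3
  subst e1 e2
  intro j
  by_cases hj : j = ip
  · subst hj
    refine (h j).up_le (x j) (p j) (q j) (r j) hp hq ?_ hr
    intro hcon
    apply hpq
    funext k
    by_cases hk : k = j
    · subst hk; exact hcon
    · rw [← hp' k hk, ← hq' k hk]
  · rw [← hr' j hj]
    exact (le_of_eq (hp' j hj)).trans le_sup_left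

end pi

end Pool.Agent.Helper20.SD
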