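import Mathlib

/-!
# The tree lattice

`Tree p` is the lattice of pairs `(v, k)`, `v` a vertex of the rooted tree in which every vertex
has `p + 2` neighbours (written as a list of labels: the first label is at most `p + 1`, the other
labels are at most `p`), `k` a natural number, ordered by
`(v, k) ≤ (w, l)` iff `|v| + k ≤ l + |longest common initial segment of v and w|`.
-/

namespace Pool.Agent.Helper20.SD

/-- length of the longest common initial segment of two lists -/
def lcp : List ℕ → List ℕ → ℕ
  | a :: v, b :: w => if a = b then lcp v w + 1 else 0
  | _, _ => 0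

@[simp] theorem lcp_nil_left (v : List ℕ) : lcp [] v = 0 := by
  cases v <;> rfl

@[simp] theorem lcp_nil_right (v : List ℕ) : lcp v [] = 0 := by
  cases v <;> rfl

theorem lcp_cons (a b : ℕ) (v w : List ℕ) :
    lcp (a :: v) (b :: w) = if a = b then lcp v w + 1 else 0 := rfl

@[simp] theorem lcp_self (v : List ℕ) : lcp v v = v.length := by
  induction v with
  | nil => rfl
  | cons a v ih => simp [lcp_cons, ih]

theorem lcp_comm (v w : List ℕ) : lcp v w = lcp w v := by
  induction v generalizing w with
  | nil => simp
  | cons a v ih =>
    cases w with
    | nil => simp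
    | cons b w => simp only [lcp_cons, ih w, eq_comm]

theorem lcp_le_left (v w : List ℕ) : lcp v w ≤ v.length := by
  induction v generalizing w with
  | nil => simp
  | cons a v ih =>
    cases w with
    | nil => simp
    | cons b w =>
      simp only [lcp_cons]
      split_ifs
      · simpa using ih w
      · simp

theorem lcp_le_right (v w : List ℕ) : lcp v w ≤ w.length := by
  rw [lcp_comm]; exact lcp_le_left w v

theorem lcp_ultra (u v w : List ℕ) : min (lcp u v) (lcp v w) ≤ lcp u w := by
  induction u generalizing v w with
  | nil => simp
  | cons a u ih =>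
    cases v with
    | nil => simp
    | cons b v =>
      cases w with
      | nil => simp
      | cons c w =>
        simp only [lcp_cons]
        split_ifs with h1 h2 h3 h3
        · have := ih v w; omega
        · exact absurd (h1.trans h2) h3
        · simp
        · simp
        · simp
        · simp
        · simp
        · simp

theorem lcp_take (n : ℕ) (v w : List ℕ) : lcp (v.take n) w = min n (lcp v w) := by
  induction v generalizing n w with
  | nil => simp
  | cons a v ih =>
    cases n with
    | zero => simp
    | succ n =>
      cases w with
      | nil => simp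
      | cons b w =>
        simp only [List.take_succ_cons, lcp_cons]
        split_ifs
        · rw [ih]; omega
        · simp

theorem eq_take_of_lcp {v w : List ℕ} (h : lcp v w = v.length) : v = w.take v.length := by
  induction v generalizing w with
  | nil => simp
  | cons a v ih =>
    cases w with
    | nil => simp at h
    | cons b w =>
      simp only [lcp_cons, List.length_cons] at h
      split_ifs at h with h1
      subst h1
      simp only [List.length_cons, List.take_succ_cons, List.cons.injEq, true_and]
      exact ih (by omega)

theorem eq_of_lcp {v w : List ℕ} (h : lcp v w = v.length) (h' : lcp v w = w.length) : v = w := by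
  have := eq_take_of_lcp h
  rwa [← h, h', List.take_length] at this

theorem lcp_append_singleton (v w : List ℕ) (c : ℕ) :
    lcp (v ++ [c]) w = lcp v w ∨ (lcp v w = v.length ∧ lcp (v ++ [c]) w = v.length + 1) := by
  have h1 := lcp_take v.length (v ++ [c]) w
  rw [List.take_left' rfl] at h1
  have h2 := lcp_le_left (v ++ [c]) w
  simp only [List.length_append, List.length_singleton] at h2
  omega

/-- the lists of labels that are vertices -/
def Ok (p : ℕ) (v : List ℕ) : Prop := (∀ x ∈ v.head?, x ≤ p + 1) ∧ ∀ x ∈ v.tail, x ≤ p

theorem Ok.nil (p : ℕ) : Ok p [] := by simp [Ok]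

theorem Ok.take {p : ℕ} {v : List ℕ} (h : Ok p v) (n : ℕ) : Ok p (v.take n) := by
  cases v with
  | nil => simpa using h
  | cons a v =>
    cases n with
    | zero => simp [Ok]
    | succ n =>
      simp only [Ok, List.take_succ_cons, List.head?_cons, Option.mem_def, Option.some.injEq,
        List.tail_cons] at h ⊢
      exact ⟨h.1, fun x hx => h.2 x (List.mem_of_mem_take hx)⟩

theorem Ok.append {p : ℕ} {v : List ℕ} (h : Ok p v) {c : ℕ}
    (hc : c ≤ p ∨ (v = [] ∧ c ≤ p + 1)) : Ok p (v ++ [c]) := by
  cases v with
  | nil =>
    simp only [Ok, List.nil_append, List.head?_cons, Option.mem_def, Option.some.injEq,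
      List.tail_cons, List.not_mem_nil, false_imp_iff, implies_true, and_true]
    rintro x rfl
    rcases hc with h1 | h1
    · omega
    · exact h1.2
  | cons a v =>
    have hc' : c ≤ p := by
      rcases hc with h1 | h1
      · exact h1
      · exact absurd h1.1 (by simp)
    simp only [Ok, List.cons_append, List.head?_cons, Option.mem_def, Option.some.injEq,
      List.tail_cons] at h ⊢
    refine ⟨h.1, fun x hx => ?_⟩
    rw [List.mem_append] at hx
    rcases hx with h1 | h1
    · exact h.2 x h1
    · rw [List.mem_singleton] at h1; omega

theorem Ok.last {p : ℕ} {v : List ℕ} {c : ℕ} (h : Ok p (v ++ [c])) :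
    c ≤ p ∨ (v = [] ∧ c ≤ p + 1) := by
  cases v with
  | nil =>
    right
    simp only [Ok, List.nil_append, List.head?_cons, Option.mem_def, Option.some.injEq] at h
    exact ⟨rfl, h.1 c rfl⟩
  | cons a v =>
    left
    simp only [Ok, List.cons_append, List.tail_cons] at h
    exact h.2 c (by simp)

theorem Ok.init {p : ℕ} {v : List ℕ} {c : ℕ} (h : Ok p (v ++ [c])) : Ok p v := by
  have := h.take v.length
  rwa [List.take_left' rfl] at this

theorem Ok.zeros (p n : ℕ) : Ok p (List.replicate n 0) := by
  cases n with
  | zero => simp [Ok]
  | succ n =>
    simp only [Ok, List.replicate_succ, List.head?_cons, Option.mem_def, Option.some.injEq,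
      List.tail_cons, List.mem_replicate]
    constructor
    · rintro x rfl; omega
    · rintro x ⟨_, rfl⟩; omega

/-- The tree lattice: pairs of a vertex of the regular rooted tree (each vertex has `p + 2`
neighbours) and a natural number. -/
@[ext] structure Tree (p : ℕ) where
  /-- the vertex, a list of labels -/
  word : List ℕ
  /-- the list is a vertex -/
  ok : Ok p word
  /-- the level -/
  lev : ℕ

namespace Tree

variable {p : ℕ}

/-- `(v, k) ≤ (w, l)` iff `|v| + k ≤ l + |common initial segment of v and w|` -/
instance : LE (Tree p) := ⟨fun x y => x.word.length + x.lev ≤ y.lev + lcp x.word y.word⟩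

theorem le_def {x y : Tree p} : x ≤ y ↔ x.word.length + x.lev ≤ y.lev + lcp x.word y.word :=
  Iff.rfl

instance : PartialOrder (Tree p) where
  le := (· ≤ ·)
  le_refl x := by rw [le_def, lcp_self]; omega
  le_trans x y z h1 h2 := by
    rw [le_def] at *
    have h3 := lcp_ultra x.word y.word z.word
    have h4 := lcp_le_left y.word z.word
    have h5 := lcp_le_left x.word y.word
    have h6 := lcp_le_right x.word y.word
    omega
  le_antisymm x y h1 h2 := by
    rw [le_def] at *
    rw [lcp_comm y.word x.word] at h2
    have h4 := lcp_le_left x.word y.word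
    have h5 := lcp_le_right x.word y.word
    have h6 : x.word = y.word := eq_of_lcp (by omega) (by omega)
    ext1
    · exact h6
    · omega

theorem lev_le {x y : Tree p} (h : x ≤ y) : x.lev ≤ y.lev := by
  rw [le_def] at h
  have := lcp_le_left x.word y.word
  omega

/-- the height of an element -/
def ht (x : Tree p) : ℕ := x.word.length + 2 * x.lev

theorem ht_le {x y : Tree p} (h : x ≤ y) : x.ht ≤ y.ht := by
  have h1 := lev_le h
  rw [le_def] at h
  have := lcp_le_right x.word y.word
  simp only [ht]
  omega

theorem eq_of_ht {x y : Tree p} (h : x ≤ y) (h' : x.ht = y.ht) : x = y := by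
  have h1 := lev_le h
  rw [le_def] at h
  have h2 := lcp_le_right x.word y.word
  have h3 := lcp_le_left x.word y.word
  simp only [ht] at h'
  have h6 : x.word = y.word := eq_of_lcp (by omega) (by omega)
  ext1
  · exact h6
  · rw [h6] at h'; omega

theorem ht_lt {x y : Tree p} (h : x < y) : x.ht < y.ht := by
  rcases (ht_le h.le).eq_or_lt with h1 | h1
  · exact absurd (eq_of_ht h.le h1) h.ne
  · exact h1

/-- meet -/
def inf' (x y : Tree p) : Tree p :=
  if x.lev ≤ y.lev then
    ⟨x.word.take (y.lev - x.lev + lcp x.word y.word), x.ok.take _, x.lev⟩
  else
    ⟨y.word.take (x.lev - y.lev + lcp x.word y.word), y.ok.take _, y.lev⟩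

/-- join -/
def sup' (x y : Tree p) : Tree p :=
  if y.word.length + y.lev ≤ x.word.length + x.lev then
    ⟨x.word.take (x.word.length + x.lev - (y.word.length + y.lev) + lcp x.word y.word),
      x.ok.take _, max x.lev (y.word.length + y.lev - lcp x.word y.word)⟩
  else
    ⟨y.word.take (y.word.length + y.lev - (x.word.length + x.lev) + lcp x.word y.word),
      y.ok.take _, max y.lev (x.word.length + x.lev - lcp x.word y.word)⟩

instance : Lattice (Tree p) where
  inf := inf'
  sup := sup'
  inf_le_left x y := by
    change inf' x y ≤ x
    unfold inf'
    have h1 := lcp_le_left x.word y.word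
    have h2 := lcp_le_right x.word y.word
    split_ifs with h
    · rw [le_def]
      simp only [lcp_take, lcp_self, List.length_take]
      omega
    · rw [le_def]
      simp only [lcp_take, List.length_take, lcp_comm y.word x.word]
      omega
  inf_le_right x y := by
    change inf' x y ≤ y
    unfold inf'
    have h1 := lcp_le_left x.word y.word
    have h2 := lcp_le_right x.word y.word
    split_ifs with h
    · rw [le_def]
      simp only [lcp_take, List.length_take]
      omega
    · rw [le_def]
      simp only [lcp_take, lcp_self, List.length_take]
      omega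
  le_inf z x y h1 h2 := by
    change z ≤ inf' x y
    rw [le_def] at h1 h2
    unfold inf'
    have h3 := lcp_le_left z.word x.word
    have h4 := lcp_le_left z.word y.word
    have h5 := lcp_ultra x.word z.word y.word
    have h6 := lcp_ultra z.word x.word y.word
    have h7 := lcp_ultra z.word y.word x.word
    rw [lcp_comm x.word z.word] at h5
    rw [lcp_comm y.word x.word] at h7
    split_ifs with h
    · rw [le_def]
      simp only
      rw [lcp_comm z.word, lcp_take, lcp_comm x.word z.word]
      omega
    · rw [le_def]
      simp only
      rw [lcp_comm z.word, lcp_take, lcp_comm y.word z.word]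
      omega
  le_sup_left x y := by
    change x ≤ sup' x y
    unfold sup'
    have h1 := lcp_le_left x.word y.word
    have h2 := lcp_le_right x.word y.word
    split_ifs with h
    · rw [le_def]
      simp only
      rw [lcp_comm x.word (List.take _ _), lcp_take, lcp_self]
      omega
    · rw [le_def]
      simp only
      rw [lcp_comm x.word (List.take _ _), lcp_take, lcp_comm y.word x.word]
      omega
  le_sup_right x y := by
    change y ≤ sup' x y
    unfold sup'
    have h1 := lcp_le_left x.word y.word
    have h2 := lcp_le_right x.word y.word
    split_ifs with h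
    · rw [le_def]
      simp only
      rw [lcp_comm y.word (List.take _ _), lcp_take]
      omega
    · rw [le_def]
      simp only
      rw [lcp_comm y.word (List.take _ _), lcp_take, lcp_self]
      omega
  sup_le x y z h1 h2 := by
    change sup' x y ≤ z
    rw [le_def] at h1 h2
    unfold sup'
    have h3 := lcp_le_left x.word z.word
    have h4 := lcp_le_left y.word z.word
    have h3' := lcp_le_left x.word y.word
    have h4' := lcp_le_right x.word y.word
    have h5 := lcp_ultra x.word z.word y.word
    have h6 := lcp_ultra z.word x.word y.word
    have h7 := lcp_ultra z.word y.word x.word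
    rw [lcp_comm y.word x.word, lcp_comm z.word y.word, lcp_comm z.word x.word] at h7
    rw [lcp_comm z.word y.word] at h5
    rw [lcp_comm z.word y.word, lcp_comm z.word x.word] at h6
    split_ifs with h
    · rw [le_def]
      simp only [List.length_take]
      rw [lcp_take]
      omega
    · rw [le_def]
      simp only [List.length_take]
      rw [lcp_take]
      omega

theorem inf_def (x y : Tree p) : x ⊓ y = inf' x y := rfl

theorem sup_def (x y : Tree p) : x ⊔ y = sup' x y := rfl

theorem ht_inf_add_ht_sup (x y : Tree p) : (x ⊓ y).ht + (x ⊔ y).ht = x.ht + y.ht := by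
  rw [inf_def, sup_def]
  unfold inf' sup' ht
  have h1 := lcp_le_left x.word y.word
  have h2 := lcp_le_right x.word y.word
  split_ifs with h h' h' <;> simp only [List.length_take] <;> omega

instance : OrderBot (Tree p) where
  bot := ⟨[], Ok.nil p, 0⟩
  bot_le x := by rw [le_def]; simp

@[simp] theorem bot_word : (⊥ : Tree p).word = [] := rfl
@[simp] theorem bot_lev : (⊥ : Tree p).lev = 0 := rfl
@[simp] theorem bot_ht : (⊥ : Tree p).ht = 0 := rfl

instance : IsModularLattice (Tree p) where
  sup_inf_le_assoc_of_le := by
    intro x y z hxz
    have h1 : x ⊔ y ⊓ z ≤ (x ⊔ y) ⊓ z := by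
      refine le_inf (sup_le le_sup_left (inf_le_left.trans le_sup_right))
        (sup_le hxz inf_le_right)
    refine (eq_of_ht h1 ?_).ge
    have e1 := ht_inf_add_ht_sup x (y ⊓ z)
    have e2 := ht_inf_add_ht_sup (x ⊔ y) z
    have e3 := ht_inf_add_ht_sup x y
    have e4 := ht_inf_add_ht_sup y z
    have e5 : x ⊓ (y ⊓ z) = x ⊓ y := by
      rw [← inf_assoc]; exact inf_eq_left.2 (inf_le_left.trans hxz)
    have e6 : x ⊔ y ⊔ z = y ⊔ z := by
      rw [sup_comm x y, sup_assoc, sup_eq_right.2 hxz]
    rw [e5] at e1
    rw [e6] at e2
    omega

end Tree

end Pool.Agent.Helper20.SD
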