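import Pool.Agent.Helper20.SD.PQ

/-!
# The tree lattice satisfies the covering conditions and is finitary
-/

namespace Pool.Agent.Helper20.SD

namespace Tree

variable {p : ℕ}

theorem exists_step {x y : Tree p} (h : x < y) : ∃ z, x ≤ z ∧ z ≤ y ∧ z.ht = x.ht + 1 := by
  have h1 := h.le
  have h2 := lev_le h1
  have h3 := ht_lt h
  rw [le_def] at h1
  have h4 := lcp_le_left x.word y.word
  have h5 := lcp_le_right x.word y.word
  rcases lt_or_ge (lcp x.word y.word) x.word.length with h6 | h6
  · refine ⟨⟨x.word.take (x.word.length - 1), x.ok.take _, x.lev + 1⟩, ?_, ?_, ?_⟩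
    · rw [le_def]
      simp only
      rw [lcp_comm, lcp_take, lcp_self]
      omega
    · rw [le_def]
      simp only
      rw [lcp_take, List.length_take]
      omega
    · simp only [ht, List.length_take]
      omega
  · have h7 : x.word = y.word.take x.word.length := eq_take_of_lcp (by omega)
    rcases lt_or_ge x.word.length y.word.length with h8 | h8
    · refine ⟨⟨y.word.take (x.word.length + 1), y.ok.take _, x.lev⟩, ?_, ?_, ?_⟩
      · rw [le_def]
        simp only
        rw [lcp_comm, lcp_take, lcp_comm]
        omega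
      · rw [le_def]
        simp only
        rw [lcp_take, List.length_take, lcp_self]
        omega
      · simp only [ht, List.length_take]
        omega
    · have h9 : x.word = y.word := by
        rw [h7, List.take_of_length_le h8]
      refine ⟨⟨x.word ++ [0], x.ok.append (Or.inl (Nat.zero_le _)), x.lev⟩, ?_, ?_, ?_⟩
      · rw [le_def]
        simp only
        rcases lcp_append_singleton x.word x.word 0 with h10 | h10
        · rw [lcp_comm, h10, lcp_self]; omega
        · rw [lcp_comm, h10.2]; omega
      · rw [le_def]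
        simp only
        rw [List.length_append, List.length_singleton]
        have h11 : x.lev < y.lev := by
          simp only [ht, h9] at h3
          omega
        rcases lcp_append_singleton x.word y.word 0 with h10 | h10
        · rw [h10]; omega
        · rw [h10.2]; omega
      · simp only [ht, List.length_append, List.length_singleton]
        omega

theorem covBy_iff {x y : Tree p} : x ⋖ y ↔ x ≤ y ∧ y.ht = x.ht + 1 := by
  constructor
  · intro h
    obtain ⟨z, h1, h2, h3⟩ := exists_step h.lt
    have h4 : x < z := lt_of_le_of_ne h1 (fun e => by rw [e] at h3; omega)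
    have h5 : z = y := by
      by_contra h5
      exact h.2 h4 (lt_of_le_of_ne h2 h5)
    rw [← h5]
    exact ⟨h1, h3⟩
  · rintro ⟨h1, h2⟩
    refine ⟨lt_of_le_of_ne h1 (fun e => by rw [e] at h2; omega), ?_⟩
    intro z h3 h4
    have := ht_lt h3
    have := ht_lt h4
    omega

theorem covBy_cases {x y : Tree p} (h : x ⋖ y) :
    (∃ c, y.word = x.word ++ [c] ∧ y.lev = x.lev) ∨
      (x.word ≠ [] ∧ y.word = x.word.take (x.word.length - 1) ∧ y.lev = x.lev + 1) := by
  rw [covBy_iff] at h
  obtain ⟨h1, h2⟩ := h
  have h3 := lev_le h1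
  rw [le_def] at h1
  have h4 := lcp_le_left x.word y.word
  have h5 := lcp_le_right x.word y.word
  simp only [ht] at h2
  rcases Nat.eq_or_lt_of_le h3 with h6 | h6
  · left
    have h7 : x.word = y.word.take x.word.length := eq_take_of_lcp (by omega)
    have h8 : (y.word.drop x.word.length).length = 1 := by rw [List.length_drop]; omega
    obtain ⟨c, hc⟩ := List.length_eq_one_iff.1 h8
    refine ⟨c, ?_, h6.symm⟩
    rw [← hc]
    conv_rhs => rw [h7]
    rw [← h7]
    conv_lhs => rw [← List.take_append_drop x.word.length y.word]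
    rw [← h7]
  · right
    have h9 : x.word ≠ [] := by
      rintro h9
      rw [h9] at h1 h2 h4
      simp at h1 h2 h4
      omega
    refine ⟨h9, ?_, by omega⟩
    have h10 : lcp y.word x.word = y.word.length := by rw [lcp_comm]; omega
    rw [eq_take_of_lcp h10]
    congr 1
    omega

theorem covBy_child (x : Tree p) (c : ℕ) (h : Ok p (x.word ++ [c])) :
    x ⋖ ⟨x.word ++ [c], h, x.lev⟩ := by
  rw [covBy_iff, le_def]
  simp only [ht, List.length_append, List.length_singleton]
  refine ⟨?_, by omega⟩
  rcases lcp_append_singleton x.word x.word c with h10 | h10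
  · rw [lcp_comm, h10, lcp_self]; omega
  · rw [lcp_comm, h10.2]; omega

theorem covBy_parent (x : Tree p) (hx : x.word ≠ []) :
    x ⋖ ⟨x.word.take (x.word.length - 1), x.ok.take _, x.lev + 1⟩ := by
  have : 0 < x.word.length := List.length_pos_iff.2 hx
  rw [covBy_iff, le_def]
  simp only [ht, List.length_take]
  refine ⟨?_, by omega⟩
  rw [lcp_comm, lcp_take, lcp_self]
  omega

theorem child_covBy (x : Tree p) (c : ℕ) (h : Ok p (x.word ++ [c])) (hl : 1 ≤ x.lev) :
    (⟨x.word ++ [c], h, x.lev - 1⟩ : Tree p) ⋖ x := by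
  rw [covBy_iff, le_def]
  simp only [ht, List.length_append, List.length_singleton]
  refine ⟨?_, by omega⟩
  rcases lcp_append_singleton x.word x.word c with h10 | h10
  · rw [h10, lcp_self]; omega
  · rw [h10.2]; omega

theorem parent_covBy (x : Tree p) (hx : x.word ≠ []) :
    (⟨x.word.take (x.word.length - 1), x.ok.take _, x.lev⟩ : Tree p) ⋖ x := by
  have : 0 < x.word.length := List.length_pos_iff.2 hx
  rw [covBy_iff, le_def]
  simp only [ht, List.length_take]
  refine ⟨?_, by omega⟩
  rw [lcp_take, lcp_self]
  omega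

/-- the element two above `x` -/
def above (x : Tree p) : Tree p := ⟨x.word, x.ok, x.lev + 1⟩

theorem le_above_of_covBy {x y : Tree p} (h : x ⋖ y) : y ≤ x.above := by
  rcases covBy_cases h with ⟨c, h1, h2⟩ | ⟨h1, h2, h3⟩
  · rw [le_def, h1, h2]
    simp only [above, List.length_append, List.length_singleton]
    rcases lcp_append_singleton x.word x.word c with h10 | h10
    · rw [h10, lcp_self]; omega
    · rw [h10.2]; omega
  · rw [le_def, h2, h3]
    simp only [above]
    rw [lcp_take, lcp_self, List.length_take]
    omega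

theorem ht_above (x : Tree p) : x.above.ht = x.ht + 2 := by
  simp only [above, ht]; omega

/-- the element two below `x` -/
def below (x : Tree p) : Tree p := ⟨x.word, x.ok, x.lev - 1⟩

theorem below_le_of_covBy {x y : Tree p} (h : y ⋖ x) (hl : 1 ≤ x.lev) : x.below ≤ y := by
  rcases covBy_cases h with ⟨c, h1, h2⟩ | ⟨h1, h2, h3⟩
  · have h3 := lcp_append_singleton y.word y.word c
    rw [lcp_self] at h3
    rw [le_def]
    simp only [below, h1, List.length_append, List.length_singleton]
    omega
  · rw [le_def]
    simp only [below, h2, List.length_take]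
    rw [lcp_take, lcp_self]
    omega

theorem ht_below (x : Tree p) (hl : 1 ≤ x.lev) : x.below.ht + 2 = x.ht := by
  simp only [below, ht]; omega

theorem covBy_sup_eq {x y z : Tree p} (h1 : x ⋖ y) (h2 : x ⋖ z) (h3 : y ≠ z) :
    y ⊔ z = x.above := by
  refine eq_of_ht (sup_le (le_above_of_covBy h1) (le_above_of_covBy h2)) ?_
  refine le_antisymm (ht_le (sup_le (le_above_of_covBy h1) (le_above_of_covBy h2))) ?_
  have h4 : y < y ⊔ z := by
    refine lt_of_le_of_ne le_sup_left fun h => h3 ?_
    have h5 : z ≤ y := by rw [h]; exact le_sup_right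
    exact (eq_of_ht h5 (by rw [(covBy_iff.1 h1).2, (covBy_iff.1 h2).2])).symm
  have h5 := ht_lt h4
  have h6 := (covBy_iff.1 h1).2
  rw [ht_above]
  omega

theorem covBy_inf_eq {x y z : Tree p} (h1 : y ⋖ x) (h2 : z ⋖ x) (h3 : y ≠ z) :
    1 ≤ x.lev ∧ y ⊓ z = x.below := by
  have hl : 1 ≤ x.lev := by
    by_contra hl
    apply h3
    rcases covBy_cases h1 with ⟨c, a1, a2⟩ | ⟨a1, a2, a3⟩
    · rcases covBy_cases h2 with ⟨d, b1, b2⟩ | ⟨b1, b2, b3⟩
      · have e := a1.symm.trans b1
        have e2 := List.append_inj_left' e rfl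
        ext1
        · exact e2
        · omega
      · omega
    · omega
  refine ⟨hl, ?_⟩
  refine (eq_of_ht (le_inf (below_le_of_covBy h1 hl) (below_le_of_covBy h2 hl)) ?_).symm
  refine le_antisymm (ht_le (le_inf (below_le_of_covBy h1 hl) (below_le_of_covBy h2 hl))) ?_
  have h4 : y ⊓ z < y := by
    refine lt_of_le_of_ne inf_le_left fun h => h3 ?_
    have h5 : y ≤ z := by rw [← h]; exact inf_le_right
    refine eq_of_ht h5 ?_
    have := (covBy_iff.1 h1).2
    have := (covBy_iff.1 h2).2
    omega
  have h5 := ht_lt h4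
  have h6 := (covBy_iff.1 h1).2
  have h7 := ht_below x hl
  omega

/-- enumeration of the covers -/
noncomputable def nbUp (x : Tree p) (c : ℕ) : Tree p :=
  open Classical in
  if h : Ok p (x.word ++ [c]) then ⟨x.word ++ [c], h, x.lev⟩
  else ⟨x.word.take (x.word.length - 1), x.ok.take _, x.lev + 1⟩

/-- enumeration of the lower covers -/
noncomputable def nbDown (x : Tree p) (c : ℕ) : Tree p :=
  open Classical in
  if h : Ok p (x.word ++ [c]) then ⟨x.word ++ [c], h, x.lev - 1⟩
  else ⟨x.word.take (x.word.length - 1), x.ok.take _, x.lev⟩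

theorem not_ok_top (x : Tree p) (hx : x.word ≠ []) : ¬ Ok p (x.word ++ [p + 1]) := by
  intro h
  rcases h.last with h1 | h1
  · omega
  · exact hx h1.1

theorem ok_or (x : Tree p) {c : ℕ} (hc : c < p + 2) :
    Ok p (x.word ++ [c]) ∨ (x.word ≠ [] ∧ c = p + 1) := by
  by_cases hx : x.word = []
  · left; exact x.ok.append (Or.inr ⟨hx, by omega⟩)
  · by_cases h : c = p + 1
    · right; exact ⟨hx, h⟩
    · left; exact x.ok.append (Or.inl (by omega))

theorem card_up (x : Tree p) : {w | x ⋖ w}.ncard = p + 2 := by
  have e : {w | x ⋖ w} = nbUp x '' ((Finset.range (p + 2) : Finset ℕ) : Set ℕ) := by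
    ext w
    constructor
    · intro hw
      rcases covBy_cases hw with ⟨c, h1, h2⟩ | ⟨h1, h2, h3⟩
      · have hok : Ok p (x.word ++ [c]) := h1 ▸ w.ok
        refine ⟨c, ?_, ?_⟩
        · rw [Finset.mem_coe, Finset.mem_range]
          rcases hok.last with h | h <;> omega
        · rw [nbUp, dif_pos hok]
          ext1
          · exact h1.symm
          · exact h2.symm
      · refine ⟨p + 1, ?_, ?_⟩
        · rw [Finset.mem_coe, Finset.mem_range]; omega
        · rw [nbUp, dif_neg (not_ok_top x h1)]
          ext1
          · exact h2.symm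
          · exact h3.symm
    · rintro ⟨c, hc, rfl⟩
      rw [Finset.mem_coe, Finset.mem_range] at hc
      rcases ok_or x hc with h | ⟨h, h'⟩
      · rw [nbUp, dif_pos h]; exact covBy_child x c h
      · rw [nbUp, dif_neg (h' ▸ not_ok_top x h)]; exact covBy_parent x h
  rw [e, Set.InjOn.ncard_image, Set.ncard_coe_finset, Finset.card_range]
  intro c hc d hd hcd
  rw [Finset.mem_coe, Finset.mem_range] at hc hd
  simp only [nbUp] at hcd
  rcases ok_or x hc with h | ⟨h, h'⟩ <;> rcases ok_or x hd with g | ⟨g, g'⟩
  · rw [dif_pos h, dif_pos g] at hcd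
    have := congrArg Tree.word hcd
    simpa using this
  · rw [dif_pos h, dif_neg (g' ▸ not_ok_top x g)] at hcd
    have := congrArg Tree.lev hcd
    simp at this
  · rw [dif_pos g, dif_neg (h' ▸ not_ok_top x h)] at hcd
    have := congrArg Tree.lev hcd
    simp at this
  · omega

theorem card_down (x : Tree p) (hl : 1 ≤ x.lev) : {w | w ⋖ x}.ncard = p + 2 := by
  have e : {w | w ⋖ x} = nbDown x '' ((Finset.range (p + 2) : Finset ℕ) : Set ℕ) := by
    ext w
    constructor
    · intro hw
      rcases covBy_cases hw with ⟨c, h1, h2⟩ | ⟨h1, h2, h3⟩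
      · have hx : x.word ≠ [] := by rw [h1]; simp
        refine ⟨p + 1, ?_, ?_⟩
        · rw [Finset.mem_coe, Finset.mem_range]; omega
        · rw [nbDown, dif_neg (not_ok_top x hx)]
          ext1
          · simp [h1]
          · exact h2
      · have hw' : 0 < w.word.length := List.length_pos_iff.2 h1
        have h4 : (w.word.drop (w.word.length - 1)).length = 1 := by
          rw [List.length_drop]; omega
        obtain ⟨c, hc⟩ := List.length_eq_one_iff.1 h4
        have h5 : w.word = x.word ++ [c] := by
          conv_lhs => rw [← List.take_append_drop (w.word.length - 1) w.word]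
          rw [hc, ← h2]
        have hok : Ok p (x.word ++ [c]) := h5 ▸ w.ok
        refine ⟨c, ?_, ?_⟩
        · rw [Finset.mem_coe, Finset.mem_range]
          rcases hok.last with h | h <;> omega
        · rw [nbDown, dif_pos hok]
          ext1
          · exact h5.symm
          · simp [h3]
    · rintro ⟨c, hc, rfl⟩
      rw [Finset.mem_coe, Finset.mem_range] at hc
      rcases ok_or x hc with h | ⟨h, h'⟩
      · rw [nbDown, dif_pos h]; exact child_covBy x c h hl
      · rw [nbDown, dif_neg (h' ▸ not_ok_top x h)]; exact parent_covBy x h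
  rw [e, Set.InjOn.ncard_image, Set.ncard_coe_finset, Finset.card_range]
  intro c hc d hd hcd
  rw [Finset.mem_coe, Finset.mem_range] at hc hd
  simp only [nbDown] at hcd
  rcases ok_or x hc with h | ⟨h, h'⟩ <;> rcases ok_or x hd with g | ⟨g, g'⟩
  · rw [dif_pos h, dif_pos g] at hcd
    have := congrArg Tree.word hcd
    simpa using this
  · rw [dif_pos h, dif_neg (g' ▸ not_ok_top x g)] at hcd
    have := congrArg (fun t => t.word.length) hcd
    simp at this
    omega
  · rw [dif_pos g, dif_neg (h' ▸ not_ok_top x h)] at hcd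
    have := congrArg (fun t => t.word.length) hcd
    simp at this
  · omega

theorem exists_two_up (x : Tree p) : ∃ y z : Tree p, x ⋖ y ∧ x ⋖ z ∧ y ≠ z := by
  have h := card_up x
  have h1 : 1 < {w | x ⋖ w}.ncard := by omega
  rw [Set.one_lt_ncard_iff (Set.finite_of_ncard_pos (by omega))] at h1
  obtain ⟨a, b, ha, hb, hab⟩ := h1
  exact ⟨a, b, ha, hb, hab⟩

theorem exists_two_down (x : Tree p) (hl : 1 ≤ x.lev) :
    ∃ y z : Tree p, y ⋖ x ∧ z ⋖ x ∧ y ≠ z := by
  have h := card_down x hl
  have h1 : 1 < {w | w ⋖ x}.ncard := by omega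
  rw [Set.one_lt_ncard_iff (Set.finite_of_ncard_pos (by omega))] at h1
  obtain ⟨a, b, ha, hb, hab⟩ := h1
  exact ⟨a, b, ha, hb, hab⟩

theorem chain_of_eq {x y : Tree p}
    (h : x.word.length + x.lev = y.lev + lcp x.word y.word) {u v : Tree p}
    (hxu : x ≤ u) (huy : u ≤ y) (hxv : x ≤ v) (hvy : v ≤ y) : u ≤ v ∨ v ≤ u := by
  rw [le_def] at hxu huy hxv hvy
  rw [le_def, le_def]
  have a1 := lcp_ultra x.word u.word y.word
  have a2 := lcp_ultra u.word x.word y.word
  have a3 := lcp_ultra x.word y.word u.word
  have b1 := lcp_ultra x.word v.word y.word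
  have b2 := lcp_ultra v.word x.word y.word
  have b3 := lcp_ultra x.word y.word v.word
  have c1 := lcp_ultra u.word x.word v.word
  have c2 := lcp_ultra u.word y.word v.word
  rw [lcp_comm u.word x.word] at a2 c1
  rw [lcp_comm v.word x.word] at b2
  rw [lcp_comm y.word u.word] at a3
  rw [lcp_comm y.word v.word] at b3 c2
  rw [lcp_comm v.word u.word]
  have l1 := lcp_le_left u.word y.word
  have l2 := lcp_le_left v.word y.word
  have l3 := lcp_le_right x.word u.word
  have l4 := lcp_le_right x.word v.word
  have l5 := lcp_le_left x.word u.word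
  have l6 := lcp_le_left x.word v.word
  omega

theorem pq (p : ℕ) : PQ p (Tree p) := by
  refine ⟨fun x _ _ _ _ _ => card_up x, ?_, ?_, ?_, ?_, ?_⟩
  · intro x y z w h1 h2 h3 h4
    rw [covBy_sup_eq h1 h2 h3]
    exact le_above_of_covBy h4
  · intro x y z h1 h2 h3
    exact card_down x (covBy_inf_eq h1 h2 h3).1
  · intro x y z w h1 h2 h3 h4
    rw [(covBy_inf_eq h1 h2 h3).2]
    exact below_le_of_covBy h4 (covBy_inf_eq h1 h2 h3).1
  · intro x y h u v hxu huy hxv hvy
    have hxy := hxu.trans huy
    refine chain_of_eq ?_ hxu huy hxv hvy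
    by_contra hne
    have h1 : x.above ≤ y := by
      rw [le_def] at hxy ⊢
      simp only [above]
      omega
    obtain ⟨a, b, ha, hb, hab⟩ := exists_two_up x
    exact hab (h a b ha ((le_above_of_covBy ha).trans h1) hb ((le_above_of_covBy hb).trans h1))
  · intro x y h u v hxu huy hxv hvy
    have hxy := hxu.trans huy
    refine chain_of_eq ?_ hxu huy hxv hvy
    by_contra hne
    have hl : 1 ≤ y.lev := by
      by_contra hl
      apply hne
      have h2 := lev_le hxy
      rw [le_def] at hxy
      have := lcp_le_left x.word y.word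
      omega
    have h1 : x ≤ y.below := by
      rw [le_def] at hxy ⊢
      simp only [below]
      omega
    obtain ⟨a, b, ha, hb, hab⟩ := exists_two_down y hl
    exact hab (h a b ha (h1.trans (below_le_of_covBy ha hl)) hb
      (h1.trans (below_le_of_covBy hb hl)))

/-- principal ideals of the tree lattice are finite -/
theorem finite_Iic (y : Tree p) : (Set.Iic y).Finite := by
  have h1 : Set.InjOn (fun x : Tree p => (x.word, x.lev)) (Set.Iic y) := by
    intro a _ b _ hab
    simp only [Prod.mk.injEq] at hab
    ext1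
    · exact hab.1
    · exact hab.2
  refine Set.Finite.of_finite_image ?_ h1
  have h2 : ({l : List ℕ | l.length ≤ y.word.length + y.lev ∧ ∀ x ∈ l, x < p + 2}).Finite := by
    have := List.finite_length_le (Fin (p + 2)) (y.word.length + y.lev)
    refine (this.image (List.map Fin.val)).subset ?_
    rintro l ⟨hl1, hl2⟩
    refine ⟨l.pmap (fun a ha => (⟨a, ha⟩ : Fin (p + 2))) hl2, ?_, ?_⟩
    · simpa using hl1
    · rw [List.map_pmap]
      simp
  refine (h2.prod (Set.finite_Iic y.lev)).subset ?_
  rintro ⟨l, k⟩ ⟨x, hx, he⟩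
  simp only [Prod.mk.injEq] at he
  obtain ⟨rfl, rfl⟩ := he
  have h3 : x ≤ y := hx
  have h4 := lev_le h3
  rw [le_def] at h3
  have h5 := lcp_le_right x.word y.word
  refine ⟨⟨?_, ?_⟩, h4⟩
  · change x.word.length ≤ _
    omega
  intro a ha
  have hok := x.ok
  rcases hw : x.word with _ | ⟨b, v⟩
  · rw [hw] at ha; simp at ha
  · rw [hw] at ha hok
    simp only [Ok, List.head?_cons, Option.mem_def, Option.some.injEq, List.tail_cons] at hok
    rcases List.mem_cons.1 ha with h | h
    · have := hok.1 b rfl
      omega
    · have := hok.2 a h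
      omega

/-- the base elements `(0^c, m)` -/
def base (p c m : ℕ) : Tree p := ⟨List.replicate c 0, Ok.zeros p c, m⟩

theorem lcp_zeros (c d : ℕ) : lcp (List.replicate c 0) (List.replicate d 0) = min c d := by
  induction c generalizing d with
  | zero => simp
  | succ c ih =>
    cases d with
    | zero => simp
    | succ d =>
      simp only [List.replicate_succ, lcp_cons, if_true, ih]
      omega

theorem base_le_base {c m d l : ℕ} : base p c m ≤ base p d l ↔ c + m ≤ l + min c d := by
  rw [le_def]
  simp only [base, List.length_replicate, lcp_zeros]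

end Tree

end Pool.Agent.Helper20.SD
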