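import Pool.Agent.Helper20.SD.Order

/-!
# Uniqueness of the parameters
-/

namespace Pool.Agent.Helper20.SD

section factors

theorem Persp.map {M N : Type*} [Lattice M] [Lattice N] [OrderBot M] [OrderBot N] (e : M ≃o N)
    {a b : M} (h : Persp a b) : Persp (e a) (e b) := by
  rcases h with h | ⟨c, hc, hca, hcb, hle⟩
  · exact Or.inl (congrArg e h)
  · refine Or.inr ⟨e c, ?_, fun h => hca (e.injective h), fun h => hcb (e.injective h), ?_⟩
    · rw [← e.map_bot, apply_covBy_apply_iff e]; exact hc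
    · rw [← e.map_sup]; exact e.monotone hle

theorem Persp.map_iff {M N : Type*} [Lattice M] [Lattice N] [OrderBot M] [OrderBot N] (e : M ≃o N)
    {a b : M} : Persp (e a) (e b) ↔ Persp a b := by
  refine ⟨fun h => ?_, fun h => h.map e⟩
  have := h.map e.symm
  rwa [e.symm_apply_apply, e.symm_apply_apply] at this

variable {n : ℕ} {F : Fin n → Type*} [∀ i, Lattice (F i)] [∀ i, OrderBot (F i)]

/-- the atom at coordinate `i` -/
theorem atom_single {i : Fin n} {a : F i} (ha : ⊥ ⋖ a) :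
    (⊥ : ∀ i, F i) ⋖ Function.update (⊥ : ∀ i, F i) i a := by
  rw [Pi.covBy_iff]
  refine ⟨i, by simpa using ha, ?_⟩
  intro j hj
  rw [Function.update_of_ne hj]

/-- atoms with the same support are linked -/
theorem linked_of_support (hF : ∀ i, ∀ a b : F i, ⊥ ⋖ a → ⊥ ⋖ b → Persp a b) {i : Fin n}
    {x y : ∀ i, F i} (hx : ⊥ ⋖ x i) (hx' : ∀ j ≠ i, ⊥ = x j) (hy : ⊥ ⋖ y i)
    (hy' : ∀ j ≠ i, ⊥ = y j) : Persp x y := by
  rcases hF i _ _ hx hy with h | ⟨c, hc, hcx, hcy, hle⟩
  · left
    funext j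
    by_cases hj : j = i
    · subst hj; exact h
    · rw [← hx' j hj, ← hy' j hj]
  · right
    refine ⟨Function.update ⊥ i c, atom_single hc, ?_, ?_, ?_⟩
    · intro h
      apply hcx
      rw [← h, Function.update_self]
    · intro h
      apply hcy
      rw [← h, Function.update_self]
    · intro j
      by_cases hj : j = i
      · subst hj; rw [Function.update_self]; exact hle
      · rw [Function.update_of_ne hj]; exact bot_le

/-- linked atoms have the same support -/
theorem support_of_linked {i k : Fin n} {x y : ∀ i, F i} (hx : ⊥ ⋖ x i) (hx' : ∀ j ≠ i, ⊥ = x j)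
    (hy : ⊥ ⋖ y k) (hy' : ∀ j ≠ k, ⊥ = y j) (h : Persp x y) : i = k := by
  by_contra hik
  rcases h with h | ⟨c, hc, hcx, hcy, hle⟩
  · rw [h, ← hy' i hik] at hx
    exact hx.ne rfl
  · obtain ⟨l, hl, hl'⟩ := Pi.covBy_iff.1 hc
    have h1 : c l ≤ x l ⊔ y l := hle l
    by_cases hli : l = i
    · subst hli
      rw [← hy' l hik, sup_bot_eq] at h1
      apply hcx
      funext j
      by_cases hj : j = l
      · subst hj; exact atom_le_atom hl hx h1
      · rw [← hx' j hj]; exact (hl' j hj).symm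
    · rw [← hx' l hli, bot_sup_eq] at h1
      by_cases hlk : l = k
      · subst hlk
        apply hcy
        funext j
        by_cases hj : j = l
        · subst hj; exact atom_le_atom hl hy h1
        · rw [← hy' j hj]; exact (hl' j hj).symm
      · rw [← hy' l hlk] at h1
        exact hl.ne (le_bot_iff.1 h1).symm

/-- the elements supported at `i`, in terms of linked atoms -/
theorem support_iff (hf : ∀ i, Finitary (F i))
    (hF : ∀ i, ∀ a b : F i, ⊥ ⋖ a → ⊥ ⋖ b → Persp a b) {i : Fin n}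
    {x : ∀ i, F i} (hx : ⊥ ⋖ x i) (hx' : ∀ j ≠ i, ⊥ = x j) (y : ∀ i, F i) :
    (∀ j ≠ i, y j = ⊥) ↔ ∀ c, ⊥ ⋖ c → c ≤ y → Persp c x := by
  constructor
  · intro h c hc hcy
    obtain ⟨l, hl, hl'⟩ := Pi.covBy_iff.1 hc
    have hli : l = i := by
      by_contra hli
      have := hcy l
      rw [h l hli] at this
      exact hl.ne (le_bot_iff.1 this).symm
    subst hli
    exact linked_of_support hF hl hl' hx hx'
  · intro h j hj
    by_contra hcon
    obtain ⟨a, ha, haj⟩ := exists_atom (hf j) hcon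
    have h1 : Function.update (⊥ : ∀ i, F i) j a ≤ y := by
      intro k
      by_cases hk : k = j
      · subst hk; rw [Function.update_self]; exact haj
      · rw [Function.update_of_ne hk]; exact bot_le
    have h2 := h _ (atom_single ha) h1
    refine hj (support_of_linked (i := j) ?_ ?_ hx hx' h2)
    · rw [Function.update_self]; exact ha
    · intro k hk
      rw [Function.update_of_ne hk]
      rfl

theorem supp_inj {m : ℕ} {G : Fin m → Type*} [∀ i, Lattice (G i)] [∀ i, OrderBot (G i)]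
    (hF' : ∀ i, ∃ a : F i, ⊥ ⋖ a)
    (hG : ∀ i, ∀ a b : G i, ⊥ ⋖ a → ⊥ ⋖ b → Persp a b)
    (φ : (∀ i, F i) ≃o (∀ j, G j)) :
    ∃ σ : Fin n → Fin m, Function.Injective σ ∧ ∀ i, ∃ x : ∀ i, F i, ⊥ ⋖ x i ∧
      (∀ j ≠ i, ⊥ = x j) ∧ ⊥ ⋖ φ x (σ i) ∧ ∀ j ≠ σ i, ⊥ = φ x j := by
  choose a ha using hF'
  have h1 : ∀ i, (⊥ : ∀ j, G j) ⋖ φ (Function.update ⊥ i (a i)) := by
    intro i
    rw [← φ.map_bot, apply_covBy_apply_iff φ]
    exact atom_single (ha i)
  have h2 := fun i => Pi.covBy_iff.1 (h1 i)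
  choose σ hσ hσ' using h2
  refine ⟨σ, ?_, fun i => ⟨Function.update ⊥ i (a i), ?_, ?_, hσ i, hσ' i⟩⟩
  · intro i k hik
    have h3 : Persp (φ (Function.update ⊥ i (a i))) (φ (Function.update ⊥ k (a k))) := by
      refine linked_of_support hG (hσ i) (hσ' i) ?_ ?_
      · rw [hik]; exact hσ k
      · rw [hik]; exact hσ' k
    rw [Persp.map_iff] at h3
    refine support_of_linked (i := i) (k := k) ?_ ?_ ?_ ?_ h3
    · rw [Function.update_self]; exact ha i
    · intro j hj
      rw [Function.update_of_ne hj]; rfl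
    · rw [Function.update_self]; exact ha k
    · intro j hj
      rw [Function.update_of_ne hj]; rfl
  · rw [Function.update_self]; exact ha i
  · intro j hj
    rw [Function.update_of_ne hj]; rfl

/-- the factors are unique -/
theorem factors_unique {m : ℕ} {G : Fin m → Type*} [∀ i, Lattice (G i)] [∀ i, OrderBot (G i)]
    (hfF : ∀ i, Finitary (F i)) (hfG : ∀ i, Finitary (G i))
    (hF' : ∀ i, ∃ a : F i, ⊥ ⋖ a) (hG' : ∀ i, ∃ a : G i, ⊥ ⋖ a)
    (hF : ∀ i, ∀ a b : F i, ⊥ ⋖ a → ⊥ ⋖ b → Persp a b)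
    (hG : ∀ i, ∀ a b : G i, ⊥ ⋖ a → ⊥ ⋖ b → Persp a b)
    (φ : (∀ i, F i) ≃o (∀ j, G j)) : ∃ σ : Fin n ≃ Fin m, ∀ i, Nonempty (F i ≃o G (σ i)) := by
  obtain ⟨σ, hσ, hx⟩ := supp_inj hF' hG φ
  obtain ⟨τ, hτ, _⟩ := supp_inj hG' hF φ.symm
  have hnm : n = m := by
    have h1 := Fintype.card_le_of_injective σ hσ
    have h2 := Fintype.card_le_of_injective τ hτ
    simp only [Fintype.card_fin] at h1 h2
    omega
  have hbij : Function.Bijective σ := by
    rw [Fintype.bijective_iff_injective_and_card]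
    exact ⟨hσ, by simp [hnm]⟩
  suffices main : ∀ i, Nonempty (F i ≃o G (σ i)) from ⟨Equiv.ofBijective σ hbij, main⟩
  intro i
  obtain ⟨x, hx1, hx2, hx3, hx4⟩ := hx i
  have key : ∀ y : ∀ i, F i, (∀ j ≠ i, y j = ⊥) ↔ ∀ j ≠ σ i, φ y j = ⊥ := by
    intro y
    rw [support_iff hfF hF hx1 hx2, support_iff hfG hG hx3 hx4]
    constructor
    · intro h c hc hcy
      have h1 := h (φ.symm c) (by
        rw [← φ.symm.map_bot, apply_covBy_apply_iff φ.symm]; exact hc)
        (by rw [← φ.symm_apply_apply y]; exact φ.symm.monotone hcy)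
      rw [← Persp.map_iff φ, φ.apply_symm_apply] at h1
      exact h1
    · intro h c hc hcy
      have h1 := h (φ c) (by rw [← φ.map_bot, apply_covBy_apply_iff φ]; exact hc)
        (φ.monotone hcy)
      rwa [Persp.map_iff φ] at h1
  have hup : ∀ z : F i, ∀ j ≠ i, Function.update (⊥ : ∀ i, F i) i z j = ⊥ := by
    intro z j hj
    rw [Function.update_of_ne hj]; rfl
  refine ⟨RelIso.ofSurjective (OrderEmbedding.ofMapLEIff
    (fun z : F i => φ (Function.update ⊥ i z) (σ i)) ?_) ?_⟩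
  · intro z w
    have h1 : φ (Function.update ⊥ i z) (σ i) ≤ φ (Function.update ⊥ i w) (σ i) ↔
        φ (Function.update ⊥ i z) ≤ φ (Function.update ⊥ i w) := by
      constructor
      · intro h j
        by_cases hj : j = σ i
        · subst hj; exact h
        · rw [(key _).1 (hup z) j hj]; exact bot_le
      · intro h
        exact h (σ i)
    rw [h1, φ.le_iff_le]
    constructor
    · intro h
      have := h i
      rwa [Function.update_self, Function.update_self] at this
    · intro h j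
      by_cases hj : j = i
      · subst hj; rw [Function.update_self, Function.update_self]; exact h
      · rw [Function.update_of_ne hj, Function.update_of_ne hj]
  · intro g
    have h1 : ∀ j ≠ σ i, φ (φ.symm (Function.update ⊥ (σ i) g)) j = ⊥ := by
      intro j hj
      rw [φ.apply_symm_apply, Function.update_of_ne hj]; rfl
    have h2 := (key _).2 h1
    refine ⟨φ.symm (Function.update ⊥ (σ i) g) i, ?_⟩
    have h3 : Function.update (⊥ : ∀ i, F i) i (φ.symm (Function.update ⊥ (σ i) g) i) =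
        φ.symm (Function.update ⊥ (σ i) g) := by
      funext j
      by_cases hj : j = i
      · subst hj; rw [Function.update_self]
      · rw [Function.update_of_ne hj, h2 j hj]; rfl
    change φ (Function.update (⊥ : ∀ i, F i) i (φ.symm (Function.update ⊥ (σ i) g) i)) (σ i) = g
    rw [h3, φ.apply_symm_apply, Function.update_self]

end factors

section T

theorem mem_T_lev {p : ℕ} {a b : ℕ∞} {x : Tree p} (h : x ∈ T p a b) : (x.lev : ℕ∞) ≤ b := by
  obtain ⟨m, n, h1, h2, h3, h4⟩ := h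
  have h5 := Tree.lev_le h4
  exact le_trans (by exact_mod_cast h5) h2

theorem mem_T_word {p : ℕ} {a b : ℕ∞} {x : Tree p} (h : x ∈ T p a b) (h0 : x.lev = 0) :
    (x.word.length : ℕ∞) ≤ a := by
  obtain ⟨m, n, h1, h2, h3, h4⟩ := h
  rw [Tree.le_def] at h4
  have h5 := lcp_le_right x.word (Tree.base p (n - m) m).word
  simp only [Tree.base, List.length_replicate] at h4 h5
  have h6 : x.word.length ≤ n := by omega
  exact le_trans (by exact_mod_cast h6) h3

theorem T_cov {p : ℕ} {a b : ℕ∞} (x y : T p a b) : (x : Tree p) ⋖ (y : Tree p) ↔ x ⋖ y :=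
  (T_ordConnected p a b).apply_covBy_apply_iff (OrderEmbedding.subtype fun z => z ∈ T p a b)

/-- an element of `T` whose ideal is a chain has level `0`, and the ideal has `n + 1` elements,
`n` the length of its word -/
theorem T_chain_elt {p : ℕ} {a b : ℕ∞} (x : T p a b)
    (h : ∀ u v : T p a b, u ≤ x → v ≤ x → u ≤ v ∨ v ≤ u) :
    (x : Tree p).lev = 0 ∧ (Set.Iic x).ncard = (x : Tree p).word.length + 1 := by
  have hlev : (x : Tree p).lev = 0 := by
    by_contra hcon
    obtain ⟨y, z, hy, hz, hyz⟩ := Tree.exists_two_down (x : Tree p) (by omega)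
    have hy' := T_lower hy.le x.2
    have hz' := T_lower hz.le x.2
    rcases h ⟨y, hy'⟩ ⟨z, hz'⟩ hy.le hz.le with h1 | h1
    · rcases hy.eq_or_eq h1 hz.le with h2 | h2
      · exact hyz h2.symm
      · exact hz.ne h2
    · rcases hz.eq_or_eq h1 hy.le with h2 | h2
      · exact hyz h2
      · exact hy.ne h2
  refine ⟨hlev, ?_⟩
  have e : Subtype.val '' (Set.Iic x) = Set.Iic (x : Tree p) := by
    ext y
    constructor
    · rintro ⟨z, hz, rfl⟩
      exact hz
    · intro hy
      exact ⟨⟨y, T_lower hy x.2⟩, hy, rfl⟩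
  have h1 : (Set.Iic x).ncard = (Set.Iic (x : Tree p)).ncard := by
    rw [← e, Set.ncard_image_of_injective _ Subtype.val_injective]
  have h2 := Tree.ht_lt_ncard (x : Tree p)
  have h3 : (Set.Iic (x : Tree p)).ncard ≤ (x : Tree p).ht + 1 := by
    have h4 : Set.InjOn Tree.ht (Set.Iic (x : Tree p)) := by
      intro u hu v hv huv
      rcases h ⟨u, T_lower hu x.2⟩ ⟨v, T_lower hv x.2⟩ hu hv with h5 | h5
      · exact Tree.eq_of_ht h5 huv
      · exact (Tree.eq_of_ht h5 huv.symm).symm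
    rw [← h4.ncard_image]
    have h5 : Tree.ht '' (Set.Iic (x : Tree p)) ⊆
        ((Finset.range ((x : Tree p).ht + 1) : Finset ℕ) : Set ℕ) := by
      rintro _ ⟨y, hy, rfl⟩
      rw [Finset.mem_coe, Finset.mem_range]
      have := Tree.ht_le hy
      omega
    have h6 := Set.ncard_le_ncard h5 (Finset.finite_toSet _)
    rwa [Set.ncard_coe_finset, Finset.card_range] at h6
  rw [h1]
  have h4 : (x : Tree p).ht = (x : Tree p).word.length := by
    simp only [Tree.ht, hlev]; omega
  omega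

theorem T_a_le {p p' : ℕ} {a b a' b' : ℕ∞} (e : T p a b ≃o T p' a' b') : a ≤ a' := by
  rw [← ENat.forall_natCast_le_iff_le]
  intro n hn
  let x : T p a b := ⟨Tree.base p n 0, 0, n, by omega, by simp, hn, le_rfl⟩
  have hch : ∀ u v : T p a b, u ≤ x → v ≤ x → u ≤ v ∨ v ≤ u := by
    intro u v hu hv
    obtain ⟨i, _, hi⟩ := Tree.eq_base_of_le (show (u : Tree p) ≤ Tree.base p n 0 from hu)
    obtain ⟨j, _, hj⟩ := Tree.eq_base_of_le (show (v : Tree p) ≤ Tree.base p n 0 from hv)
    rcases le_total i j with h | h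
    · left
      change (u : Tree p) ≤ (v : Tree p)
      rw [hi, hj, Tree.base_le_base]
      omega
    · right
      change (v : Tree p) ≤ (u : Tree p)
      rw [hi, hj, Tree.base_le_base]
      omega
  have hch' : ∀ u v : T p' a' b', u ≤ e x → v ≤ e x → u ≤ v ∨ v ≤ u := by
    intro u v hu hv
    have := hch (e.symm u) (e.symm v) (by rw [← e.symm_apply_apply x]; exact e.symm.monotone hu)
      (by rw [← e.symm_apply_apply x]; exact e.symm.monotone hv)
    simpa only [e.symm.le_iff_le] using this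
  obtain ⟨_, h2⟩ := T_chain_elt x hch
  obtain ⟨h3, h4⟩ := T_chain_elt (e x) hch'
  have h5 : (Set.Iic (e x)).ncard = (Set.Iic x).ncard := by
    have : Set.Iic (e x) = e '' Set.Iic x := by rw [e.image_Iic]
    rw [this, Set.ncard_image_of_injective _ e.injective]
  have h6 : (x : Tree p).word.length = n := by simp [x, Tree.base]
  have h7 : (e x : Tree p').word.length = n := by omega
  rw [← h7]
  exact mem_T_word (e x).2 h3

theorem T_b_le {p p' : ℕ} {a b a' b' : ℕ∞} (hba : b ≤ a) (e : T p a b ≃o T p' a' b') :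
    b ≤ b' := by
  rw [← ENat.forall_natCast_le_iff_le]
  intro n hn
  have hmem : ∀ m : ℕ, (m : ℕ∞) ≤ b → Tree.base p 0 m ∈ T p a b := fun m hm =>
    ⟨m, m, le_rfl, hm, hm.trans hba, by rw [Nat.sub_self]⟩
  have key : ∀ m : ℕ, ∀ hm : (m : ℕ∞) ≤ b,
      (e ⟨Tree.base p 0 m, hmem m hm⟩ : Tree p') = Tree.base p' 0 m := by
    intro m
    induction m with
    | zero =>
      intro hm
      have h1 : (⟨Tree.base p 0 0, hmem 0 hm⟩ : T p a b) = ⊥ := rfl
      rw [h1, e.map_bot]
      rfl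
    | succ m ih =>
      intro hm
      have hm' : (m : ℕ∞) ≤ b := le_trans (by exact_mod_cast Nat.le_succ m) hm
      obtain ⟨y, z, hy, hz, hyz⟩ := Tree.exists_two_up (Tree.base p 0 m)
      have hle : ∀ w, Tree.base p 0 m ⋖ w → w ≤ Tree.base p 0 (m + 1) := fun w hw =>
        Tree.le_above_of_covBy hw
      have hy' := T_lower (hle y hy) (hmem _ hm)
      have hz' := T_lower (hle z hz) (hmem _ hm)
      have hsup : y ⊔ z = Tree.base p 0 (m + 1) := Tree.covBy_sup_eq hy hz hyz
      have hey : (e ⟨Tree.base p 0 m, hmem m hm'⟩ : Tree p') ⋖ (e ⟨y, hy'⟩ : Tree p') := by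
        rw [T_cov, apply_covBy_apply_iff e, ← T_cov]; exact hy
      have hez : (e ⟨Tree.base p 0 m, hmem m hm'⟩ : Tree p') ⋖ (e ⟨z, hz'⟩ : Tree p') := by
        rw [T_cov, apply_covBy_apply_iff e, ← T_cov]; exact hz
      have hne : (e ⟨y, hy'⟩ : Tree p') ≠ (e ⟨z, hz'⟩ : Tree p') := by
        intro h
        have := e.injective (Subtype.ext h)
        exact hyz (congrArg Subtype.val this)
      rw [ih hm'] at hey hez
      have h1 := Tree.covBy_sup_eq hey hez hne
      have h2 : (⟨Tree.base p 0 (m + 1), hmem _ hm⟩ : T p a b) = ⟨y, hy'⟩ ⊔ ⟨z, hz'⟩ :=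
        Subtype.ext hsup.symm
      rw [h2, e.map_sup]
      exact h1
  have h1 := mem_T_lev (e ⟨Tree.base p 0 n, hmem n hn⟩).2
  rw [key n hn] at h1
  exact h1

theorem T_unique {p p' : ℕ} {a b a' b' : ℕ∞} (h : Params p a b) (h' : Params p' a' b')
    (e : T p a b ≃o T p' a' b') : p = p' ∧ a = a' ∧ b = b' := by
  have ha := le_antisymm (T_a_le e) (T_a_le e.symm)
  have hb := le_antisymm (T_b_le h.le e) (T_b_le h'.le e.symm)
  refine ⟨?_, ha, hb⟩
  by_cases hb0 : b = 0
  · rw [h.iff.2 hb0, h'.iff.2 (hb ▸ hb0)]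
  · obtain ⟨x, y, hx, hy, hxy⟩ := T_two_atoms (p := p) hb0 h.le
    have h1 := (T_pq p a b).up_card _ _ _ hx hy hxy
    have h2 := ((T_pq p' a' b').of_iso e).up_card _ _ _ hx hy hxy
    omega

/-- the atoms of `T p a b` are linked -/
theorem T_linked {p : ℕ} {a b : ℕ∞} (h : Params p a b) (x y : T p a b) (hx : ⊥ ⋖ x)
    (hy : ⊥ ⋖ y) : Persp x y := by
  by_cases hxy : x = y
  · exact Or.inl hxy
  by_cases hb : b = 0
  · subst hb
    rcases T_chain x y with h1 | h1
    · exact absurd (atom_le_atom hx hy h1) hxy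
    · exact absurd (atom_le_atom hy hx h1).symm hxy
  have hp : p ≠ 0 := fun hp => hb (h.iff.1 hp)
  have h1 := (T_pq p a b).up_card _ _ _ hx hy hxy
  have h2 : ({x, y} : Set (T p a b)).ncard < {w : T p a b | ⊥ ⋖ w}.ncard := by
    rw [h1, Set.ncard_pair hxy]; omega
  obtain ⟨c, hc, hc'⟩ := Set.exists_mem_notMem_of_ncard_lt_ncard h2
  rw [Set.mem_insert_iff, Set.mem_singleton_iff, not_or] at hc'
  exact Or.inr ⟨c, hc, hc'.1, hc'.2, (T_pq p a b).up_le _ _ _ _ hx hy hxy hc⟩

theorem T_exists_atom {p : ℕ} {a b : ℕ∞} (h : Params p a b) : ∃ x : T p a b, ⊥ ⋖ x := by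
  have h1 : ((1 : ℕ) : ℕ∞) ≤ a := by
    rw [Nat.cast_one]; exact Order.one_le_iff_ne_zero.2 h.pos
  have h2 : (⊥ : T p a b) ≠ ⟨Tree.base p 1 0, 0, 1, by omega, by simp, h1, le_rfl⟩ := by
    intro hcon
    have := congrArg (fun z : T p a b => (z : Tree p).word.length) hcon
    simp only [Tree.base, List.length_replicate] at this
    exact absurd this (by
      change ¬ (⊥ : Tree p).word.length = 1
      simp [Tree.bot_word])
  exact (exists_atom (fun x => T_finite_Iic x) h2.symm).imp fun c hc => hc.1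

end T

theorem T_prod_unique {n m : ℕ} {p : Fin n → ℕ} {a b : Fin n → ℕ∞} {p' : Fin m → ℕ}
    {a' b' : Fin m → ℕ∞} (h : ∀ i, Params (p i) (a i) (b i))
    (h' : ∀ i, Params (p' i) (a' i) (b' i))
    (φ : (∀ i, T (p i) (a i) (b i)) ≃o ∀ j, T (p' j) (a' j) (b' j)) :
    ∃ σ : Fin n ≃ Fin m, ∀ i, p i = p' (σ i) ∧ a i = a' (σ i) ∧ b i = b' (σ i) := by
  obtain ⟨σ, hσ⟩ := factors_unique (fun i => fun x => T_finite_Iic x)
    (fun i => fun x => T_finite_Iic x) (fun i => T_exists_atom (h i))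
    (fun i => T_exists_atom (h' i)) (fun i => T_linked (h i)) (fun i => T_linked (h' i)) φ
  refine ⟨σ, fun i => ?_⟩
  obtain ⟨e⟩ := hσ i
  exact T_unique (h i) (h' (σ i)) e

end Pool.Agent.Helper20.SD
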